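import Pool.Agent.Q44.BN.Ex2

/-!
# Complements for the final statements
-/

set_option autoImplicit false

open scoped Classical

namespace Q44.BN

open Finset Module Filter Topology
open Pool.Agent.Y697.PQ (cf cf_pos ij)
open Q44.BC (lam lam_tendsto gx gx_near HH HH_one summ_lam ij_ge)

/-- the law as an infinite product -/
theorem lam_tprod {t : ℝ} (ht : 0 ≤ t) (r : ℕ) :
    lam t r = t ^ r / (∏ i ∈ range r, ((2 : ℝ) ^ r - 2 ^ i)) *
      ∏' i : ℕ, (1 - t / 2 ^ (r + i + 1)) := by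
  have hs : Summable fun i : ℕ => -(t / 2 ^ (r + i + 1)) := by
    have h1 : Summable fun i : ℕ => (t / 2 ^ (r + 1)) * (1 / 2) ^ i :=
      (summable_geometric_of_lt_one (by norm_num) (by norm_num)).mul_left _
    refine h1.neg.congr fun i => ?_
    rw [one_div, inv_pow, pow_add, pow_add, pow_add]
    field_simp
  have hm := Real.multipliable_one_add_of_summable hs
  have h2 := hm.hasProd.tendsto_prod_nat
  have h3 := h2.const_mul (t ^ r / (∏ i ∈ range r, ((2 : ℝ) ^ r - 2 ^ i)))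
  have h4 := lam_tendsto ht r
  refine tendsto_nhds_unique h4 (h3.congr fun n => ?_)
  congr 1

/-- the sum of the law -/
theorem lam_hasSum {t : ℝ} (ht : 0 ≤ t) : HasSum (fun r => lam t r) 1 := by
  have h := (summ_lam ht).hasSum
  have e := HH_one ht
  unfold HH at e
  rwa [e] at h

/-- the law is positive for large values -/
theorem lam_pos_ev {t : ℝ} (ht : 0 < t) : ∀ᶠ r : ℕ in atTop, 0 < lam t r := by
  have h1 : Tendsto (fun n : ℕ => t / 2 ^ n) atTop (𝓝 0) :=
    tendsto_const_nhds.div_atTop (tendsto_pow_atTop_atTop_of_one_lt (by norm_num))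
  have h3 := h1.mul_const (∑' j : ℕ, cf j)
  rw [zero_mul] at h3
  filter_upwards [h3.eventually (gt_mem_nhds one_pos), h1.eventually (gt_mem_nhds one_pos)] with
    r hr hr1
  have h4 := gx_near (y := t / 2 ^ r) (by positivity) hr1.le
  have h5 : 0 < gx (t / 2 ^ r) := by
    rw [abs_le] at h4
    linarith
  unfold lam
  have h6 := ij_ge r
  have h7 : (0 : ℝ) < 2 ^ (r * (r - 1)) := by positivity
  have h8 : 0 < ij r (2 ^ r) := h7.trans_le h6
  positivity

/-- the numerical value -/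
theorem lam_one : 0.288 < lam 1 0 ∧ lam 1 0 < 0.290 := by
  have h4 := lam_tendsto (t := 1) zero_le_one 0
  have e : ∀ n : ℕ, (1 : ℝ) ^ 0 / (∏ i ∈ range 0, ((2 : ℝ) ^ 0 - 2 ^ i)) *
      ∏ i ∈ range n, (1 - (1 : ℝ) / 2 ^ (0 + i + 1)) = ∏ i ∈ range n, (1 - (1 : ℝ) / 2 ^ (i + 1)) := by
    intro n
    simp
  simp only [e] at h4
  have hp : ∀ n : ℕ, 0 < ∏ i ∈ range n, (1 - (1 : ℝ) / 2 ^ (i + 1)) := by
    intro n
    refine prod_pos fun i _ => ?_
    have h1 : (1 : ℝ) < 2 ^ (i + 1) := one_lt_pow₀ (by norm_num) (by omega)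
    rw [sub_pos, div_lt_one (by positivity)]
    exact h1
  have hup : ∀ n : ℕ, ∏ i ∈ range (10 + n), (1 - (1 : ℝ) / 2 ^ (i + 1)) ≤
      ∏ i ∈ range 10, (1 - (1 : ℝ) / 2 ^ (i + 1)) := by
    intro n
    induction n with
    | zero => exact le_rfl
    | succ n ih =>
      rw [← add_assoc, prod_range_succ]
      refine le_trans ?_ ih
      have h1 := hp (10 + n)
      have h2 : (0 : ℝ) ≤ 1 / 2 ^ (10 + n + 1) := by positivity
      nlinarith
  have hlo : ∀ n : ℕ, (∏ i ∈ range 10, (1 - (1 : ℝ) / 2 ^ (i + 1))) *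
      (1 - 1 / 2 ^ 10 + 1 / 2 ^ (10 + n)) ≤ ∏ i ∈ range (10 + n), (1 - (1 : ℝ) / 2 ^ (i + 1)) := by
    intro n
    induction n with
    | zero =>
      rw [add_zero]
      have h1 := hp 10
      nlinarith
    | succ n ih =>
      rw [← add_assoc, prod_range_succ (fun i => 1 - (1 : ℝ) / 2 ^ (i + 1)) (10 + n)]
      have h1 := hp 10
      have h2 : (0 : ℝ) ≤ 1 - 1 / 2 ^ (10 + n + 1) := by
        have h3 : (1 : ℝ) ≤ 2 ^ (10 + n + 1) := one_le_pow₀ (by norm_num)
        rw [sub_nonneg, div_le_one (by positivity)]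
        exact h3
      refine le_trans ?_ (mul_le_mul_of_nonneg_right ih h2)
      have e1 : (1 : ℝ) / 2 ^ (10 + n) = 2 * (1 / 2 ^ (10 + n + 1)) := by
        rw [pow_succ (2 : ℝ) (10 + n)]
        field_simp
      rw [e1, mul_assoc]
      refine mul_le_mul_of_nonneg_left ?_ h1.le
      set x : ℝ := 1 / 2 ^ (10 + n + 1) with hx
      have hx0 : 0 ≤ x := by positivity
      have hx1 : x ≤ 1 / 2 ^ 11 := by
        rw [hx]
        refine div_le_div_of_nonneg_left zero_le_one (by positivity) ?_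
        exact pow_le_pow_right₀ (by norm_num) (by omega)
      norm_num at hx1 ⊢
      nlinarith
  have h5 : ∏ i ∈ range 10, (1 - (1 : ℝ) / 2 ^ (i + 1)) < 0.290 := by
    norm_num [prod_range_succ]
  have h6 : 0.2881 < (∏ i ∈ range 10, (1 - (1 : ℝ) / 2 ^ (i + 1))) * (1 - 1 / 2 ^ 10) := by
    norm_num [prod_range_succ]
  have h7 : Tendsto (fun n : ℕ => ∏ i ∈ range (10 + n), (1 - (1 : ℝ) / 2 ^ (i + 1))) atTop
      (𝓝 (lam 1 0)) := by
    have := h4.comp (tendsto_add_atTop_nat 10)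
    refine this.congr fun n => ?_
    show ∏ i ∈ range (n + 10), _ = _
    rw [add_comm]
  constructor
  · have h8 : (∏ i ∈ range 10, (1 - (1 : ℝ) / 2 ^ (i + 1))) * (1 - 1 / 2 ^ 10) ≤ lam 1 0 := by
      refine ge_of_tendsto' h7 fun n => le_trans ?_ (hlo n)
      have h1 := hp 10
      refine mul_le_mul_of_nonneg_left ?_ h1.le
      have : (0 : ℝ) ≤ 1 / 2 ^ (10 + n) := by positivity
      linarith
    linarith
  · exact (le_of_tendsto' h7 hup).trans_lt h5

namespace Cd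

variable (e : Cd)

/-- large values -/
theorem large {D₀ : ℤ} (h : Squarefree D₀) (T : ℕ) : ∃ η : ℝ, 0 < η ∧ ∀ᶠ X : ℕ in atTop,
    η * (X : ℝ) ≤ (((Sq X).filter fun D => Same e.a e.b D₀ D ∧ 2 ^ T ≤ e.rs D).card : ℝ) := by
  obtain ⟨⟨-, ht⟩, -, hl, -⟩ := e.facts h
  obtain ⟨r, hr, hrT⟩ := ((lam_pos_ev ht).and (eventually_ge_atTop T)).exists
  obtain ⟨η, X₀, hη, hX₀⟩ := e.density h
  refine ⟨η * (lam (e.tau' D₀) r / 2), by positivity, ?_⟩
  filter_upwards [(hl r).eventually (lt_mem_nhds (show lam (e.tau' D₀) r / 2 < lam (e.tau' D₀) r by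
    linarith)), eventually_ge_atTop X₀, eventually_ge_atTop 1] with X hX hX0 hX1
  have h1 := hX₀ X hX0
  have hX1' : (1 : ℝ) ≤ X := by exact_mod_cast hX1
  have hN : (0 : ℝ) < (((Sq X).filter fun D => Same e.a e.b D₀ D).card : ℝ) := by
    refine lt_of_lt_of_le ?_ h1
    positivity
  rw [lt_div_iff₀ hN] at hX
  have h2 : (((Sq X).filter fun D => Same e.a e.b D₀ D ∧ e.nS' D = 2 ^ (r + 1)).card : ℝ) ≤
      (((Sq X).filter fun D => Same e.a e.b D₀ D ∧ 2 ^ T ≤ e.rs D).card : ℝ) := by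
    refine Nat.cast_le.2 (card_le_card fun D hD => ?_)
    rw [mem_filter] at hD ⊢
    refine ⟨hD.1, hD.2.1, ?_⟩
    have h3 := e.nS'_le (mem_Sq.1 hD.1).2
    rw [hD.2.2, pow_succ] at h3
    have h4 : 2 ^ T ≤ 2 ^ r := Nat.pow_le_pow_right (by norm_num) hrT
    omega
  have h3 : η * (lam (e.tau' D₀) r / 2) * X = lam (e.tau' D₀) r / 2 * (η * X) := by ring
  rw [h3]
  have h4 : lam (e.tau' D₀) r / 2 * (η * X) ≤ lam (e.tau' D₀) r / 2 *
      (((Sq X).filter fun D => Same e.a e.b D₀ D).card : ℝ) :=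
    mul_le_mul_of_nonneg_left h1 (by positivity)
  refine h4.trans (hX.le.trans (le_trans (le_of_eq ?_) h2))
  exact congrArg Nat.cast (cardS (fun D => Iff.rfl) _)

end Cd

end Q44.BN
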