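import Pool.Agent.Q44.BN.All
import Pool.Agent.Q44.BC.LA7
import Pool.Agent.Q44.TI.Sha

/-!
# The ranks of all the twists
-/

set_option autoImplicit false

open scoped Classical

namespace Q44.BN

open Finset Filter Topology
open Q44.BC (lam lam_tail)
open Q44.TK (Fm hF hF_eq fin_Fm)
open Q44.TI (SelS cardf ratio pd sha_bound)
open Pool.Agent.W262.SH (Sha)
open Pool.Agent.TH841.SH Pool.Agent.Y668

namespace Cd

variable (e : Cd)

/-- the space of the local classes -/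
abbrev KK : Type := GG e.m.primeFactors × Fm e.m

theorem exists_dr (x : Fm e.m) : ∃ p : ℕ, p.Prime ∧ p.Coprime e.m ∧ hF e.m p = x := by
  obtain ⟨n, hn, -, hx⟩ := hF_surj e.m0 x
  obtain ⟨p, -, hp, h1⟩ := Nat.forall_exists_prime_gt_and_modEq 0 e.m0 hn
  have h2 : p % e.m = n % e.m := h1
  have hc : p.Coprime e.m := Q44.TI.cop_mod.1 (by rw [h2]; exact Q44.TI.cop_mod.2 hn)
  exact ⟨p, hp, hc, by rw [← hF_mod hc, h2, hF_mod hn, hx]⟩

/-- a prime in the class -/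
noncomputable def dr (x : Fm e.m) : ℕ := (e.exists_dr x).choose

theorem dr_prime (x : Fm e.m) : (e.dr x).Prime := (e.exists_dr x).choose_spec.1
theorem dr_cop (x : Fm e.m) : (e.dr x).Coprime e.m := (e.exists_dr x).choose_spec.2.1
theorem dr_hF (x : Fm e.m) : hF e.m (e.dr x) = x := (e.exists_dr x).choose_spec.2.2

/-- the representative of a class -/
noncomputable def rep (κ : e.KK) : ℤ := UU κ.1 * (e.dr κ.2 : ℤ)

theorem exists_kap {D : ℤ} (hD : Squarefree D) :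
    ∃ κ₀ : e.KK, ∀ κ : e.KK, Same e.a e.b (e.rep κ) D ↔ κ₀ = κ := by
  obtain ⟨g, d, h2, h3, rfl⟩ := e.dec hD
  refine ⟨(g, hF e.m d), fun κ => ?_⟩
  unfold rep
  rw [e.same_iff h3 (e.dr_cop κ.2) (e.sqf_mul h3 h2) (e.sqf_mul (e.dr_cop κ.2)
    (e.dr_prime κ.2).squarefree), e.dr_hF]
  constructor
  · rintro ⟨k1, k2⟩
    exact Prod.ext k1 k2
  · intro k
    exact ⟨congrArg Prod.fst k, congrArg Prod.snd k⟩

/-- the class of an integer -/
noncomputable def kap (D : ℤ) : e.KK :=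
  if h : ∃ κ₀ : e.KK, ∀ κ : e.KK, Same e.a e.b (e.rep κ) D ↔ κ₀ = κ then h.choose else 0

theorem kap_iff {D : ℤ} (hD : Squarefree D) (κ : e.KK) :
    Same e.a e.b (e.rep κ) D ↔ e.kap D = κ := by
  unfold kap
  rw [dif_pos (e.exists_kap hD)]
  exact (e.exists_kap hD).choose_spec κ

noncomputable instance : Fintype e.KK :=
  have : NeZero e.m := ⟨e.m0⟩
  have := fin_Fm e.m
  Fintype.ofFinite _

/-- the sum over the local classes -/
theorem sum_cls (X : ℕ) (Q : ℤ → Prop) : ((Sq X).filter Q).card =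
    ∑ κ : e.KK, ((Sq X).filter fun D => Same e.a e.b (e.rep κ) D ∧ Q D).card := by
  rw [Finset.card_eq_sum_card_fiberwise (f := e.kap) (t := univ)
    (fun D _ => Finset.mem_coe.2 (mem_univ _))]
  refine sum_congr rfl fun κ _ => ?_
  rw [filter_filter]
  congr 1
  refine filter_congr fun D hD => ?_
  rw [e.kap_iff (mem_Sq.1 hD).2, and_comm]

/-- the data of the class -/
noncomputable def cκ (κ : e.KK) : Cu := e.cu κ.1 (e.dr_cop κ.2)
noncomputable def cδ (κ : e.KK) : Cu := e.cud κ.1 (e.dr_cop κ.2)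

/-- the order of the Selmer group -/
noncomputable def nS (D : ℤ) : ℕ := (SelS (e.a * D) (e.b * D ^ 2)).ncard
noncomputable def nS' (D : ℤ) : ℕ := (SelS (-2 * (e.a * D)) ((e.a * D) ^ 2 - 4 * (e.b * D ^ 2))).ncard

theorem lawκ (κ : e.KK) (r : ℕ) :
    Tendsto (fun X : ℕ => (((Sq X).filter fun D => Same e.a e.b (e.rep κ) D ∧
        e.nS D = 2 ^ (r + 1)).card : ℝ) /
      (((Sq X).filter fun D => Same e.a e.b (e.rep κ) D).card : ℝ)) atTop
      (𝓝 (lam (e.cκ κ).t r)) :=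
  e.law κ.1 (e.dr_cop κ.2) (e.dr_prime κ.2).squarefree r

theorem lawκ' (κ : e.KK) (r : ℕ) :
    Tendsto (fun X : ℕ => (((Sq X).filter fun D => Same e.a e.b (e.rep κ) D ∧
        e.nS' D = 2 ^ (r + 1)).card : ℝ) /
      (((Sq X).filter fun D => Same e.a e.b (e.rep κ) D).card : ℝ)) atTop
      (𝓝 (lam (e.cδ κ).t r)) :=
  e.law_dual κ.1 (e.dr_cop κ.2) (e.dr_prime κ.2).squarefree r

/-- the orders are powers of two -/
theorem pow_nS {D : ℤ} (hD : Squarefree D) : (SelS (e.a * D) (e.b * D ^ 2)).Finite ∧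
    (SelS (-2 * (e.a * D)) ((e.a * D) ^ 2 - 4 * (e.b * D ^ 2))).Finite ∧
    (∃ r, e.nS D = 2 ^ (r + 1)) ∧ ∃ r, e.nS' D = 2 ^ (r + 1) := by
  obtain ⟨g, d, h1, h2, rfl⟩ := e.dec hD
  have key : ∀ c : Cu, c.m = e.m → c.d = d → (SelS (c.A * d) (c.B * (d : ℤ) ^ 2)).Finite ∧
      ∃ r, (SelS (c.A * d) (c.B * (d : ℤ) ^ 2)).ncard = 2 ^ (r + 1) := by
    intro c hcm hcd
    have h2' : d.Coprime c.m := by rw [hcm]; exact h2
    have h4 : c.Dm d := ⟨⟨h1, h2'⟩, by rw [hcd]⟩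
    obtain ⟨⟨k1, k2⟩, k3⟩ := (c.Dm_iff d).1 h4
    have h3 := c.ncard_SelS k2 ((c.GT_iff k2).1 k3)
    have e1 : pd d.primeFactors = (d : ℤ) := by
      unfold pd
      rw [Nat.prod_primeFactors_of_squarefree h1]
    rw [e1] at h3
    exact ⟨h3.1, _, h3.2⟩
  obtain ⟨f1, r1, h3⟩ := key (e.cu g h2) rfl rfl
  obtain ⟨f2, r2, h4⟩ := key (e.cud g h2) rfl rfl
  have e1 : (e.cu g h2).A * (d : ℤ) = e.a * (UU g * d) := by
    show e.a * UU g * d = _
    ring
  have e2 : (e.cu g h2).B * (d : ℤ) ^ 2 = e.b * (UU g * d) ^ 2 := by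
    show e.b * UU g ^ 2 * d ^ 2 = _
    ring
  have e3 : (e.cud g h2).A * (d : ℤ) = -2 * (e.a * (UU g * d)) := by
    show -2 * (e.a * UU g) * d = _
    ring
  have e4 : (e.cud g h2).B * (d : ℤ) ^ 2 =
      (e.a * (UU g * d)) ^ 2 - 4 * (e.b * (UU g * d) ^ 2) := by
    show ((e.a * UU g) ^ 2 - 4 * (e.b * UU g ^ 2)) * d ^ 2 = _
    ring
  rw [e1, e2] at h3 f1
  rw [e3, e4] at h4 f2
  exact ⟨f1, f2, ⟨r1, h3⟩, r2, h4⟩

end Cd

/-- the order is not one of the first powers of two -/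
def BigN (n : ℤ → ℕ) (R : ℕ) (D : ℤ) : Prop := ∀ r ≤ R, n D ≠ 2 ^ (r + 1)

theorem filt_true {α : Type} (s : Finset α) {P : α → Prop} {i : DecidablePred P} (h : ∀ x, P x) :
    s.filter P = s := by
  ext x
  rw [mem_filter]
  exact ⟨fun h => h.1, fun h' => ⟨h', h x⟩⟩

/-- the tail of a law -/
theorem tail_lim {S : ℕ → Finset ℤ} {n : ℤ → ℕ} {P : ℤ → Prop} {f : ℕ → ℝ}
    (h : ∀ r : ℕ, Tendsto (fun X : ℕ => (((S X).filter fun D => P D ∧ n D = 2 ^ (r + 1)).card : ℝ) /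
      (((S X).filter fun D => P D).card : ℝ)) atTop (𝓝 (f r))) (R : ℕ) {ε : ℝ}
    (hε : |1 - ∑ r ∈ range (R + 1), f r| < ε) :
    ∀ᶠ X : ℕ in atTop, (((S X).filter fun D => P D ∧ BigN n R D).card : ℝ) ≤
      ε * (((S X).filter fun D => P D).card : ℝ) := by
  have h1 : Tendsto (fun X : ℕ => ∑ r ∈ range (R + 1),
      (((S X).filter fun D => P D ∧ n D = 2 ^ (r + 1)).card : ℝ) /
      (((S X).filter fun D => P D).card : ℝ)) atTop (𝓝 (∑ r ∈ range (R + 1), f r)) :=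
    tendsto_finsetSum _ fun r _ => h r
  have h2 : 1 - ε < ∑ r ∈ range (R + 1), f r := by
    rw [abs_lt] at hε
    linarith
  filter_upwards [h1.eventually (lt_mem_nhds h2)] with X hX
  rw [← sum_div] at hX
  set N : ℝ := (((S X).filter fun D => P D).card : ℝ) with hN
  have hN0 : 0 ≤ N := Nat.cast_nonneg _
  by_cases hN1 : N = 0
  · have h3 : ((S X).filter fun D => P D ∧ BigN n R D).card ≤
        ((S X).filter fun D => P D).card := by
      refine card_le_card fun D hD => ?_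
      rw [mem_filter] at hD ⊢
      exact ⟨hD.1, hD.2.1⟩
    have h4 : (((S X).filter fun D => P D ∧ BigN n R D).card : ℝ) ≤ N := by
      rw [hN]
      exact_mod_cast h3
    rw [hN1] at h4 ⊢
    linarith
  have hNp : 0 < N := lt_of_le_of_ne hN0 (Ne.symm hN1)
  rw [lt_div_iff₀ hNp] at hX
  have h5 : (((S X).filter fun D => P D ∧ BigN n R D).card : ℝ) +
      ∑ r ∈ range (R + 1), (((S X).filter fun D => P D ∧ n D = 2 ^ (r + 1)).card : ℝ) ≤ N := by
    rw [hN]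
    have h6 : ((range (R + 1)).biUnion fun r => (S X).filter fun D => P D ∧ n D = 2 ^ (r + 1)) ∪
        ((S X).filter fun D => P D ∧ BigN n R D) ⊆
          (S X).filter fun D => P D := by
      intro D hD
      rcases mem_union.1 hD with h7 | h7
      · obtain ⟨r, -, h8⟩ := mem_biUnion.1 h7
        rw [mem_filter] at h8 ⊢
        exact ⟨h8.1, h8.2.1⟩
      · rw [mem_filter] at h7 ⊢
        exact ⟨h7.1, h7.2.1⟩
    have h7 := card_le_card h6
    rw [card_union_of_disjoint, card_biUnion] at h7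
    · have h8 : ((∑ r ∈ range (R + 1), ((S X).filter fun D => P D ∧ n D = 2 ^ (r + 1)).card +
        ((S X).filter fun D => P D ∧ BigN n R D).card : ℕ) : ℝ) ≤
          (((S X).filter fun D => P D).card : ℝ) := by exact_mod_cast h7
      push_cast at h8
      linarith
    · intro r _ s _ hrs
      show Disjoint _ _
      rw [disjoint_left]
      intro D h1 h2
      rw [mem_filter] at h1 h2
      have h3 := h1.2.2.symm.trans h2.2.2
      have := Nat.pow_right_injective (le_refl 2) h3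
      omega
    · rw [disjoint_left]
      intro D h1 h2
      obtain ⟨r, hr, h3⟩ := mem_biUnion.1 h1
      rw [mem_filter] at h2 h3
      rw [mem_range] at hr
      exact h2.2.2 r (by omega) h3.2.2
  linarith

/-- the tail over all the twists, by classes -/
theorem tail_all {K : Type} [Fintype K] (S : ℕ → Finset ℤ) (P : K → ℤ → Prop) (Q : ℤ → Prop)
    (hP : ∀ X, (S X).card = ∑ κ, ((S X).filter fun D => P κ D).card)
    (hQ : ∀ X, ((S X).filter Q).card = ∑ κ, ((S X).filter fun D => P κ D ∧ Q D).card) {ε : ℝ}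
    (h : ∀ κ, ∀ᶠ X : ℕ in atTop, (((S X).filter fun D => P κ D ∧ Q D).card : ℝ) ≤
      ε * (((S X).filter fun D => P κ D).card : ℝ)) :
    ∀ᶠ X : ℕ in atTop, (((S X).filter Q).card : ℝ) ≤ ε * ((S X).card : ℝ) := by
  have h1 := eventually_all.2 h
  filter_upwards [h1] with X hX
  rw [hQ X, hP X]
  push_cast
  rw [mul_sum]
  exact sum_le_sum fun κ _ => hX κ

namespace Cd

variable (e : Cd)

theorem nsq {D : ℤ} (hD : D ≠ 0) : ¬ IsSquare (e.b * D ^ 2) ∧
    ¬ IsSquare ((e.a * D) ^ 2 - 4 * (e.b * D ^ 2)) := by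
  refine ⟨fun h => e.hb ((sq_iff hD).1 h), ?_⟩
  have e1 : (e.a * D) ^ 2 - 4 * (e.b * D ^ 2) = (e.a ^ 2 - 4 * e.b) * D ^ 2 := by ring
  rw [e1, sq_iff hD]
  have h1 : (0 : ℕ).Coprime 1 := Nat.coprime_one_right 0
  have h2 := (e.cu 0 (Nat.coprime_one_left e.m)).CnB
  have e2 : (e.cu 0 (Nat.coprime_one_left e.m)).A ^ 2 - 4 * (e.cu 0 (Nat.coprime_one_left e.m)).B =
      e.a ^ 2 - 4 * e.b := by
    show (e.a * UU 0) ^ 2 - 4 * (e.b * UU 0 ^ 2) = _
    rw [UU_zero]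
    ring
  rwa [e2] at h2

/-- the twist -/
abbrev Ed (D : ℤ) : WeierstrassCurve ℚ := Wt ((e.a * D : ℤ) : ℚ) ((e.b * D ^ 2 : ℤ) : ℚ)

/-- the order of `2 ^ rank` times the `2`-torsion of the Tate-Shafarevich group -/
noncomputable def rs (D : ℤ) : ℕ := 2 ^ Module.finrank ℤ (e.Ed D).toAffine.Point *
  Nat.card {x : Sha (e.Ed D) // x + x = 0}

theorem rs_le {D : ℤ} (hD : Squarefree D) :
    Finite {x : Sha (e.Ed D) // x + x = 0} ∧ 4 * e.rs D ≤ e.nS D * e.nS' D := by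
  obtain ⟨f1, f2, -, -⟩ := e.pow_nS hD
  obtain ⟨n1, n2⟩ := e.nsq hD.ne_zero
  exact sha_bound n1 n2 f1 f2

/-- **the ranks of the twists** -/
theorem rank_tail : ∃ C : ℝ, 0 < C ∧ ∀ R : ℕ, ∀ᶠ X : ℕ in atTop,
    (((Sq X).filter fun D => 4 ^ R < e.rs D).card : ℝ) ≤
      C ^ (R + 1) / 2 ^ ((R + 1) * R) * ((Sq X).card : ℝ) := by
  -- the constants
  have h1 : ∀ κ : e.KK, ∃ C : ℝ, 0 < C ∧ ∀ R : ℕ,
      |1 - ∑ r ∈ range (R + 1), lam (e.cκ κ).t r| < C ^ (R + 1) / 2 ^ ((R + 1) * R) ∧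
      |1 - ∑ r ∈ range (R + 1), lam (e.cδ κ).t r| < C ^ (R + 1) / 2 ^ ((R + 1) * R) := by
    intro κ
    obtain ⟨C₁, hC₁, hT₁⟩ := lam_tail (e.cκ κ).t_pos.le
    obtain ⟨C₂, hC₂, hT₂⟩ := lam_tail (e.cδ κ).t_pos.le
    have ht₁ := (e.cκ κ).t_pos
    have ht₂ := (e.cδ κ).t_pos
    refine ⟨(C₁ + 1) * (e.cκ κ).t + (C₂ + 1) * (e.cδ κ).t, by positivity, fun R => ?_⟩
    have key : ∀ c t s : ℝ, 0 < c → 0 < t → 0 < s → c * t ^ (R + 1) < ((c + 1) * t + s) ^ (R + 1) := by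
      intro c t s hc ht hs
      have k1 : (c + 1) * t < (c + 1) * t + s := by linarith
      have k2 : ((c + 1) * t) ^ (R + 1) < ((c + 1) * t + s) ^ (R + 1) :=
        pow_lt_pow_left₀ k1 (by positivity) (Nat.succ_ne_zero R)
      have k3 : c * t ^ (R + 1) ≤ ((c + 1) * t) ^ (R + 1) := by
        rw [mul_pow]
        refine mul_le_mul_of_nonneg_right ?_ (by positivity)
        have : (1 : ℝ) ≤ c + 1 := by linarith
        calc c ≤ c + 1 := by linarith
          _ = (c + 1) ^ 1 := (pow_one _).symm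
          _ ≤ (c + 1) ^ (R + 1) := pow_le_pow_right₀ this (by omega)
      exact k3.trans_lt k2
    constructor
    · refine (hT₁ R).trans_lt (div_lt_div_of_pos_right ?_ (by positivity))
      exact key _ _ _ hC₁ ht₁ (by positivity)
    · refine (hT₂ R).trans_lt (div_lt_div_of_pos_right ?_ (by positivity))
      have := key _ _ ((C₁ + 1) * (e.cκ κ).t) hC₂ ht₂ (by positivity)
      rw [add_comm ((C₂ + 1) * (e.cδ κ).t)] at this
      exact this
  choose c hc hT using h1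
  have hne : Nonempty e.KK := ⟨0⟩
  set C₀ : ℝ := ∑ κ, c κ with hC₀
  have hC₀p : 0 < C₀ := sum_pos (fun κ _ => hc κ) univ_nonempty
  have hle : ∀ κ, c κ ≤ C₀ := fun κ => single_le_sum (fun κ _ => (hc κ).le) (mem_univ κ)
  refine ⟨2 * C₀, by positivity, fun R => ?_⟩
  have hcls : ∀ X, (Sq X).card = ∑ κ : e.KK,
      ((Sq X).filter fun D => Same e.a e.b (e.rep κ) D).card := by
    intro X
    refine Eq.trans ?_ ((e.sum_cls X fun _ => True).trans ?_)
    · exact (congrArg Finset.card (filt_true _ fun _ => trivial)).symm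
    exact sum_congr rfl fun κ _ => cardS (fun D => ⟨fun h => h.1, fun h => ⟨h, trivial⟩⟩) _
  have h3 : ∀ (c' : e.KK → Cu) (n : ℤ → ℕ) (_ : ∀ (κ : e.KK) (r : ℕ),
      Tendsto (fun X : ℕ => (((Sq X).filter fun D => Same e.a e.b (e.rep κ) D ∧
        n D = 2 ^ (r + 1)).card : ℝ) /
      (((Sq X).filter fun D => Same e.a e.b (e.rep κ) D).card : ℝ)) atTop
      (𝓝 (lam (c' κ).t r))) (_ : ∀ κ, |1 - ∑ r ∈ range (R + 1), lam (c' κ).t r| <
        c κ ^ (R + 1) / 2 ^ ((R + 1) * R)), ∀ᶠ X : ℕ in atTop,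
      (((Sq X).filter (BigN n R)).card : ℝ) ≤
        C₀ ^ (R + 1) / 2 ^ ((R + 1) * R) * ((Sq X).card : ℝ) := by
    intro c' n hlaw htl
    refine tail_all Sq (fun κ D => Same e.a e.b (e.rep κ) D) (BigN n R) hcls
      (fun X => e.sum_cls X (BigN n R)) fun κ => ?_
    refine tail_lim (hlaw κ) R ((htl κ).trans_le ?_)
    exact div_le_div_of_nonneg_right (pow_le_pow_left₀ (hc κ).le (hle κ) _) (by positivity)
  filter_upwards [h3 e.cκ e.nS e.lawκ fun κ => (hT κ R).1, h3 e.cδ e.nS' e.lawκ' fun κ => (hT κ R).2]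
    with X hX hX'
  have h4 : (Sq X).filter (fun D => 4 ^ R < e.rs D) ⊆
      ((Sq X).filter (BigN e.nS R)) ∪ ((Sq X).filter (BigN e.nS' R)) := by
    intro D hD
    rw [mem_filter] at hD
    rw [mem_union, mem_filter, mem_filter]
    by_contra hcon
    have hsq := (mem_Sq.1 hD.1).2
    have h5 : (∃ r ≤ R, e.nS D = 2 ^ (r + 1)) ∧ ∃ r ≤ R, e.nS' D = 2 ^ (r + 1) := by
      constructor
      · by_contra h6
        exact hcon (Or.inl ⟨hD.1, fun r hr hn => h6 ⟨r, hr, hn⟩⟩)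
      · by_contra h6
        exact hcon (Or.inr ⟨hD.1, fun r hr hn => h6 ⟨r, hr, hn⟩⟩)
    obtain ⟨⟨r, hr, h6⟩, r', hr', h7⟩ := h5
    have h8 := (e.rs_le hsq).2
    rw [h6, h7] at h8
    have h9 : 2 ^ (r + 1) * 2 ^ (r' + 1) ≤ 4 * 4 ^ R := by
      have e1 : 4 * 4 ^ R = 2 ^ (R + 1) * 2 ^ (R + 1) := by
        have : (4 : ℕ) = 2 * 2 := rfl
        rw [this, mul_pow, pow_succ]
        ring
      rw [e1]
      exact Nat.mul_le_mul (Nat.pow_le_pow_right (by norm_num) (by omega))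
        (Nat.pow_le_pow_right (by norm_num) (by omega))
    have := hD.2
    omega
  have h5 : (((Sq X).filter fun D => 4 ^ R < e.rs D).card : ℝ) ≤
      (((Sq X).filter (BigN e.nS R)).card : ℝ) + (((Sq X).filter (BigN e.nS' R)).card : ℝ) := by
    exact_mod_cast (card_le_card h4).trans (card_union_le _ _)
  have h6 : 2 * (C₀ ^ (R + 1) / 2 ^ ((R + 1) * R)) ≤ (2 * C₀) ^ (R + 1) / 2 ^ ((R + 1) * R) := by
    rw [mul_pow, mul_div_assoc]
    refine mul_le_mul_of_nonneg_right ?_ (by positivity)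
    calc (2 : ℝ) = 2 ^ 1 := (pow_one _).symm
      _ ≤ 2 ^ (R + 1) := pow_le_pow_right₀ (by norm_num) (by omega)
  have h7 := mul_le_mul_of_nonneg_right h6 (Nat.cast_nonneg (α := ℝ) (Sq X).card)
  linarith

end Cd

end Q44.BN
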