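import Pool.Agent.Q44.BN.Zero
import Pool.Agent.Q44.BN.Rk
import Pool.Agent.Q44.TK.Low3

/-!
# The balanced local classes: rank zero and trivial two-primary part
-/

set_option autoImplicit false

open scoped Classical

namespace Q44.BN

open Finset Module Filter Topology
open Pool.Agent.Y703.CQ (nr)
open Q44.BC (lm lam)
open Q44.TK (Fm hF hF_pos hF_mul hF_sum hF_eq hF_one Fm_two fin_Fm sha_ge)
open Q44.BM (vm Fam RC Sys SS Ok HM GT Rch mem_SS t_DQ t_BX pos_prop law_pos hm_cls BX NdC)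
open Q44.TI (pd SelS cop_mod cardf ratio sha_bound)
open Pool.Agent.W262.SH (Sha)
open Pool.Agent.TH841.SH Pool.Agent.Y668

/-- intersection with a property of density one -/
theorem squeeze {α : Type} (S : ℕ → Finset α) {G P F A : α → Prop} {iG : DecidablePred G}
    {iP : DecidablePred P} {iF : DecidablePred F} {iA : DecidablePred A} {c : ℝ}
    (hP : ∀ D, P D → G D) (hF : ∀ D, F D → G D) (hA : ∀ D, P D → F D → A D) (hA' : ∀ D, A D → P D)
    (h1 : Tendsto (fun X : ℕ => (((S X).filter P).card : ℝ) / (((S X).filter G).card : ℝ)) atTop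
      (𝓝 c))
    (h2 : Tendsto (fun X : ℕ => (((S X).filter F).card : ℝ) / (((S X).filter G).card : ℝ)) atTop
      (𝓝 1)) :
    Tendsto (fun X : ℕ => (((S X).filter A).card : ℝ) / (((S X).filter G).card : ℝ)) atTop
      (𝓝 c) := by
  have h3 : Tendsto (fun X : ℕ => (((S X).filter P).card : ℝ) /
      (((S X).filter G).card : ℝ) + (((S X).filter F).card : ℝ) /
      (((S X).filter G).card : ℝ) - 1) atTop (𝓝 c) := by
    have := (h1.add h2).sub_const 1
    simpa using this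
  refine tendsto_of_tendsto_of_tendsto_of_le_of_le h3 h1 (fun X => ?_) fun X => ?_
  · show (((S X).filter P).card : ℝ) / (((S X).filter G).card : ℝ) +
      (((S X).filter F).card : ℝ) / (((S X).filter G).card : ℝ) - 1 ≤
      (((S X).filter A).card : ℝ) / (((S X).filter G).card : ℝ)
    by_cases h0 : (((S X).filter G).card : ℝ) = 0
    · rw [h0]
      simp
    · have hp : (0 : ℝ) < (((S X).filter G).card : ℝ) :=
        lt_of_le_of_ne (Nat.cast_nonneg _) (Ne.symm h0)
      rw [← add_div, sub_le_iff_le_add, div_add_one h0]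
      refine div_le_div_of_nonneg_right ?_ hp.le
      have h4 : ((S X).filter P).card + ((S X).filter F).card ≤
          ((S X).filter A).card + ((S X).filter G).card := by
        rw [← card_union_add_card_inter, add_comm]
        refine Nat.add_le_add (card_le_card fun D hD => ?_) (card_le_card fun D hD => ?_)
        · rw [mem_inter, mem_filter, mem_filter] at hD
          exact mem_filter.2 ⟨hD.1.1, hA D hD.1.2 hD.2.2⟩
        · rw [mem_union, mem_filter, mem_filter] at hD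
          rcases hD with h | h
          · exact mem_filter.2 ⟨h.1, hP D h.2⟩
          · exact mem_filter.2 ⟨h.1, hF D h.2⟩
      have h5 : ((((S X).filter P).card + ((S X).filter F).card : ℕ) : ℝ) ≤
          ((((S X).filter A).card + ((S X).filter G).card : ℕ) : ℝ) := Nat.cast_le.2 h4
      rw [Nat.cast_add, Nat.cast_add] at h5
      exact h5
  · show (((S X).filter A).card : ℝ) / (((S X).filter G).card : ℝ) ≤
      (((S X).filter P).card : ℝ) / (((S X).filter G).card : ℝ)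
    refine div_le_div_of_nonneg_right ?_ (Nat.cast_nonneg _)
    refine Nat.cast_le.2 (card_le_card fun D hD => ?_)
    rw [mem_filter] at hD ⊢
    exact ⟨hD.1, hA' D hD.2⟩

/-- between two sets with the same proportion -/
theorem between {α : Type} (S : ℕ → Finset α) {G P Q R : α → Prop} {iG : DecidablePred G}
    {iP : DecidablePred P} {iQ : DecidablePred Q} {iR : DecidablePred R} {c : ℝ}
    (h1 : Tendsto (fun X : ℕ => (((S X).filter P).card : ℝ) / (((S X).filter G).card : ℝ)) atTop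
      (𝓝 c))
    (h2 : Tendsto (fun X : ℕ => (((S X).filter R).card : ℝ) / (((S X).filter G).card : ℝ)) atTop
      (𝓝 c))
    (hPQ : ∀ X, ∀ D ∈ S X, P D → Q D) (hQR : ∀ X, ∀ D ∈ S X, Q D → R D) :
    Tendsto (fun X : ℕ => (((S X).filter Q).card : ℝ) / (((S X).filter G).card : ℝ)) atTop
      (𝓝 c) := by
  refine tendsto_of_tendsto_of_tendsto_of_le_of_le h1 h2 (fun X => ?_) fun X => ?_
  · refine div_le_div_of_nonneg_right ?_ (Nat.cast_nonneg _)
    refine Nat.cast_le.2 (card_le_card fun D hD => ?_)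
    rw [mem_filter] at hD ⊢
    exact ⟨hD.1, hPQ X D hD.1 hD.2⟩
  · refine div_le_div_of_nonneg_right ?_ (Nat.cast_nonneg _)
    refine Nat.cast_le.2 (card_le_card fun D hD => ?_)
    rw [mem_filter] at hD ⊢
    exact ⟨hD.1, hQR X D hD.1 hD.2⟩

namespace Cu

variable (c : Cu)

theorem hm_i (i : c.I) : HM (c.cl i) := by
  have h1 := hm_cls (Nat.pos_of_ne_zero c.hm.nz) {(i : ℕ)} (fun a ha => by
    rw [mem_singleton.1 ha]
    exact ⟨mem_range.1 (mem_filter.1 i.2).1, (mem_filter.1 i.2).2⟩) (singleton_nonempty _)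
  obtain ⟨θ, C, hθ, h2⟩ := h1
  refine ⟨θ, C, hθ, fun y hy => (h2 y hy).trans (le_of_eq ?_)⟩
  refine sum_congr ?_ fun _ _ => rfl
  ext p
  simp only [mem_filter, mem_singleton]
  unfold cl
  tauto

/-- the full sets have density one -/
theorem full_one :
    Tendsto (fun X : ℕ => (((SS c.rc.Φ X).filter fun S => GT (hF c.m) (hF c.m c.d) S ∧
        c.Full S).card : ℝ) /
      (((SS c.rc.Φ X).filter (GT (hF c.m) (hF c.m c.d))).card : ℝ)) atTop (𝓝 1) := by
  have hnz : NeZero c.m := ⟨c.hm.nz⟩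
  refine law_pos c.rc.ok (pos_prop Fm_two c.rc.ok (hF c.m) c.reach) ?_
  refine t_DQ c.rc.ok c.cl (fun i p h => (c.P_iff p).2 ⟨h.1, cl_cop h⟩) c.hm_i _ _ _ 1 fun ε hε =>
    ⟨1, ?_⟩
  intro ι _ _ J1 C X κ S₀ hκ h1 h2 h3 h4 h5
  have key : (Fintype.piFinset C).filter (fun p => (NdC c.rc.Φ c.cl 1 S₀ (univ.image p) ∧
      GT (hF c.m) (hF c.m c.d) (S₀ ∪ univ.image p)) ∧ c.Full (S₀ ∪ univ.image p)) =
      (Fintype.piFinset C).filter (fun p => NdC c.rc.Φ c.cl 1 S₀ (univ.image p) ∧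
      GT (hF c.m) (hF c.m c.d) (S₀ ∪ univ.image p)) := by
    refine filter_congr fun p _ => ?_
    constructor
    · intro h
      exact h.1
    · intro h
      refine ⟨h, fun i => ?_⟩
      have h6 := h.1.2 i
      have h7 : 0 < ((univ.image p).filter fun q => c.cl i q).card := by omega
      obtain ⟨q, hq⟩ := card_pos.1 h7
      obtain ⟨h8, h9⟩ := mem_filter.1 hq
      exact ⟨q, mem_union_right _ h8, h9⟩
  rw [key, one_mul, sub_self, abs_zero]
  have : (0 : ℝ) ≤ ∏ j, (X j : ℝ) := prod_nonneg fun _ _ => Nat.cast_nonneg _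
  positivity

/-- the smallest Selmer group together with the full sets -/
theorem law_full (r : ℕ) :
    Tendsto (fun X : ℕ => (((SS c.rc.Φ X).filter fun S => GT (hF c.m) (hF c.m c.d) S ∧
        c.Dr r S ∧ c.Full S).card : ℝ) /
      (((SS c.rc.Φ X).filter (GT (hF c.m) (hF c.m c.d))).card : ℝ)) atTop (𝓝 (lam c.t r)) :=
  squeeze (SS c.rc.Φ) (fun _ h => h.1) (fun _ h => h.1) (fun _ h h' => ⟨h.1, h.2, h'.2⟩)
    (fun _ h => ⟨h.1, h.2.1⟩) (c.law0 r) c.full_one

/-- the order of the dual Selmer group -/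
noncomputable def nD (D : ℕ) : ℕ :=
  (SelS (-2 * (c.A * D)) ((c.A * D) ^ 2 - 4 * (c.B * (D : ℤ) ^ 2))).ncard

/-- the order of the Selmer group -/
noncomputable def nD0 (D : ℕ) : ℕ := (SelS (c.A * D) (c.B * (D : ℤ) ^ 2)).ncard

/-- both Selmer groups are as small as possible -/
def Sm (D : ℕ) : Prop := c.nD0 D = 2 ∧ c.nD D ≤ 2

/-- the sufficient condition -/
def Sf (D : ℕ) : Prop := c.Dr 0 D.primeFactors ∧ c.Full D.primeFactors

theorem Sf_Sm (ht : c.t = 1) {D : ℕ} (hG : c.Dm D) (hP : c.Sf D) : c.Sm D := by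
  obtain ⟨⟨k1, k2⟩, k3⟩ := (c.Dm_iff D).1 hG
  have k4 := (c.GT_iff k2).1 k3
  have e : pd D.primeFactors = (D : ℤ) := by
    unfold pd
    rw [Nat.prod_primeFactors_of_squarefree k1]
  have k5 := (c.ncard_SelS k2 k4).2
  have k6 := c.dual_small k2 k4 hP.2 ht hP.1
  have k7 : finrank (ZMod 2) ((c.sy c.L0).Sel D.primeFactors) = 0 := hP.1
  rw [e, k7] at k5
  refine ⟨k5, ?_⟩
  unfold DS at k6
  rw [e] at k6
  refine (Set.ncard_le_ncard k6 (Set.toFinite _)).trans ((Set.ncard_insert_le _ _).trans ?_)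
  rw [Set.ncard_singleton]

/-- the law of the sufficient condition -/
theorem law_Sf :
    Tendsto (fun X : ℕ => (((Icc 1 X).filter fun D : ℕ => c.Dm D ∧ c.Sf D).card : ℝ) /
      (((Icc 1 X).filter fun D : ℕ => c.Dm D).card : ℝ)) atTop (𝓝 (lam c.t 0)) := by
  refine (c.law_full 0).congr fun X => ?_
  rw [← card_nat c.rc.Φ X (fun S => GT (hF c.m) (hF c.m c.d) S ∧ c.Dr 0 S ∧ c.Full S),
    ← card_nat c.rc.Φ X (GT (hF c.m) (hF c.m c.d))]
  refine ratio (fun D => ?_) (fun D => ?_) _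
  · rw [c.Dm_iff, and_assoc (b := GT (hF c.m) (hF c.m c.d) D.primeFactors)]
    rfl
  · exact (c.Dm_iff D).symm

/-- **both Selmer groups are as small as possible** -/
theorem law_small (ht : c.t = 1) :
    Tendsto (fun X : ℕ => (((Icc 1 X).filter fun D : ℕ => c.Dm D ∧ c.Sm D).card : ℝ) /
      (((Icc 1 X).filter fun D : ℕ => c.Dm D).card : ℝ)) atTop (𝓝 (lam 1 0)) := by
  have h1 := c.law 0
  have h2 := c.law_Sf
  rw [ht] at h1 h2
  refine between (fun X => Icc 1 X) h2 h1 (fun X D _ h => ⟨h.1, c.Sf_Sm ht h.1 h.2⟩)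
    fun X D _ h => ⟨h.1, ?_⟩
  exact h.2.1

end Cu

namespace Cd

variable (e : Cd)

/-- both Selmer groups are as small as possible -/
def SmD (D : ℤ) : Prop := e.nS D = 2 ∧ e.nS' D ≤ 2

theorem law_sm (g : GG e.m.primeFactors) {d₀ : ℕ} (hd₀ : d₀.Coprime e.m) (hs₀ : Squarefree d₀)
    (ht : (e.cu g hd₀).t = 1) :
    Tendsto (fun X : ℕ => (((Sq X).filter fun D => Same e.a e.b (UU g * d₀) D ∧ e.SmD D).card : ℝ) /
      (((Sq X).filter fun D => Same e.a e.b (UU g * d₀) D).card : ℝ)) atTop (𝓝 (lam 1 0)) := by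
  refine (((e.cu g hd₀).law_small ht).comp (e.tend_div g)).congr fun X => ?_
  refine congrArg₂ (fun x y : ℕ => (x : ℝ) / (y : ℝ)) ?_ ?_
  · refine (e.card_cls g hd₀ hs₀ X _ _ fun d => ?_).symm
    have e1 : (e.cu g hd₀).A * (d : ℤ) = e.a * (UU g * d) := by
      show e.a * UU g * d = _
      ring
    have e2 : (e.cu g hd₀).B * (d : ℤ) ^ 2 = e.b * (UU g * d) ^ 2 := by
      show e.b * UU g ^ 2 * d ^ 2 = _
      ring
    unfold Cu.Sm SmD Cu.nD0 Cu.nD nS nS'
    rw [e1, e2]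
  · exact (e.card_cls' g hd₀ hs₀ X).symm

theorem rs_pos {D : ℤ} (hD : Squarefree D) : 0 < e.rs D := by
  have hf := (e.rs_le hD).1
  have h1 : 0 < Nat.card {x : Sha (e.Ed D) // x + x = 0} := by
    have : Nonempty {x : Sha (e.Ed D) // x + x = 0} := ⟨⟨0, add_zero 0⟩⟩
    exact Nat.card_pos
  unfold rs
  positivity

theorem nS'_le {D : ℤ} (hD : Squarefree D) : e.nS' D ≤ 2 * e.rs D := by
  obtain ⟨f1, f2, -, -⟩ := e.pow_nS hD
  obtain ⟨n1, n2⟩ := e.nsq hD.ne_zero
  exact Q44.TK.sha_ge n1 n2 f1 f2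

/-- rank `0` and trivial `2`-torsion of the Tate-Shafarevich group -/
def Rs1 (D : ℤ) : Prop := e.rs D = 1

/-- **the balanced classes** -/
theorem law_rs (g : GG e.m.primeFactors) {d₀ : ℕ} (hd₀ : d₀.Coprime e.m) (hs₀ : Squarefree d₀)
    (ht : (e.cu g hd₀).t = 1) (ht' : (e.cud g hd₀).t = 1) :
    Tendsto (fun X : ℕ => (((Sq X).filter fun D => Same e.a e.b (UU g * d₀) D ∧ e.Rs1 D).card : ℝ) /
      (((Sq X).filter fun D => Same e.a e.b (UU g * d₀) D).card : ℝ)) atTop (𝓝 (lam 1 0)) := by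
  have h1 := e.law_sm g hd₀ hs₀ ht
  have h2 := e.law_dual g hd₀ hs₀ 0
  rw [ht'] at h2
  refine between Sq h1 h2 (fun X D hD h => ⟨h.1, ?_⟩) fun X D hD h => ⟨h.1, ?_⟩
  · have hsq := (mem_Sq.1 hD).2
    have k1 := e.rs_pos hsq
    have k2 := (e.rs_le hsq).2
    have k3 := h.2.1
    have k4 := h.2.2
    rw [k3] at k2
    show e.rs D = 1
    omega
  · have hsq := (mem_Sq.1 hD).2
    have k1 := e.nS'_le hsq
    have k2 : e.rs D = 1 := h.2
    obtain ⟨r, hr⟩ := (e.pow_nS hsq).2.2.2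
    rw [k2, hr] at k1
    have k3 : r = 0 := by
      by_contra h0
      have : 2 ^ 2 ≤ 2 ^ (r + 1) := Nat.pow_le_pow_right (by norm_num) (by omega)
      omega
    rw [k3] at hr
    exact hr

end Cd

end Q44.BN
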