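import Pool.Agent.Q44.BN.Bal
import Pool.Agent.Q44.BN.Tam2

/-!
# The laws for the local class of an arbitrary twist
-/

set_option autoImplicit false

open scoped Classical

namespace Q44.BN

open Finset Module Filter Topology
open Q44.BC (lm lam)
open Q44.TK (Fm hF hF_pos hF_mul hF_sum hF_eq hF_one Fm_two fin_Fm)
open Q44.BM (vm Fam RC Sys SS Ok)
open Q44.TI (pd SelS cop_mod cardf ratio sha_bound)
open Pool.Agent.W262.SH (Sha)
open Pool.Agent.TH841.SH Pool.Agent.Y668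

/-- the number of the classes of the points over `ℚ_p` -/
noncomputable def imc (A B : ℤ) (p : ℕ) : ℕ :=
  if h : p.Prime then (haveI : Fact p.Prime := ⟨h⟩; Nat.card (im ℚ_[p] A B)) else 1

/-- the constant -/
noncomputable def tm (S : Finset ℕ) (A B : ℤ) : ℝ :=
  (((∏ p ∈ S, imc A B p) * Nat.card (im ℝ A B) : ℕ) : ℝ) / 2 ^ (S.card + 1)

theorem imc_pos {A B : ℤ} {p : ℕ} [hp : Fact p.Prime] : imc A B p = Nat.card (im ℚ_[p] A B) := by
  unfold imc
  rw [dif_pos hp.out]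

section facts

attribute [local instance] Cu.fT

theorem Cu.t_tm (c : Cu) : c.t = tm c.T (c.A * c.d) (c.B * (c.d : ℤ) ^ 2) := by
  rw [c.t_eq]
  unfold tm
  have h1 : ∏ p ∈ c.T, imc (c.A * c.d) (c.B * (c.d : ℤ) ^ 2) p =
      ∏ p : c.T, Nat.card (im ℚ_[(p : ℕ)] (c.A * c.d) (c.B * (c.d : ℤ) ^ 2)) := by
    rw [← prod_coe_sort]
    exact prod_congr rfl fun p _ => imc_pos
  rw [h1]

end facts

namespace Cd

variable (e : Cd)

/-- the bad primes -/
noncomputable def bad : Finset ℕ := (N2 e.a e.b).natAbs.primeFactors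

theorem bad_eq : e.m.primeFactors = e.bad := by
  ext p
  unfold bad
  by_cases hp : p.Prime
  · rw [e.mem_T hp, Nat.mem_primeFactors]
    constructor
    · intro h
      exact ⟨hp, Int.natCast_dvd.1 h, Int.natAbs_ne_zero.2 e.N0⟩
    · intro h
      exact Int.natCast_dvd.2 h.2.1
  · constructor
    · intro h
      exact absurd (Nat.prime_of_mem_primeFactors h) hp
    · intro h
      exact absurd (Nat.prime_of_mem_primeFactors h) hp

/-- the constants of the class of `D` -/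
noncomputable def tau (D : ℤ) : ℝ := tm e.bad (e.a * D) (e.b * D ^ 2)
noncomputable def tau' (D : ℤ) : ℝ :=
  tm e.bad (-2 * (e.a * D)) ((e.a * D) ^ 2 - 4 * (e.b * D ^ 2))

theorem t_cu (g : GG e.m.primeFactors) {d : ℕ} (hd : d.Coprime e.m) :
    (e.cu g hd).t = e.tau (UU g * d) := by
  rw [Cu.t_tm]
  have e1 : (e.cu g hd).A * (d : ℤ) = e.a * (UU g * d) := by
    show e.a * UU g * d = _
    ring
  have e2 : (e.cu g hd).B * (d : ℤ) ^ 2 = e.b * (UU g * d) ^ 2 := by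
    show e.b * UU g ^ 2 * d ^ 2 = _
    ring
  have e3 : (e.cu g hd).T = e.bad := e.bad_eq
  have e4 : (e.cu g hd).d = d := rfl
  rw [e3, e4, e1, e2]
  rfl

theorem t_cud (g : GG e.m.primeFactors) {d : ℕ} (hd : d.Coprime e.m) :
    (e.cud g hd).t = e.tau' (UU g * d) := by
  rw [Cu.t_tm]
  have e1 : (e.cud g hd).A * (d : ℤ) = -2 * (e.a * (UU g * d)) := by
    show -2 * (e.a * UU g) * d = _
    ring
  have e2 : (e.cud g hd).B * (d : ℤ) ^ 2 =
      (e.a * (UU g * d)) ^ 2 - 4 * (e.b * (UU g * d) ^ 2) := by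
    show ((e.a * UU g) ^ 2 - 4 * (e.b * UU g ^ 2)) * d ^ 2 = _
    ring
  have e3 : (e.cud g hd).T = e.bad := e.bad_eq
  have e4 : (e.cud g hd).d = d := rfl
  rw [e3, e4, e1, e2]
  rfl

/-- the proportion in the class of `D₀` -/
def Prp (D₀ : ℤ) (P : ℤ → Prop) (c : ℝ) : Prop :=
  Tendsto (fun X : ℕ => (((Sq X).filter fun D => Same e.a e.b D₀ D ∧ P D).card : ℝ) /
      (((Sq X).filter fun D => Same e.a e.b D₀ D).card : ℝ)) atTop (𝓝 c)

theorem prp_mk {D₀ : ℤ} {P : ℤ → Prop} {c : ℝ}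
    {i1 : DecidablePred fun D => Same e.a e.b D₀ D ∧ P D}
    {i2 : DecidablePred fun D => Same e.a e.b D₀ D}
    (h : Tendsto (fun X : ℕ => ((@Finset.filter ℤ (fun D => Same e.a e.b D₀ D ∧ P D) i1
      (Sq X)).card : ℝ) / ((@Finset.filter ℤ (fun D => Same e.a e.b D₀ D) i2 (Sq X)).card : ℝ))
      atTop (𝓝 c)) : e.Prp D₀ P c := by
  refine h.congr fun X => ?_
  refine congrArg₂ (fun x y : ℕ => (x : ℝ) / (y : ℝ)) ?_ ?_
  · exact cardS (fun D => Iff.rfl) _
  · exact cardS (fun D => Iff.rfl) _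

/-- **all the facts on a local class** -/
theorem facts {D₀ : ℤ} (h : Squarefree D₀) :
    (0 < e.tau D₀ ∧ 0 < e.tau' D₀) ∧
    (∀ r, e.Prp D₀ (fun D => e.nS D = 2 ^ (r + 1)) (lam (e.tau D₀) r)) ∧
    (∀ r, e.Prp D₀ (fun D => e.nS' D = 2 ^ (r + 1)) (lam (e.tau' D₀) r)) ∧
    (e.tau D₀ = 1 → e.tau' D₀ = 1 → e.Prp D₀ (fun D => e.rs D = 1) (lam 1 0)) := by
  obtain ⟨g, d, h1, h2, rfl⟩ := e.dec h
  rw [← e.t_cu g h2, ← e.t_cud g h2]
  exact ⟨⟨(e.cu g h2).t_pos, (e.cud g h2).t_pos⟩, fun r => e.prp_mk (e.law g h2 h1 r),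
    fun r => e.prp_mk (e.law_dual g h2 h1 r), fun k1 k2 => e.prp_mk (e.law_rs g h2 h1 k1 k2)⟩

/-- all the primes outside the bad ones belong to the family -/
theorem del_one (c : Cu) : c.rc.δ = 1 := by
  unfold RC.δ
  have h1 : c.rc.𝒜 ∪ c.rc.ℬ = (range c.m).filter fun r => r.Coprime c.m := by
    ext r
    show r ∈ ((range c.m).filter fun r => r.Coprime c.m ∧ jv c.B r = 0) ∪
      ((range c.m).filter fun r => r.Coprime c.m ∧ jv c.B r ≠ 0) ↔ _
    rw [mem_union, mem_filter, mem_filter, mem_filter]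
    by_cases h : jv c.B r = 0
    · simp [h]
    · simp [h]
  have h2 : c.rc.m = c.m := rfl
  have h3 : ((range c.m).filter fun r => r.Coprime c.m).card = c.m.totient := by
    rw [Nat.totient_eq_card_coprime]
    congr 1
    ext r
    rw [mem_filter, mem_filter, Nat.coprime_comm]
  rw [h1, h2, h3]
  have h4 : (0 : ℝ) < c.m.totient := by
    exact_mod_cast Nat.totient_pos.2 (Nat.pos_of_ne_zero c.hm.nz)
  exact div_self h4.ne'

/-- the local classes have positive density -/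
theorem density {D₀ : ℤ} (h : Squarefree D₀) : ∃ (η : ℝ) (X₀ : ℕ), 0 < η ∧ ∀ X : ℕ, X₀ ≤ X →
    η * (X : ℝ) ≤ (((Sq X).filter fun D => Same e.a e.b D₀ D).card : ℝ) := by
  obtain ⟨g, d, h1, h2, rfl⟩ := e.dec h
  obtain ⟨η, X₀, hη, hX₀⟩ := (e.cu g h2).pos_cls
  obtain ⟨c, X₁, hc, hX₁⟩ := (e.cu g h2).rc.ok.low
  set n := (UU g).natAbs with hn
  have hn0 : 0 < n := Int.natAbs_pos.2 (UU_ne e.hT g)
  have hn0' : (0 : ℝ) < n := by exact_mod_cast hn0
  refine ⟨η * c / (2 * n), n * (X₀ + X₁ + 1), by positivity, fun X hX => ?_⟩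
  have hY : X₀ + X₁ + 1 ≤ X / n := (Nat.le_div_iff_mul_le hn0).2 (by rw [mul_comm]; exact hX)
  have k1 := hX₀ (X / n) (by omega)
  have k2 := hX₁ (X / n) (by omega)
  rw [del_one, neg_add_cancel, Real.rpow_zero, mul_one] at k2
  have k3 : ((SS (e.cu g h2).rc.Φ (X / n)).card : ℝ) =
      (((Icc 1 (X / n)).filter fun D : ℕ => Squarefree D ∧ D.Coprime (e.cu g h2).m).card : ℝ) := by
    have h2' := card_nat (e.cu g h2).rc.Φ (X / n) (fun _ => True) (iQ := fun _ => instDecidableTrue)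
    rw [filter_true] at h2'
    rw [← h2']
    congr 1
    refine cardf (fun D => ?_) _
    constructor
    · rintro ⟨⟨h3, h4⟩, -⟩
      refine ⟨h3, ?_⟩
      rw [← Nat.prod_primeFactors_of_squarefree h3]
      exact (e.cu g h2).prod_cop fun p hp => (((e.cu g h2).P_iff p).1 (h4 p hp)).2
    · rintro ⟨h3, h4⟩
      exact ⟨⟨h3, fun p hp => ((e.cu g h2).P_iff p).2 ⟨Nat.prime_of_mem_primeFactors hp,
        Nat.Coprime.coprime_dvd_left (Nat.dvd_of_mem_primeFactors hp) h4⟩⟩, trivial⟩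
  rw [k3] at k2
  rw [e.card_cls' g h2 h1 X]
  refine le_trans ?_ k1
  have k4 : (X : ℝ) / (2 * n) ≤ ((X / n : ℕ) : ℝ) := by
    have k5 : X < n * (X / n + 1) := Nat.lt_mul_div_succ X hn0
    have k6 : X ≤ 2 * n * (X / n) := by nlinarith
    rw [div_le_iff₀ (by positivity)]
    have k7 : (X : ℝ) ≤ ((2 * n * (X / n) : ℕ) : ℝ) := by exact_mod_cast k6
    push_cast at k7 ⊢
    linarith
  calc η * c / (2 * n) * (X : ℝ) = η * (c * ((X : ℝ) / (2 * n))) := by ring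
    _ ≤ η * (c * ((X / n : ℕ) : ℝ)) := by gcongr
    _ ≤ _ := mul_le_mul_of_nonneg_left k2 hη.le

end Cd

end Q44.BN
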