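import Pool.Agent.Q44.TI.Sel2

/-!
# Active primes: `b` and `a² - 4 b` are squares modulo `p`
-/

set_option autoImplicit false

open scoped Classical

namespace Q44.BN

open Finset
open Pool.Agent.Y700 (PC)
open Pool.Agent.Y814.BSD14 Pool.Agent.Y809.BSD14
open Pool.Agent.Y703.CQ (nr)
open Q44.TI

/-- the active primes -/
structure Ac (A B : ℤ) (p : ℕ) : Prop where
  pr : p.Prime
  nd : ¬ (p : ℤ) ∣ 2 * (B * (A ^ 2 - 4 * B))
  sqB : IsSquare ((B : ℤ) : ZMod p)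
  sqC : IsSquare ((A ^ 2 - 4 * B : ℤ) : ZMod p)

/-- the passive primes -/
structure Pa (A B : ℤ) (p : ℕ) : Prop where
  pr : p.Prime
  nd : ¬ (p : ℤ) ∣ 2 * (B * (A ^ 2 - 4 * B))
  nsB : ¬ IsSquare ((B : ℤ) : ZMod p)
  nsC : ¬ IsSquare ((A ^ 2 - 4 * B : ℤ) : ZMod p)

variable {A B : ℤ} {p : ℕ}

theorem nd_two (hp : p.Prime) (h : ¬ (p : ℤ) ∣ 2 * (B * (A ^ 2 - 4 * B))) : p ≠ 2 := by
  rintro rfl
  exact h (Dvd.intro _ rfl)

theorem nd_B (h : ¬ (p : ℤ) ∣ 2 * (B * (A ^ 2 - 4 * B))) : ¬ (p : ℤ) ∣ B := fun h' =>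
  h ((h'.mul_right _).mul_left _)

theorem nd_C (h : ¬ (p : ℤ) ∣ 2 * (B * (A ^ 2 - 4 * B))) : ¬ (p : ℤ) ∣ A ^ 2 - 4 * B := fun h' =>
  h ((h'.mul_left _).mul_left _)

theorem Ac.two_ne (h : Ac A B p) : p ≠ 2 := nd_two h.pr h.nd
theorem Pa.two_ne (h : Pa A B p) : p ≠ 2 := nd_two h.pr h.nd
theorem Ac.nB (h : Ac A B p) : ¬ (p : ℤ) ∣ B := nd_B h.nd
theorem Ac.nC (h : Ac A B p) : ¬ (p : ℤ) ∣ A ^ 2 - 4 * B := nd_C h.nd
theorem Ac.B0 (h : Ac A B p) : (B : ZMod p) ≠ 0 := nz_of h.nB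
theorem Ac.C0 (h : Ac A B p) : ((A ^ 2 - 4 * B : ℤ) : ZMod p) ≠ 0 := nz_of h.nC

/-- the primes of good reduction are active or passive if the product is a square -/
theorem ac_or_pa (hs : IsSquare (B * (A ^ 2 - 4 * B))) (hp : p.Prime)
    (hnd : ¬ (p : ℤ) ∣ 2 * (B * (A ^ 2 - 4 * B))) : Ac A B p ∨ Pa A B p := by
  have : Fact p.Prime := ⟨hp⟩
  have hB := nz_of (nd_B hnd)
  have hC := nz_of (nd_C hnd)
  have h1 : IsSquare (((B : ℤ) : ZMod p) * ((A ^ 2 - 4 * B : ℤ) : ZMod p)) := by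
    have := hs.map (Int.castRingHom (ZMod p))
    simpa using this
  rw [← ch_zero, ch_mul hB hC] at h1
  by_cases h : IsSquare ((B : ℤ) : ZMod p)
  · left
    refine ⟨hp, hnd, h, ?_⟩
    rw [← ch_zero] at h ⊢
    rwa [h, zero_add] at h1
  · right
    refine ⟨hp, hnd, h, fun h' => h ?_⟩
    rw [← ch_zero] at h' ⊢
    rwa [h', add_zero] at h1

theorem Ac.not_pa (h : Ac A B p) : ¬ Pa A B p := fun h' => h'.nsB h.sqB

/-- the roots of `x² + A x + B` modulo an active prime are both squares or both not -/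
theorem root_sq (h : Ac A B p) {r : ZMod p}
    (hr : r ^ 2 + (A : ZMod p) * r + (B : ZMod p) = 0) :
    IsSquare r ↔ ∃ y : ZMod p, y ^ 4 + (A : ZMod p) * y ^ 2 + (B : ZMod p) = 0 := by
  have : Fact p.Prime := ⟨h.pr⟩
  constructor
  · rintro ⟨y, hy⟩
    refine ⟨y, ?_⟩
    rw [hy] at hr
    linear_combination hr
  · rintro ⟨y, hy⟩
    have h1 : (y ^ 2 - r) * (y ^ 2 + r + A) = 0 := by linear_combination hy - hr
    rcases mul_eq_zero.1 h1 with h2 | h2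
    · exact ⟨y, by linear_combination -h2⟩
    · -- the product of the two roots is `B`
      obtain ⟨b, hb⟩ := h.sqB
      have hB0 := h.B0
      have e : r * y ^ 2 = B := by linear_combination r * h2 - hr
      have hy0 : y ≠ 0 := by
        rintro rfl
        apply hB0
        rw [← e]
        ring
      refine ⟨b / y, ?_⟩
      rw [div_mul_div_comm, eq_div_iff (mul_ne_zero hy0 hy0), ← hb, ← e]
      ring

theorem fd_root (h : Ac A B p) {r : ZMod p}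
    (hr : r ^ 2 + (A : ZMod p) * r + (B : ZMod p) = 0) : fd A B p = ch r := by
  have h1 := root_sq h hr
  rw [← fd_zero, ← ch_zero] at h1
  have h2 := zmod2 h1
  revert h2
  generalize fd A B p = x
  generalize ch r = y
  revert x y
  decide

/-- there is a root -/
theorem Ac.root (h : Ac A B p) : ∃ r : ZMod p, r ^ 2 + (A : ZMod p) * r + (B : ZMod p) = 0 := by
  have : Fact p.Prime := ⟨h.pr⟩
  obtain ⟨c, hc⟩ := h.sqC
  have h2 : (2 : ZMod p) ≠ 0 := two0 h.pr h.two_ne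
  refine ⟨(c - A) / 2, ?_⟩
  push_cast at hc
  field_simp
  linear_combination -hc

theorem dual_nd (hp : p.Prime) (h : ¬ (p : ℤ) ∣ 2 * (B * (A ^ 2 - 4 * B))) :
    ¬ (p : ℤ) ∣ 2 * ((A ^ 2 - 4 * B) * ((-2 * A) ^ 2 - 4 * (A ^ 2 - 4 * B))) := by
  intro h'
  have hP := Nat.prime_iff_prime_int.1 hp
  have e : 2 * ((A ^ 2 - 4 * B) * ((-2 * A) ^ 2 - 4 * (A ^ 2 - 4 * B))) =
      2 ^ 4 * (2 * (B * (A ^ 2 - 4 * B))) := by ring
  rw [e] at h'
  rcases hP.dvd_or_dvd h' with h1 | h1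
  · exact h ((hP.dvd_of_dvd_pow h1).trans (Dvd.intro _ rfl))
  · exact h h1

/-- the dual curve -/
theorem Ac.dual (h : Ac A B p) : Ac (-2 * A) (A ^ 2 - 4 * B) p := by
  refine ⟨h.pr, dual_nd h.pr h.nd, h.sqC, ?_⟩
  have e : ((-2 * A) ^ 2 - 4 * (A ^ 2 - 4 * B) : ℤ) = 4 ^ 2 * B := by ring
  rw [e, Int.cast_mul, Int.cast_pow]
  exact (IsSquare.sq _).mul h.sqB

theorem Pa.dual (h : Pa A B p) : Pa (-2 * A) (A ^ 2 - 4 * B) p := by
  have : Fact p.Prime := ⟨h.pr⟩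
  refine ⟨h.pr, dual_nd h.pr h.nd, h.nsC, ?_⟩
  have e : ((-2 * A) ^ 2 - 4 * (A ^ 2 - 4 * B) : ℤ) = 4 ^ 2 * B := by ring
  rw [e, ← ch_zero]
  have hB := nz_of (nd_B h.nd)
  have h2 : (2 : ZMod p) ≠ 0 := two0 h.pr h.two_ne
  have h4 : ((4 : ℤ) : ZMod p) ^ 2 ≠ 0 := by
    have e : ((4 : ℤ) : ZMod p) ^ 2 = 2 * 2 * (2 * 2) := by
      push_cast
      ring
    rw [e]
    exact mul_ne_zero (mul_ne_zero h2 h2) (mul_ne_zero h2 h2)
  rw [Int.cast_mul, Int.cast_pow, ch_sq (IsSquare.sq _) h4 hB, ch_zero]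
  exact h.nsB

/-- the class of the roots of the dual polynomial -/
theorem fd_dual (h : Ac A B p) : fd (-2 * A) (A ^ 2 - 4 * B) p = fd A B p + ch (-1 : ZMod p) := by
  have : Fact p.Prime := ⟨h.pr⟩
  obtain ⟨r, hr⟩ := h.root
  obtain ⟨b, hb⟩ := h.sqB
  have hB0 := h.B0
  have hr0 : r ≠ 0 := by
    rintro rfl
    apply hB0
    linear_combination hr
  have h1 : (A - 2 * b : ZMod p) ^ 2 + ((-2 * A : ℤ) : ZMod p) * (A - 2 * b) +
      ((A ^ 2 - 4 * B : ℤ) : ZMod p) = 0 := by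
    push_cast
    linear_combination (-4) * hb
  have h10 : (A - 2 * b : ZMod p) ≠ 0 := by
    intro h0
    apply h.C0
    rw [h0] at h1
    linear_combination h1
  rw [fd_root h hr, fd_root h.dual h1]
  have h2 : IsSquare (-1 * r * (A - 2 * b : ZMod p)) := by
    refine ⟨r + b, ?_⟩
    linear_combination -hr + hb
  rw [← ch_zero, ch_mul (mul_ne_zero (neg_ne_zero.2 one_ne_zero) hr0) h10,
    ch_mul (neg_ne_zero.2 one_ne_zero) hr0] at h2
  revert h2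
  generalize ch (-1 : ZMod p) = x
  generalize ch r = y
  generalize ch (A - 2 * b : ZMod p) = z
  revert x y z
  decide

/-- the active primes which divide `z` -/
theorem Loc_root {D z z' D' : ℤ} (p : ℕ) [hp : Fact p.Prime] (h : Ac A B p)
    (hD : D = p * D') (hz : z = p * z') (hD' : ¬ (p : ℤ) ∣ D')
    (hz' : ¬ (p : ℤ) ∣ z')
    (hs : (∃ y : ZMod p, y ^ 4 + (A : ZMod p) * y ^ 2 + (B : ZMod p) = 0) ↔
      IsSquare ((D' * z' : ℤ) : ZMod p)) :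
    Loc ℚ_[p] (A * D) (B * D ^ 2) z := by
  have h2 := h.two_ne
  -- a square root of the discriminant
  obtain ⟨c, hc⟩ : ∃ c : ℤ_[p], ((A ^ 2 - 4 * B : ℤ) : ℤ_[p]) = c * c := by
    obtain ⟨v, hv⟩ := Pool.Agent.TH841.LS.LOCA0.sq_of_char h2
      (u := ((A ^ 2 - 4 * B : ℤ) : ℤ_[p])) (by
      rw [map_intCast]
      exact (quadraticChar_one_iff_isSquare h.C0).2 h.sqC)
    exact ⟨v, hv⟩
  -- the unit two
  have h2u : ‖((2 : ℤ) : ℤ_[p])‖ = 1 := by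
    refine le_antisymm (PadicInt.norm_le_one _) (not_lt.1 fun h3 => ?_)
    rw [PadicInt.norm_intCast_lt_one_iff] at h3
    have h5 : p ∣ 2 := by exact_mod_cast h3
    exact h2 ((Nat.prime_dvd_prime_iff_eq hp.out Nat.prime_two).1 h5)
  obtain ⟨w, hw⟩ : ∃ w : ℤ_[p], (2 : ℤ_[p]) * w = 1 := by
    have h3 : IsUnit ((2 : ℤ) : ℤ_[p]) := PadicInt.isUnit_iff.2 h2u
    obtain ⟨w, hw⟩ := h3.exists_right_inv
    exact ⟨w, by exact_mod_cast hw⟩
  obtain ⟨ρ, hρ⟩ : ∃ ρ : ℤ_[p], ρ = w * (c - A) := ⟨_, rfl⟩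
  have hroot : ρ ^ 2 + (A : ℤ_[p]) * ρ + (B : ℤ_[p]) = 0 := by
    push_cast at hc
    have e : 4 * (ρ ^ 2 + (A : ℤ_[p]) * ρ + (B : ℤ_[p])) = 0 := by
      rw [hρ]
      linear_combination ((2 * w + 1) * (c - A) ^ 2 + 2 * A * (c - A)) * hw - hc
    have h4 : (4 : ℤ_[p]) ≠ 0 := by norm_num
    exact (mul_eq_zero.1 e).resolve_left h4
  set r : ZMod p := PadicInt.toZMod ρ with hr
  have hrr : r ^ 2 + (A : ZMod p) * r + (B : ZMod p) = 0 := by
    have h3 := congrArg (PadicInt.toZMod (p := p)) hroot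
    simpa using h3
  have hr0 : r ≠ 0 := by
    intro h0
    apply h.B0
    rw [h0] at hrr
    linear_combination hrr
  rw [← root_sq h hrr] at hs
  have hDz := nz_of hD'
  have hzz := nz_of hz'
  have hDz0 : ((D' * z' : ℤ) : ZMod p) ≠ 0 := by
    push_cast
    exact mul_ne_zero hDz hzz
  have hsq : IsSquare (r * ((D' * z' : ℤ) : ZMod p)) := by
    by_cases h3 : IsSquare r
    · exact h3.mul (hs.1 h3)
    · exact sq_mul_of h3 fun h4 => h3 (hs.2 h4)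
  obtain ⟨t, ht⟩ := Pool.Agent.TH841.LS.LOCA0.sq_of_char h2
    (u := ρ * ((D' * z' : ℤ) : ℤ_[p])) (by
    rw [map_mul, map_intCast, ← hr]
    exact (quadraticChar_one_iff_isSquare (mul_ne_zero hr0 hDz0)).2 hsq)
  have hp0 : (p : ℚ_[p]) ≠ 0 := by exact_mod_cast hp.out.ne_zero
  have hD0' : (D' : ℚ_[p]) ≠ 0 := by
    have : D' ≠ 0 := by rintro rfl; exact hD' (dvd_zero _)
    exact_mod_cast this
  have hz0' : (z' : ℚ_[p]) ≠ 0 := by
    have : z' ≠ 0 := by rintro rfl; exact hz' (dvd_zero _)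
    exact_mod_cast this
  have hρ0 : (ρ : ℚ_[p]) ≠ 0 := by
    intro h0
    apply hr0
    have h1 : ρ = 0 := by
      apply PadicInt.ext
      rw [h0]
      rfl
    rw [hr, h1, map_zero]
  have hroot' : (ρ : ℚ_[p]) ^ 2 + (A : ℚ_[p]) * ρ + (B : ℚ_[p]) = 0 := by
    have h3 := congrArg (fun t : ℤ_[p] => (t : ℚ_[p])) hroot
    push_cast at h3
    exact h3
  have ht' : (ρ : ℚ_[p]) * (D' * z') = t * t := by
    have h3 := congrArg (fun t : ℤ_[p] => (t : ℚ_[p])) ht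
    push_cast at h3
    exact h3
  refine ⟨(p : ℚ_[p]) * D' * ρ, 0, t / z', mul_ne_zero (mul_ne_zero hp0 hD0') hρ0, ?_, ?_⟩
  · rw [hD]
    push_cast
    linear_combination (-((p : ℚ_[p]) * D') ^ 3 * ρ) * hroot'
  · rw [hz]
    push_cast
    field_simp
    linear_combination ht'

end Q44.BN
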