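import Pool.Agent.Q44.BN.Dec

/-!
# The law over all the twists of a local class
-/

set_option autoImplicit false

open scoped Classical

namespace Q44.BN

open Finset Filter
open Q44.BC (lam)
open Q44.TK (Fm hF hF_eq)
open Q44.TI (SelS cardf ratio pd)

/-- the twists up to `X` -/
noncomputable def Sq (X : ℕ) : Finset ℤ := (Icc (-(X : ℤ)) X).filter fun D => Squarefree D

theorem mem_Sq {X : ℕ} {D : ℤ} : D ∈ Sq X ↔ D.natAbs ≤ X ∧ Squarefree D := by
  unfold Sq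
  rw [mem_filter, mem_Icc]
  refine and_congr_left fun _ => ?_
  omega

namespace Cd

variable (e : Cd)

theorem sqf_mul {g : GG e.m.primeFactors} {d : ℕ} (hd : d.Coprime e.m) (hs : Squarefree d) :
    Squarefree (UU g * (d : ℤ)) := by
  rw [← Int.squarefree_natAbs, Int.natAbs_mul, Int.natAbs_natCast]
  refine (Nat.squarefree_mul ?_).2 ⟨Int.squarefree_natAbs.2 (UU_sqf e.hT g), hs⟩
  have h1 : (UU g).natAbs ∣ e.m := (e.UU_dvd_P g).trans
    ((dvd_pow_self e.P (by norm_num : 4 ≠ 0)).trans (Dvd.intro_left _ rfl))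
  exact (Nat.Coprime.coprime_dvd_right h1 hd).symm

/-- the translation -/
theorem card_cls (g : GG e.m.primeFactors) {d₀ : ℕ} (hd₀ : d₀.Coprime e.m) (hs₀ : Squarefree d₀)
    (X : ℕ) (Q : ℤ → Prop) (R : ℕ → Prop) (hR : ∀ d : ℕ, R d ↔ Q (UU g * d))
    {i1 : DecidablePred fun D => Same e.a e.b (UU g * d₀) D ∧ Q D}
    {i2 : DecidablePred fun d : ℕ => (e.cu g hd₀).Dm d ∧ R d} :
    ((Sq X).filter fun D => Same e.a e.b (UU g * d₀) D ∧ Q D).card =
      ((Icc 1 (X / (UU g).natAbs)).filter fun d : ℕ => (e.cu g hd₀).Dm d ∧ R d).card := by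
  have hn : 0 < (UU g).natAbs := Int.natAbs_pos.2 (UU_ne e.hT g)
  symm
  refine Finset.card_bij (fun (d : ℕ) _ => UU g * (d : ℤ)) ?_ ?_ ?_
  · intro d hd
    obtain ⟨h1, ⟨⟨h2, h3⟩, h4⟩, h5⟩ := mem_filter.1 hd
    rw [mem_Icc] at h1
    have h6 : Squarefree (UU g * (d : ℤ)) := e.sqf_mul h3 h2
    refine mem_filter.2 ⟨mem_Sq.2 ⟨?_, h6⟩, ?_, (hR d).1 h5⟩
    · rw [Int.natAbs_mul, Int.natAbs_natCast, mul_comm]
      exact (Nat.le_div_iff_mul_le hn).1 h1.2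
    · exact (e.same_iff h3 hd₀ h6 (e.sqf_mul hd₀ hs₀)).2 ⟨rfl, h4⟩
  · intro d _ d' _ h
    have := mul_left_cancel₀ (UU_ne e.hT g) h
    exact_mod_cast this
  · intro D hD
    obtain ⟨h1, h2, h3⟩ := mem_filter.1 hD
    obtain ⟨h4, h5⟩ := mem_Sq.1 h1
    obtain ⟨g', d, hd, hdm, rfl⟩ := e.dec h5
    obtain ⟨rfl, h6⟩ := (e.same_iff hdm hd₀ h5 (e.sqf_mul hd₀ hs₀)).1 h2
    refine ⟨d, mem_filter.2 ⟨mem_Icc.2 ⟨?_, ?_⟩, ⟨⟨hd, hdm⟩, h6⟩, (hR d).2 h3⟩, rfl⟩
    · exact Nat.pos_of_ne_zero hd.ne_zero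
    · rw [Int.natAbs_mul, Int.natAbs_natCast, mul_comm] at h4
      exact (Nat.le_div_iff_mul_le hn).2 h4

theorem card_cls' (g : GG e.m.primeFactors) {d₀ : ℕ} (hd₀ : d₀.Coprime e.m) (hs₀ : Squarefree d₀)
    (X : ℕ) {i1 : DecidablePred fun D => Same e.a e.b (UU g * d₀) D}
    {i2 : DecidablePred fun d : ℕ => (e.cu g hd₀).Dm d} :
    ((Sq X).filter fun D => Same e.a e.b (UU g * d₀) D).card =
      ((Icc 1 (X / (UU g).natAbs)).filter fun d : ℕ => (e.cu g hd₀).Dm d).card := by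
  have h := e.card_cls g hd₀ hs₀ X (fun _ => True) (fun _ => True) (fun _ => Iff.rfl)
    (i1 := Classical.decPred _) (i2 := Classical.decPred _)
  refine (cardS (fun D => ?_) _).trans (h.trans (cardS (fun D => ?_) _))
  · exact ⟨fun h => ⟨h, trivial⟩, fun h => h.1⟩
  · exact ⟨fun h => h.1, fun h => ⟨h, trivial⟩⟩

theorem tend_div (g : GG e.m.primeFactors) :
    Tendsto (fun X : ℕ => X / (UU g).natAbs) atTop atTop :=
  Nat.tendsto_div_const_atTop (Int.natAbs_ne_zero.2 (UU_ne e.hT g))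

/-- **the law for the twists of a local class** -/
theorem law (g : GG e.m.primeFactors) {d₀ : ℕ} (hd₀ : d₀.Coprime e.m) (hs₀ : Squarefree d₀)
    (r : ℕ) :
    Tendsto (fun X : ℕ => (((Sq X).filter fun D => Same e.a e.b (UU g * d₀) D ∧
        (SelS (e.a * D) (e.b * D ^ 2)).ncard = 2 ^ (r + 1)).card : ℝ) /
      (((Sq X).filter fun D => Same e.a e.b (UU g * d₀) D).card : ℝ)) atTop
      (nhds (lam (e.cu g hd₀).t r)) := by
  refine (((e.cu g hd₀).law r).comp (e.tend_div g)).congr fun X => ?_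
  refine congrArg₂ (fun x y : ℕ => (x : ℝ) / (y : ℝ)) ?_ ?_
  · refine (e.card_cls g hd₀ hs₀ X _ _ fun d => ?_).symm
    have e1 : (e.cu g hd₀).A * (d : ℤ) = e.a * (UU g * d) := by
      show e.a * UU g * d = _
      ring
    have e2 : (e.cu g hd₀).B * (d : ℤ) ^ 2 = e.b * (UU g * d) ^ 2 := by
      show e.b * UU g ^ 2 * d ^ 2 = _
      ring
    rw [e1, e2]
  · exact (e.card_cls' g hd₀ hs₀ X).symm

/-- **the law for the dual twists of a local class** -/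
theorem law_dual (g : GG e.m.primeFactors) {d₀ : ℕ} (hd₀ : d₀.Coprime e.m) (hs₀ : Squarefree d₀)
    (r : ℕ) :
    Tendsto (fun X : ℕ => (((Sq X).filter fun D => Same e.a e.b (UU g * d₀) D ∧
        (SelS (-2 * (e.a * D)) ((e.a * D) ^ 2 - 4 * (e.b * D ^ 2))).ncard = 2 ^ (r + 1)).card : ℝ) /
      (((Sq X).filter fun D => Same e.a e.b (UU g * d₀) D).card : ℝ)) atTop
      (nhds (lam (e.cud g hd₀).t r)) := by
  refine (((e.cud g hd₀).law r).comp (e.tend_div g)).congr fun X => ?_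
  refine congrArg₂ (fun x y : ℕ => (x : ℝ) / (y : ℝ)) ?_ ?_
  · refine (e.card_cls g hd₀ hs₀ X _ _ fun d => ?_).symm
    have e1 : (e.cud g hd₀).A * (d : ℤ) = -2 * (e.a * (UU g * d)) := by
      show -2 * (e.a * UU g) * d = _
      ring
    have e2 : (e.cud g hd₀).B * (d : ℤ) ^ 2 =
        (e.a * (UU g * d)) ^ 2 - 4 * (e.b * (UU g * d) ^ 2) := by
      show ((e.a * UU g) ^ 2 - 4 * (e.b * UU g ^ 2)) * d ^ 2 = _
      ring
    rw [e1, e2]
  · exact (e.card_cls' g hd₀ hs₀ X).symm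

end Cd

end Q44.BN
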