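import Pool.Agent.Q44.BN.Law

/-!
# Squares modulo `m` and squares in the local fields
-/

set_option autoImplicit false

open scoped Classical

namespace Q44.BN

open Finset
open Q44.TK (Fm hF hF_eq)

/-- a unit which is a square in `ℚ_p` is a square modulo `p ^ k` -/
theorem sq_mod_pow {p : ℕ} [hp : Fact p.Prime] {n : ℕ} (h : IsSquare ((n : ℤ) : ℚ_[p])) (k : ℕ) :
    IsSquare ((n : ℕ) : ZMod (p ^ k)) := by
  obtain ⟨s, hs⟩ := h
  have h1 : ‖s‖ ≤ 1 := by
    by_contra hc
    push Not at hc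
    have h2 : ‖((n : ℤ) : ℚ_[p])‖ ≤ 1 := Padic.norm_int_le_one _
    rw [hs, norm_mul] at h2
    nlinarith
  obtain ⟨w, hw⟩ : ∃ w : ℤ_[p], (w : ℚ_[p]) = s := ⟨⟨s, h1⟩, rfl⟩
  have h3 : ((n : ℤ_[p])) = w * w := by
    apply PadicInt.ext
    push_cast
    push_cast at hs
    rw [hw]
    exact hs
  refine ⟨PadicInt.toZModPow k w, ?_⟩
  rw [← map_mul, ← h3, map_natCast]

/-- squares modulo `m` -/
theorem sq_mod {n : ℕ} : ∀ m : ℕ, m ≠ 0 →
    (∀ (p : ℕ) [Fact p.Prime], p ∣ m → IsSquare ((n : ℤ) : ℚ_[p])) →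
    IsSquare ((n : ℕ) : ZMod m) := by
  intro m
  induction m using Nat.recOnPosPrimePosCoprime with
  | prime_pow p k hp hk =>
    intro _ h
    have : Fact p.Prime := ⟨hp⟩
    exact sq_mod_pow (h p (dvd_pow_self p hk.ne')) k
  | zero => intro h; exact absurd rfl h
  | one =>
    intro _ _
    exact ⟨0, Subsingleton.elim _ _⟩
  | coprime a b ha hb hab iha ihb =>
    intro _ h
    obtain ⟨x, hx⟩ := iha (by omega) fun p _ hd => h p (hd.mul_right b)
    obtain ⟨y, hy⟩ := ihb (by omega) fun p _ hd => h p (hd.mul_left a)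
    refine ⟨(ZMod.chineseRemainder hab).symm (x, y), ?_⟩
    apply (ZMod.chineseRemainder hab).injective
    rw [map_mul, RingEquiv.apply_symm_apply, map_natCast]
    exact Prod.ext hx hy

/-- the classes modulo `m` are the local classes -/
theorem hF_iff {m : ℕ} (hm : m ≠ 0) (h8 : 8 ∣ m) {d D : ℕ} (hd : d.Coprime m) (hD : D.Coprime m) :
    hF m D = hF m d ↔ ∀ (p : ℕ) [Fact p.Prime], p ∣ m → IsSquare ((d * D : ℤ) : ℚ_[p]) := by
  constructor
  · intro h p hp hpm
    exact sq_of_hF h8 hd hD h.symm p hpm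
  · intro h
    rw [hF_eq hd hD]
    refine sq_mod m hm fun p _ hpm => ?_
    have := h p hpm
    push_cast at this ⊢
    exact this

end Q44.BN
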