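import Pool.Agent.Q44.BN.LocM
import Pool.Agent.Q44.BM.Box

/-!
# The data of a curve and of a local class of twists
-/

set_option autoImplicit false

open scoped Classical

namespace Q44.BN

open Finset Module
open Pool.Agent.Y703.CQ (nr)
open Q44.TK (Fm hF hF_pos hF_mul hF_sum hF_eq hF_one Fm_two)
open Q44.BM (vm Fam RC Sys)
open Q44.TI (Loc pd ch ch_zero ch_mul ch_pd nr_ch dvd_pd_iff pd_pos not_dvd_pd nz_of cop_mod jac_mod)

/-- the modulus -/
structure Md (A B : ℤ) (m : ℕ) : Prop where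
  nz : m ≠ 0
  dv : 8 * (B * (A ^ 2 - 4 * B)).natAbs ∣ m
  pr : ∀ p : ℕ, p.Prime → p ∣ m → (p : ℤ) ∣ N2 A B

section md

variable {A B : ℤ} {m : ℕ}

theorem Md.eight (h : Md A B m) : 8 ∣ m := (Dvd.intro _ rfl).trans h.dv

theorem Md.four (h : Md A B m) : 4 ∣ m := (by norm_num : 4 ∣ 8).trans h.eight

theorem Md.prime_iff (h : Md A B m) {p : ℕ} (hp : p.Prime) : p ∣ m ↔ (p : ℤ) ∣ N2 A B := by
  refine ⟨h.pr p hp, fun hd => ?_⟩
  have h2 : (p : ℤ) ∣ 2 * (B * (A ^ 2 - 4 * B)) := hd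
  rcases (Nat.prime_iff_prime_int.1 hp).dvd_or_dvd h2 with h3 | h3
  · have h5 : p ∣ 2 := by exact_mod_cast h3
    exact h5.trans ((by norm_num : 2 ∣ 8).trans h.eight)
  · exact (Int.natCast_dvd.1 h3).trans ((Dvd.intro_left 8 rfl).trans h.dv)

theorem Md.cop_iff (h : Md A B m) {p : ℕ} (hp : p.Prime) : p.Coprime m ↔ ¬ (p : ℤ) ∣ N2 A B := by
  rw [Nat.Prime.coprime_iff_not_dvd hp, h.prime_iff hp]

theorem Md.dB (h : Md A B m) : 4 * B.natAbs ∣ m := by
  refine Dvd.dvd.trans ?_ h.dv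
  rw [Int.natAbs_mul]
  exact ⟨2 * (A ^ 2 - 4 * B).natAbs, by ring⟩

theorem Md.dC (h : Md A B m) : 4 * (A ^ 2 - 4 * B).natAbs ∣ m := by
  refine Dvd.dvd.trans ?_ h.dv
  rw [Int.natAbs_mul]
  exact ⟨2 * B.natAbs, by ring⟩

theorem Md.dneg (h : Md A B m) : 4 * (-1 : ℤ).natAbs ∣ m := h.four

theorem Md.dt (h : Md A B m) {t : ℕ} (ht : t ∈ m.primeFactors) : 4 * ((t : ℤ)).natAbs ∣ m := by
  obtain ⟨hp, hd, -⟩ := Nat.mem_primeFactors.1 ht
  rw [Int.natAbs_natCast]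
  by_cases h2 : t = 2
  · subst h2
    exact h.eight
  · have h3 := (h.prime_iff hp).1 hd
    have h4 : (t : ℤ) ∣ B * (A ^ 2 - 4 * B) := by
      rcases (Nat.prime_iff_prime_int.1 hp).dvd_or_dvd (show (t : ℤ) ∣ 2 * _ from h3) with h5 | h5
      · exfalso
        have h6 : t ∣ 2 := by exact_mod_cast h5
        exact h2 ((Nat.prime_dvd_prime_iff_eq hp Nat.prime_two).1 h6)
      · exact h5
    refine Dvd.dvd.trans ?_ h.dv
    exact mul_dvd_mul (by norm_num) (Int.natCast_dvd.1 h4)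

end md

/-- the data -/
structure Cu where
  A : ℤ
  B : ℤ
  m : ℕ
  d : ℕ
  hB : ¬ IsSquare B
  hC : A ^ 2 - 4 * B ≠ 0
  hs : IsSquare (B * (A ^ 2 - 4 * B))
  hm : Md A B m
  hd : d.Coprime m

namespace Cu

variable (c : Cu)

theorem B0 : c.B ≠ 0 := by
  intro h
  apply c.hB
  rw [h]
  exact ⟨0, by ring⟩

theorem CnB : ¬ IsSquare (c.A ^ 2 - 4 * c.B) := by
  rintro ⟨s, hs⟩
  obtain ⟨r, hr⟩ := c.hs
  have hs0 : s ≠ 0 := by
    rintro rfl
    exact c.hC (by rw [hs]; ring)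
  have h1 : s ∣ r := by
    have : s ^ 2 ∣ r ^ 2 := ⟨c.B, by rw [hs] at hr; linear_combination -hr⟩
    exact (Int.pow_dvd_pow_iff two_ne_zero).1 this
  obtain ⟨t, rfl⟩ := h1
  apply c.hB
  refine ⟨t, ?_⟩
  have h2 : (s * s) ≠ 0 := mul_ne_zero hs0 hs0
  apply mul_right_cancel₀ h2
  rw [hs] at hr
  linear_combination hr

theorem Bpos : 0 < c.B := by
  obtain ⟨r, hr⟩ := c.hs
  have h1 : 0 < c.B * (c.A ^ 2 - 4 * c.B) := by
    refine lt_of_le_of_ne ?_ (mul_ne_zero c.B0 c.hC).symm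
    rw [hr]
    exact mul_self_nonneg r
  by_contra h
  have h2 : c.B < 0 := lt_of_le_of_ne (not_lt.1 h) c.B0
  nlinarith [sq_nonneg c.A]

theorem d0 : c.d ≠ 0 := ne_zero_of_cop c.hm.four c.hd

/-- the bad primes -/
noncomputable def T : Finset ℕ := c.m.primeFactors

theorem hT : ∀ p ∈ c.T, p.Prime := fun _ hp => Nat.prime_of_mem_primeFactors hp

theorem mem_T {p : ℕ} (hp : p.Prime) : p ∈ c.T ↔ (p : ℤ) ∣ N2 c.A c.B := by
  unfold T
  rw [Nat.mem_primeFactors, ← c.hm.prime_iff hp]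
  exact ⟨fun h => h.2.1, fun h => ⟨hp, h, c.hm.nz⟩⟩

theorem Sup_UU (g : GG c.T) : Sup c.A c.B (UU g) :=
  ⟨UU_sqf c.hT g, fun _ hp h => (c.mem_T hp).1 (UU_dvd' c.hT g hp h)⟩

theorem ex_UU {u : ℤ} (hu : Sup c.A c.B u) : ∃ g : GG c.T, UU g = u :=
  UU_surj c.hT hu.1 fun p hp h => (c.mem_T hp).2 (hu.2 p hp h)

/-- the classes of the active primes -/
noncomputable def FA : Submodule (ZMod 2) (Fm c.m) := LinearMap.ker (jc c.m c.B)

/-- the characters -/
noncomputable def chi : GG c.T →ₗ[ZMod 2] c.FA →ₗ[ZMod 2] ZMod 2 :=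
  LinearMap.mk₂ (ZMod 2)
    (fun g x => ∑ t : c.T, g.1 t * jc c.m ((t : ℕ) : ℤ) x + g.2 * jc c.m (-1) x)
    (by
      intro g g' x
      simp only [Prod.fst_add, Prod.snd_add, Pi.add_apply, add_mul, sum_add_distrib]
      ring)
    (by
      intro a g x
      simp only [Prod.smul_fst, Prod.smul_snd, Pi.smul_apply, smul_eq_mul, mul_assoc]
      rw [← mul_sum]
      ring)
    (by
      intro g x y
      simp only [Submodule.coe_add, map_add, mul_add, sum_add_distrib]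
      ring)
    (by
      intro a g x
      simp only [Submodule.coe_smul, map_smul, smul_eq_mul]
      rw [mul_add, mul_sum]
      congr 1
      · exact sum_congr rfl fun t _ => by ring
      · ring)

theorem chi_apply (g : GG c.T) (x : c.FA) :
    c.chi g x = ∑ t : c.T, g.1 t * jc c.m ((t : ℕ) : ℤ) x + g.2 * jc c.m (-1) x := rfl

/-- the formula for the symbol of the integer of a vector -/
theorem ch_UU (g : GG c.T) {p : ℕ} (hp : p.Prime) (hpm : p.Coprime c.m) :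
    ch ((UU g : ℤ) : ZMod p) =
      ∑ t : c.T, g.1 t * jc c.m ((t : ℕ) : ℤ) (hF c.m p) + g.2 * jc c.m (-1) (hF c.m p) := by
  have : Fact p.Prime := ⟨hp⟩
  have hpT : p ∉ JJ g := fun h => by
    have h1 := JJ_sub g h
    have h2 : p ∣ c.m := (Nat.mem_primeFactors.1 h1).2.1
    exact (Nat.Prime.coprime_iff_not_dvd hp).1 hpm h2
  have h1 : ∀ t : c.T, jc c.m ((t : ℕ) : ℤ) (hF c.m p) = nr p t := by
    intro t
    rw [jc_prime c.hm.nz (c.hm.dt t.2) hp hpm, nr_ch, Int.cast_natCast]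
  have h2 : jc c.m (-1) (hF c.m p) = ch ((-1 : ℤ) : ZMod p) :=
    jc_prime c.hm.nz c.hm.dneg hp hpm
  have h3 : ((pd (JJ g) : ℤ) : ZMod p) ≠ 0 := nz_of (not_dvd_pd hp (JJ_prime c.hT g) hpT)
  have h4 : ((sgn g.2 : ℤ) : ZMod p) ≠ 0 := by
    unfold sgn
    split_ifs
    · simp
    · simp
  have h5 : ch ((sgn g.2 : ℤ) : ZMod p) = g.2 * ch ((-1 : ℤ) : ZMod p) := by
    unfold sgn
    rcases two_cases g.2 with h | h
    · rw [h, if_pos rfl, zero_mul, Int.cast_one]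
      exact ch_zero.2 IsSquare.one
    · rw [h, if_neg one_ne_zero, one_mul]
  have h6 : ch ((pd (JJ g) : ℤ) : ZMod p) = ∑ t : c.T, g.1 t * nr p t := by
    rw [ch_pd hp (JJ_prime c.hT g) hpT]
    unfold JJ
    rw [sum_image fun x _ y _ h => Subtype.ext h, sum_filter]
    refine sum_congr rfl fun t _ => ?_
    rcases two_cases (g.1 t) with h | h
    · rw [h, if_neg (not_not.2 rfl), zero_mul]
    · rw [h, if_pos one_ne_zero, one_mul]
  unfold UU
  rw [Int.cast_mul, ch_mul h4 h3, h5, h6, h2, add_comm]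
  congr 1
  exact sum_congr rfl fun t _ => by rw [h1]

end Cu

end Q44.BN
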