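import Pool.Agent.Q44.BN.Crt

/-!
# All the twists
-/

set_option autoImplicit false

open scoped Classical

namespace Q44.BN

open Finset Filter
open Q44.BC (lam)
open Q44.TK (Fm hF hF_eq)
open Q44.TI (SelS cardf ratio pd)

/-- two integers are in the same local class -/
def Same (a b D₀ D : ℤ) : Prop := 0 < D₀ * D ∧
  ∀ (p : ℕ) [Fact p.Prime], (p : ℤ) ∣ 2 * (b * (a ^ 2 - 4 * b)) → IsSquare ((D₀ * D : ℤ) : ℚ_[p])

/-- the curves: `b (a² - 4 b)` is a square, `b` is not a square -/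
structure Cd where
  a : ℤ
  b : ℤ
  hb : ¬ IsSquare b
  hc : a ^ 2 - 4 * b ≠ 0
  hs : IsSquare (b * (a ^ 2 - 4 * b))

/-- a prime which divides exactly one of two squarefree integers -/
theorem not_sq_of {p : ℕ} [hp : Fact p.Prime] {D E : ℤ} (hD : Squarefree D) (hE : Squarefree E)
    (h : (p : ℤ) ∣ D) (h' : ¬ (p : ℤ) ∣ E) : ¬ IsSquare ((D * E : ℤ) : ℚ_[p]) := by
  rintro ⟨s, hs⟩
  have hD0 := hD.ne_zero
  have hE0 := hE.ne_zero
  obtain ⟨D', rfl⟩ := h
  have hD' : ¬ (p : ℤ) ∣ D' := by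
    rintro ⟨u, rfl⟩
    have h1 : (p : ℤ) * p ∣ p * (p * u) := ⟨u, by ring⟩
    have h2 := hD _ h1
    rw [Int.isUnit_iff] at h2
    have h3 := hp.out.one_lt
    omega
  have hp0 : (p : ℤ) ≠ 0 := by exact_mod_cast hp.out.ne_zero
  have hD0' : D' ≠ 0 := by
    rintro rfl
    exact hD0 (mul_zero _)
  have hs0 : s ≠ 0 := by
    rintro rfl
    rw [mul_zero] at hs
    exact mul_ne_zero hD0 hE0 (by exact_mod_cast hs)
  have h1 : Padic.valuation ((p * D' * E : ℤ) : ℚ_[p]) = 1 := by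
    rw [Padic.valuation_intCast, padicValInt.mul hD0 hE0, padicValInt.mul hp0 hD0',
      padicValInt_self, padicValInt.eq_zero_of_not_dvd hD', padicValInt.eq_zero_of_not_dvd h']
    rfl
  rw [hs, Padic.valuation_mul hs0 hs0] at h1
  omega

namespace Cd

variable (e : Cd)

theorem b0 : e.b ≠ 0 := by
  intro h
  apply e.hb
  rw [h]
  exact ⟨0, by ring⟩

theorem N0 : N2 e.a e.b ≠ 0 := mul_ne_zero two_ne_zero (mul_ne_zero e.b0 e.hc)

/-- the product of the bad primes -/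
noncomputable def P : ℕ := ∏ p ∈ (N2 e.a e.b).natAbs.primeFactors, p

/-- the modulus -/
noncomputable def m : ℕ := 128 * (e.b * (e.a ^ 2 - 4 * e.b)).natAbs * e.P ^ 4

theorem P0 : e.P ≠ 0 := prod_ne_zero_iff.2 fun _ hp => (Nat.prime_of_mem_primeFactors hp).ne_zero

theorem m0 : e.m ≠ 0 := mul_ne_zero (mul_ne_zero (by norm_num)
  (Int.natAbs_ne_zero.2 (mul_ne_zero e.b0 e.hc))) (pow_ne_zero 4 e.P0)

theorem m_prime {p : ℕ} (hp : p.Prime) : p ∣ e.m ↔ (p : ℤ) ∣ N2 e.a e.b := by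
  unfold m N2
  constructor
  · intro h
    rcases hp.dvd_mul.1 h with h1 | h1
    · rcases hp.dvd_mul.1 h1 with h2 | h2
      · have h3 : p ∣ 2 ^ 7 := by simpa using h2
        have h4 := hp.dvd_of_dvd_pow h3
        have h5 : (p : ℤ) ∣ 2 := by exact_mod_cast h4
        exact h5.mul_right _
      · exact (Int.natCast_dvd.2 h2).mul_left 2
    · have h2 := hp.dvd_of_dvd_pow h1
      obtain ⟨q, hq, hpq⟩ := (Nat.Prime.prime hp).exists_mem_finset_dvd h2
      have h3 := (Nat.prime_dvd_prime_iff_eq hp (Nat.prime_of_mem_primeFactors hq)).1 hpq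
      rw [h3]
      exact Int.natCast_dvd.2 (Nat.dvd_of_mem_primeFactors hq)
  · intro h
    rcases (Nat.prime_iff_prime_int.1 hp).dvd_or_dvd h with h1 | h1
    · have h2 : p ∣ 2 := by exact_mod_cast h1
      exact ((h2.trans (by norm_num : 2 ∣ 128)).mul_right _).mul_right _
    · exact ((Int.natCast_dvd.1 h1).mul_left _).mul_right _

theorem eight : 8 ∣ e.m := ((by norm_num : 8 ∣ 128).mul_right _).mul_right _

theorem hT : ∀ p ∈ e.m.primeFactors, p.Prime := fun _ hp => Nat.prime_of_mem_primeFactors hp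

theorem mem_T {p : ℕ} (hp : p.Prime) : p ∈ e.m.primeFactors ↔ (p : ℤ) ∣ N2 e.a e.b := by
  rw [Nat.mem_primeFactors, ← e.m_prime hp]
  exact ⟨fun h => h.2.1, fun h => ⟨hp, h, e.m0⟩⟩

/-- the integers supported on the bad primes divide the product -/
theorem UU_dvd_P (g : GG e.m.primeFactors) : (UU g).natAbs ∣ e.P := by
  unfold UU
  rw [Int.natAbs_mul, sgn_abs, one_mul]
  unfold pd
  rw [Int.natAbs_natCast]
  refine Finset.prod_dvd_prod_of_subset _ _ _ fun p hp => ?_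
  have hpp := JJ_prime e.hT g p hp
  exact Nat.mem_primeFactors.2 ⟨hpp, Int.natCast_dvd.1 ((e.mem_T hpp).1 (JJ_sub g hp)),
    Int.natAbs_ne_zero.2 e.N0⟩

theorem UU_N {g : GG e.m.primeFactors} {p : ℕ} (hp : p.Prime) (h : (p : ℤ) ∣ UU g) :
    (p : ℤ) ∣ N2 e.a e.b := (e.mem_T hp).1 (UU_dvd' e.hT g hp h)

theorem Md_k (g : GG e.m.primeFactors) : Md (e.a * UU g) (e.b * UU g ^ 2) e.m := by
  have e1 : (e.b * UU g ^ 2) * ((e.a * UU g) ^ 2 - 4 * (e.b * UU g ^ 2)) =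
      e.b * (e.a ^ 2 - 4 * e.b) * UU g ^ 4 := by ring
  refine ⟨e.m0, ?_, fun p hp h => ?_⟩
  · rw [e1, Int.natAbs_mul, Int.natAbs_pow]
    unfold m
    rw [← mul_assoc]
    exact mul_dvd_mul (mul_dvd_mul (by norm_num) dvd_rfl) (pow_dvd_pow_of_dvd (e.UU_dvd_P g) 4)
  · unfold N2
    rw [e1]
    have h1 := (e.m_prime hp).1 h
    unfold N2 at h1
    rw [← mul_assoc]
    exact h1.mul_right _

theorem Md_d (g : GG e.m.primeFactors) :
    Md (-2 * (e.a * UU g)) ((e.a * UU g) ^ 2 - 4 * (e.b * UU g ^ 2)) e.m := by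
  have e1 : ((e.a * UU g) ^ 2 - 4 * (e.b * UU g ^ 2)) * ((-2 * (e.a * UU g)) ^ 2 -
      4 * ((e.a * UU g) ^ 2 - 4 * (e.b * UU g ^ 2))) =
      16 * (e.b * (e.a ^ 2 - 4 * e.b)) * UU g ^ 4 := by ring
  refine ⟨e.m0, ?_, fun p hp h => ?_⟩
  · rw [e1, Int.natAbs_mul, Int.natAbs_pow, Int.natAbs_mul]
    unfold m
    rw [← mul_assoc, ← mul_assoc]
    exact mul_dvd_mul (mul_dvd_mul (by norm_num) dvd_rfl) (pow_dvd_pow_of_dvd (e.UU_dvd_P g) 4)
  · unfold N2
    rw [e1]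
    have h1 := (e.m_prime hp).1 h
    unfold N2 at h1
    have e2 : (2 : ℤ) * (16 * (e.b * (e.a ^ 2 - 4 * e.b)) * UU g ^ 4) =
      (2 * (e.b * (e.a ^ 2 - 4 * e.b))) * (16 * UU g ^ 4) := by ring
    rw [e2]
    exact h1.mul_right _

theorem sq_iff {n k : ℤ} (hk : k ≠ 0) : IsSquare (n * k ^ 2) ↔ IsSquare n := by
  constructor
  · rintro ⟨s, hs⟩
    have h1 : k ∣ s := by
      have : k ^ 2 ∣ s ^ 2 := ⟨n, by linear_combination -hs⟩
      exact (Int.pow_dvd_pow_iff two_ne_zero).1 this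
    obtain ⟨t, rfl⟩ := h1
    refine ⟨t, ?_⟩
    have h2 : k ^ 2 ≠ 0 := pow_ne_zero 2 hk
    apply mul_right_cancel₀ h2
    linear_combination hs
  · rintro ⟨s, hs⟩
    exact ⟨s * k, by rw [hs]; ring⟩

/-- the data of the class of `k d` -/
noncomputable def cu (g : GG e.m.primeFactors) {d : ℕ} (hd : d.Coprime e.m) : Cu where
  A := e.a * UU g
  B := e.b * UU g ^ 2
  m := e.m
  d := d
  hB := by
    rw [sq_iff (UU_ne e.hT g)]
    exact e.hb
  hC := by
    have e1 : (e.a * UU g) ^ 2 - 4 * (e.b * UU g ^ 2) = (e.a ^ 2 - 4 * e.b) * UU g ^ 2 := by ring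
    rw [e1]
    exact mul_ne_zero e.hc (pow_ne_zero 2 (UU_ne e.hT g))
  hs := by
    have e1 : (e.b * UU g ^ 2) * ((e.a * UU g) ^ 2 - 4 * (e.b * UU g ^ 2)) =
      e.b * (e.a ^ 2 - 4 * e.b) * (UU g ^ 2) ^ 2 := by ring
    rw [e1, sq_iff (pow_ne_zero 2 (UU_ne e.hT g))]
    exact e.hs
  hm := e.Md_k g
  hd := hd

/-- the data of the class of `k d` for the dual curve -/
noncomputable def cud (g : GG e.m.primeFactors) {d : ℕ} (hd : d.Coprime e.m) : Cu where
  A := -2 * (e.a * UU g)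
  B := (e.a * UU g) ^ 2 - 4 * (e.b * UU g ^ 2)
  m := e.m
  d := d
  hB := (e.cu g hd).CnB
  hC := by
    have e1 : (-2 * (e.a * UU g)) ^ 2 - 4 * ((e.a * UU g) ^ 2 - 4 * (e.b * UU g ^ 2)) =
      16 * (e.cu g hd).B := by
      show _ = 16 * (e.b * UU g ^ 2)
      ring
    rw [e1]
    exact mul_ne_zero (by norm_num) (e.cu g hd).B0
  hs := by
    obtain ⟨s, hs⟩ := (e.cu g hd).hs
    refine ⟨4 * s, ?_⟩
    have hs' : (e.b * UU g ^ 2) * ((e.a * UU g) ^ 2 - 4 * (e.b * UU g ^ 2)) = s * s := hs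
    linear_combination 16 * hs'
  hm := e.Md_d g
  hd := hd

/-- the decomposition -/
theorem dec {D : ℤ} (hD : Squarefree D) : ∃ (g : GG e.m.primeFactors) (d : ℕ), Squarefree d ∧
    d.Coprime e.m ∧ D = UU g * d := by
  set W := D.natAbs.primeFactors.filter fun p => ¬ p ∣ e.m with hW
  have hWp : ∀ p ∈ W, p.Prime := fun p hp => Nat.prime_of_mem_primeFactors (mem_filter.1 hp).1
  have hn : Squarefree D.natAbs := Int.squarefree_natAbs.2 hD
  have h1 : (∏ p ∈ W, p) ∣ D.natAbs := by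
    have h2 : (∏ p ∈ W, p) ∣ ∏ p ∈ D.natAbs.primeFactors, p :=
      Finset.prod_dvd_prod_of_subset _ _ _ (filter_subset _ _)
    rwa [Nat.prod_primeFactors_of_squarefree hn] at h2
  obtain ⟨u, hu⟩ := Int.natCast_dvd.2 h1
  have hus : Squarefree u := hD.squarefree_of_dvd (Dvd.intro_left _ hu.symm)
  have hcop : (∏ p ∈ W, p).Coprime e.m := Nat.Coprime.prod_left fun p hp =>
    (Nat.Prime.coprime_iff_not_dvd (hWp p hp)).2 (mem_filter.1 hp).2
  obtain ⟨g, hg⟩ := UU_surj e.hT hus fun p hp hd => by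
    rw [Nat.mem_primeFactors]
    refine ⟨hp, ?_, e.m0⟩
    by_contra h2
    have h3 : (p : ℤ) ∣ D := by
      rw [hu]
      exact hd.mul_left _
    have h4 : p ∈ W := mem_filter.2 ⟨Nat.mem_primeFactors.2 ⟨hp, Int.natCast_dvd.1 h3,
      Int.natAbs_ne_zero.2 hD.ne_zero⟩, h2⟩
    have h5 : (p : ℤ) ∣ ((∏ p ∈ W, p : ℕ) : ℤ) :=
      Int.natCast_dvd_natCast.2 (Finset.dvd_prod_of_mem _ h4)
    have h6 : (p : ℤ) * p ∣ D := by
      rw [hu]
      exact mul_dvd_mul h5 hd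
    have h7 := hD _ h6
    rw [Int.isUnit_iff] at h7
    have := hp.one_lt
    omega
  refine ⟨g, ∏ p ∈ W, p, Q44.TI.sqf_prod hWp, hcop, ?_⟩
  rw [hg, hu]
  ring

/-- the primes which divide the bad part -/
theorem dvd_k {g : GG e.m.primeFactors} {d : ℕ} (hd : d.Coprime e.m) {p : ℕ}
    (hp : p ∈ e.m.primeFactors) : (p : ℤ) ∣ UU g * d ↔ (p : ℤ) ∣ UU g := by
  have hpp := e.hT p hp
  constructor
  · intro h
    rcases (Nat.prime_iff_prime_int.1 hpp).dvd_or_dvd h with h1 | h1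
    · exact h1
    · exfalso
      have h2 : p ∣ d := Int.natCast_dvd_natCast.1 h1
      have h3 : p ∣ e.m := Nat.dvd_of_mem_primeFactors hp
      exact hpp.one_lt.ne' (Nat.dvd_one.1 (hd ▸ Nat.dvd_gcd h2 h3))
  · intro h
    exact h.mul_right _

theorem g_eq {g g' : GG e.m.primeFactors} (h1 : ∀ p ∈ e.m.primeFactors,
    ((p : ℤ) ∣ UU g ↔ (p : ℤ) ∣ UU g')) (h2 : 0 < UU g * UU g') : g = g' := by
  refine Prod.ext (funext fun t => two_eq _ _ ?_) (two_eq _ _ ?_)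
  · have h3 := h1 t t.2
    rw [UU_dvd e.hT g (e.hT t t.2), UU_dvd e.hT g' (e.hT t t.2), mem_JJ, mem_JJ] at h3
    constructor
    · intro h4
      by_contra h5
      obtain ⟨h6, h7⟩ := h3.2 ⟨t.2, h5⟩
      exact h7 h4
    · intro h4
      by_contra h5
      obtain ⟨h6, h7⟩ := h3.1 ⟨t.2, h5⟩
      exact h7 h4
  · rw [← UU_pos e.hT, ← UU_pos e.hT]
    constructor
    · intro h3
      exact (mul_pos_iff_of_pos_left h3).1 h2
    · intro h3
      exact (mul_pos_iff_of_pos_right h3).1 h2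

theorem uni {g g' : GG e.m.primeFactors} {d d' : ℕ} (hd : d.Coprime e.m) (hd' : d'.Coprime e.m)
    (h : UU g * (d : ℤ) = UU g' * d') : g = g' ∧ d = d' := by
  have h4 : 4 ∣ e.m := (by norm_num : 4 ∣ 8).trans e.eight
  have hd0 : (0 : ℤ) < d := by exact_mod_cast Nat.pos_of_ne_zero (ne_zero_of_cop h4 hd)
  have hd0' : (0 : ℤ) < d' := by exact_mod_cast Nat.pos_of_ne_zero (ne_zero_of_cop h4 hd')
  have h1 : g = g' := by
    refine e.g_eq (fun p hp => ?_) ?_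
    · rw [← e.dvd_k hd hp, ← e.dvd_k hd' hp, h]
    · have h3 : 0 < (UU g * UU g') * ((d : ℤ) * d') := by
        have e1 : (UU g * UU g') * ((d : ℤ) * d') = (UU g * d) * (UU g' * d') := by ring
        rw [e1, h]
        exact mul_self_pos.2 (mul_ne_zero (UU_ne e.hT g') hd0'.ne')
      exact (mul_pos_iff_of_pos_right (mul_pos hd0 hd0')).1 h3
  subst h1
  refine ⟨rfl, ?_⟩
  have := mul_left_cancel₀ (UU_ne e.hT g) h
  exact_mod_cast this

/-- the local classes -/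
theorem same_iff {g g₀ : GG e.m.primeFactors} {d d₀ : ℕ} (hd : d.Coprime e.m)
    (hd₀ : d₀.Coprime e.m) (hs : Squarefree (UU g * (d : ℤ))) (hs₀ : Squarefree (UU g₀ * (d₀ : ℤ))) :
    Same e.a e.b (UU g₀ * d₀) (UU g * d) ↔ g = g₀ ∧ hF e.m d = hF e.m d₀ := by
  have h4 : 4 ∣ e.m := (by norm_num : 4 ∣ 8).trans e.eight
  have hd0 : (0 : ℤ) < d := by exact_mod_cast Nat.pos_of_ne_zero (ne_zero_of_cop h4 hd)
  have hd0' : (0 : ℤ) < d₀ := by exact_mod_cast Nat.pos_of_ne_zero (ne_zero_of_cop h4 hd₀)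
  constructor
  · rintro ⟨h1, h2⟩
    have hg : g = g₀ := by
      refine e.g_eq (fun p hp => ?_) ?_
      · have hpp := e.hT p hp
        have : Fact p.Prime := ⟨hpp⟩
        have h3 := h2 p ((e.mem_T hpp).1 hp)
        rw [← e.dvd_k hd hp, ← e.dvd_k hd₀ hp]
        constructor
        · intro h5
          by_contra h6
          rw [mul_comm] at h3
          exact not_sq_of hs hs₀ h5 h6 h3
        · intro h5
          by_contra h6
          exact not_sq_of hs₀ hs h5 h6 h3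
      · have e1 : UU g₀ * d₀ * (UU g * d) = (UU g * UU g₀) * ((d : ℤ) * d₀) := by ring
        rw [e1] at h1
        exact (mul_pos_iff_of_pos_right (mul_pos hd0 hd0')).1 h1
    subst hg
    refine ⟨rfl, (hF_iff e.m0 e.eight hd₀ hd).2 fun p hp hpm => ?_⟩
    obtain ⟨s, hs⟩ := h2 p ((e.m_prime hp.out).1 hpm)
    have hU : ((UU g : ℤ) : ℚ_[p]) ≠ 0 := by exact_mod_cast UU_ne e.hT g
    refine ⟨s / UU g, ?_⟩
    push_cast at hs ⊢
    field_simp
    linear_combination hs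
  · rintro ⟨rfl, h⟩
    refine ⟨?_, fun p hp hd' => ?_⟩
    · have e1 : UU g * d₀ * (UU g * d) = UU g ^ 2 * ((d : ℤ) * d₀) := by ring
      have := UU_ne e.hT g
      rw [e1]
      positivity
    · obtain ⟨s, hs⟩ := (hF_iff e.m0 e.eight hd₀ hd).1 h p ((e.m_prime hp.out).2 hd')
      refine ⟨s * UU g, ?_⟩
      push_cast at hs ⊢
      linear_combination ((UU g : ℤ) : ℚ_[p]) ^ 2 * hs

end Cd

end Q44.BN
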