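import Pool.Agent.Q44.BN.Fin
import Pool.Agent.W975.BMX.Two
import Pool.Agent.W108.BMX.Two

/-!
# Two examples of balanced classes
-/

set_option autoImplicit false

open scoped Classical

namespace Q44.BN

open Finset
open Pool.Agent.W313.BMX (Splits)
open Pool.Agent.W928.BMX (splits_comm splits_sq splits_real)
open Q44.TI (Loc padic_sq padic_sq2 Loc_of_sq Loc_real)

/-- the number of the classes -/
theorem card_im_of {K : Type} [Field K] {A B : ℤ} (S : Finset ℤ) (h0 : ∀ z ∈ S, (z : K) ≠ 0)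
    (h1 : ∀ z ∈ S, Loc K A B z)
    (h2 : ∀ x : Kˣ, (QuotientGroup.mk x : SQ K) ∈ im K A B → ∃ z ∈ S, IsSquare ((x : K) * z))
    (h3 : ∀ z ∈ S, ∀ z' ∈ S, IsSquare ((z : K) * z') → z = z') :
    Nat.card (im K A B) = S.card := by
  have e : Nat.card (im K A B) = Nat.card S := by
    symm
    refine Nat.card_congr (Equiv.ofBijective (fun z : S =>
      (⟨QuotientGroup.mk (Units.mk0 ((z : ℤ) : K) (h0 z z.2)), (mem_im _).2 (h1 z z.2)⟩ :
        im K A B)) ⟨?_, ?_⟩)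
    · intro z z' h
      have h4 := congrArg Subtype.val h
      simp only at h4
      rw [mk_eq, Units.val_mk0, Units.val_mk0] at h4
      exact Subtype.ext (h3 z z.2 z' z'.2 h4)
    · rintro ⟨c, hc⟩
      obtain ⟨x, rfl⟩ := mk_surj c
      obtain ⟨z, hz, hx⟩ := h2 x hc
      refine ⟨⟨z, hz⟩, Subtype.ext ?_⟩
      show (QuotientGroup.mk (Units.mk0 ((z : ℤ) : K) (h0 z hz)) : SQ K) = QuotientGroup.mk x
      rw [mk_eq, Units.val_mk0, mul_comm]
      exact hx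
  rw [e, Nat.card_eq_fintype_card, Fintype.card_coe]

/-- the representatives over `ℚ_p` -/
theorem rep_p {p : ℕ} [hp : Fact p.Prime] {A B : ℤ} {S : Finset ℤ}
    (h : ∀ (t : ℕ) (m : ℤ), t ≤ 1 → ¬ (p : ℤ) ∣ m → Loc ℚ_[p] A B ((p : ℤ) ^ t * m) →
      ∃ z ∈ S, IsSquare ((((p : ℤ) ^ t * m) * z : ℤ) : ℚ_[p])) (x : ℚ_[p]ˣ)
    (hx : (QuotientGroup.mk x : SQ ℚ_[p]) ∈ im ℚ_[p] A B) : ∃ z ∈ S, IsSquare ((x : ℚ_[p]) * z) := by
  obtain ⟨t, m, c, ht, hm, hc, hxe⟩ := Pool.Agent.W310.BMX.odd4 p (x : ℚ_[p]) x.ne_zero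
  have hm0 : m ≠ 0 := by
    rintro rfl
    exact hm (dvd_zero _)
  have hp0 : (p : ℤ) ≠ 0 := by exact_mod_cast hp.out.ne_zero
  have hn0 : (p : ℤ) ^ t * m ≠ 0 := mul_ne_zero (pow_ne_zero _ hp0) hm0
  have hnK : (((p : ℤ) ^ t * m : ℤ) : ℚ_[p]) ≠ 0 := by exact_mod_cast hn0
  have e1 : (QuotientGroup.mk x : SQ ℚ_[p]) = QuotientGroup.mk (Units.mk0 _ hnK) := by
    rw [mk_eq, Units.val_mk0, hxe]
    exact ⟨(((p : ℤ) ^ t * m : ℤ) : ℚ_[p]) * c, by ring⟩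
  rw [e1, mem_im] at hx
  obtain ⟨z, hz, s, hs⟩ := h t m ht hm hx
  refine ⟨z, hz, s * c, ?_⟩
  rw [hxe]
  push_cast at hs ⊢
  linear_combination c ^ 2 * hs

/-- the representatives over the reals -/
theorem rep_r {A B : ℤ} {S : Finset ℤ} (h1 : 1 ∈ S) (h : (∃ x y : ℝ, x < 0 ∧ y ^ 2 = x ^ 3 +
    (A : ℝ) * x ^ 2 + (B : ℝ) * x) → -1 ∈ S) (x : ℝˣ)
    (hx : (QuotientGroup.mk x : SQ ℝ) ∈ im ℝ A B) : ∃ z ∈ S, IsSquare ((x : ℝ) * z) := by
  obtain ⟨x', y, h2, h3⟩ := hx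
  rw [mk_eq, real_sq] at h3
  rcases lt_or_gt_of_ne x.ne_zero with h4 | h4
  · have h5 : (x' : ℝ) < 0 := by
      rcases lt_or_gt_of_ne x'.ne_zero with h6 | h6
      · exact h6
      · exact absurd h3 (not_le.2 (mul_neg_of_neg_of_pos h4 h6))
    refine ⟨-1, h ⟨x', y, h5, h2⟩, ?_⟩
    rw [real_sq]
    push_cast
    linarith
  · refine ⟨1, h1, ?_⟩
    rw [real_sq]
    push_cast
    linarith

/-- an odd square in `ℚ_2` -/
theorem sq2 {n : ℤ} (hn : n % 2 = 1) (h : IsSquare (n : ℚ_[2])) : n % 8 = 1 := by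
  obtain ⟨k, hk⟩ : ∃ k : ℕ, (k : ℤ) = n % 8 := ⟨(n % 8).toNat, Int.toNat_of_nonneg (by omega)⟩
  have hcase : n % 8 = 1 ∨ n % 8 = 3 ∨ n % 8 = 5 ∨ n % 8 = 7 := by omega
  have h1 : (n * k) % 8 = 1 := by
    rw [hk, Int.mul_emod, Int.emod_emod_of_dvd _ (dvd_refl 8)]
    rcases hcase with h | h | h | h <;> rw [h] <;> norm_num
  have h2 := padic_sq2 h1
  have hn0 : (n : ℚ_[2]) ≠ 0 := by
    have : n ≠ 0 := by
      rintro rfl
      omega
    exact_mod_cast this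
  have h3 : IsSquare ((k : ℤ) : ℚ_[2]) := by
    obtain ⟨s, hs⟩ := h2
    obtain ⟨r, hr⟩ := h
    have hr0 : r ≠ 0 := by
      rintro rfl
      apply hn0
      rw [hr]
      ring
    refine ⟨s / r, ?_⟩
    push_cast at hs ⊢
    rw [hr] at hs
    field_simp
    linear_combination hs
  have h4 := sq_mod_pow h3 3
  have e1 : (2 : ℕ) ^ 3 = 8 := rfl
  rw [e1] at h4
  have key : ∀ j : ℕ, j < 8 → j % 2 = 1 → IsSquare ((j : ℕ) : ZMod 8) → j = 1 := by decide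
  have h5 := key k (by omega) (by omega) h4
  omega

/-- even numbers of exact valuation one are not squares in `ℚ_p` -/
theorem nsq_p {p : ℕ} [hp : Fact p.Prime] {m : ℤ} (hm : ¬ (p : ℤ) ∣ m) :
    ¬ IsSquare ((p * m : ℤ) : ℚ_[p]) := by
  rintro ⟨s, hs⟩
  have hm0 : m ≠ 0 := by
    rintro rfl
    exact hm (dvd_zero _)
  have hp0 : (p : ℤ) ≠ 0 := by exact_mod_cast hp.out.ne_zero
  have hs0 : s ≠ 0 := by
    rintro rfl
    rw [mul_zero] at hs
    exact mul_ne_zero hp0 hm0 (by exact_mod_cast hs)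
  have h1 : Padic.valuation ((p * m : ℤ) : ℚ_[p]) = 1 := by
    rw [Padic.valuation_intCast, padicValInt.mul hp0 hm0, padicValInt_self,
      padicValInt.eq_zero_of_not_dvd hm]
    rfl
  rw [hs, Padic.valuation_mul hs0 hs0] at h1
  omega

theorem tm_two {S : Finset ℕ} (hS : S = {2}) {A B : ℤ} {u v : ℕ} (h2 : imc A B 2 = u)
    (hr : Nat.card (im ℝ A B) = v) : tm S A B = (u * v : ℕ) / 4 := by
  unfold tm
  rw [hS, prod_singleton, h2, hr, card_singleton]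
  norm_num

theorem tm_two_five {S : Finset ℕ} (hS : S = {2, 5}) {A B : ℤ} {u v w : ℕ} (h2 : imc A B 2 = u)
    (h5 : imc A B 5 = v) (hr : Nat.card (im ℝ A B) = w) : tm S A B = (u * v * w : ℕ) / 8 := by
  unfold tm
  rw [hS, prod_insert (by norm_num), prod_singleton, h2, h5, hr,
    card_insert_of_notMem (by norm_num), card_singleton]
  norm_num

end Q44.BN
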