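import Pool.Agent.Q44.BN.Ex

/-!
# The first example
-/

set_option autoImplicit false

open scoped Classical

namespace Q44.BN

open Finset
open Pool.Agent.W313.BMX (Splits)
open Pool.Agent.W928.BMX (splits_comm splits_sq splits_real)
open Q44.TI (Loc padic_sq padic_sq2 Loc_of_sq Loc_real)

theorem nsq_m1 : ¬ IsSquare ((-1 : ℤ) : ℚ_[2]) := fun h => by
  have := sq2 (n := -1) (by norm_num) h
  norm_num at this

theorem nsq_m4 : ¬ IsSquare ((-4 : ℤ) : ℚ_[2]) := fun h => by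
  apply nsq_m1
  obtain ⟨s, hs⟩ := h
  refine ⟨s / 2, ?_⟩
  push_cast at hs ⊢
  linear_combination hs / 4

theorem nsq_2 : ¬ IsSquare ((2 : ℤ) : ℚ_[2]) := by
  have := nsq_p (p := 2) (m := 1) (by norm_num)
  exact this

theorem nsq_m2 : ¬ IsSquare ((-2 : ℤ) : ℚ_[2]) := by
  have := nsq_p (p := 2) (m := -1) (by norm_num)
  exact this

theorem four_dist : ∀ z ∈ ({1, -1, 2, -2} : Finset ℤ), ∀ z' ∈ ({1, -1, 2, -2} : Finset ℤ),
    IsSquare (((z * z' : ℤ)) : ℚ_[2]) → z = z' := by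
  intro z hz z' hz' h
  have n1 := nsq_m1
  have n2 := nsq_m2
  have n3 := nsq_2
  have n4 := nsq_m4
  simp only [mem_insert, mem_singleton] at hz hz'
  rcases hz with rfl | rfl | rfl | rfl <;> rcases hz' with rfl | rfl | rfl | rfl <;>
    first | rfl | exact absurd h n1 | exact absurd h n2 | exact absurd h n3 | exact absurd h n4

/-- `2 ^ t m` with `t ≤ 1` -/
theorem split_t {t : ℕ} (ht : t ≤ 1) (m : ℤ) (P : ℤ → Prop) (h0 : P m) (h1 : P (2 * m)) :
    P (((2 : ℕ) : ℤ) ^ t * m) := by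
  interval_cases t
  · simpa using h0
  · simpa using h1

theorem loc_m1 {D : ℤ} (hD : D % 2 = 1) : Loc ℚ_[2] (4 * D) (2 * D ^ 2) (-1) := by
  obtain ⟨k, hk⟩ : ∃ k, D = 2 * k + 1 := ⟨D / 2, by omega⟩
  have h1 : (-1 + 4 * D - 2 * D ^ 2) % 8 = 1 := by
    have : -1 + 4 * D - 2 * D ^ 2 = 1 + 8 * (-k ^ 2) := by
      rw [hk]
      ring
    rw [this]
    omega
  obtain ⟨s, hs⟩ := padic_sq2 h1
  refine ⟨-1, s, 1, by norm_num, ?_, by push_cast; ring⟩
  push_cast at hs ⊢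
  linear_combination -hs

theorem loc_m2 {D : ℤ} (hD : D % 2 = 1) : Loc ℚ_[2] (4 * D) (2 * D ^ 2) (-2) := by
  obtain ⟨k, hk⟩ : ∃ k, D = 2 * k + 1 := ⟨D / 2, by omega⟩
  have h2 : (k * (k - 1)) % 2 = 0 := by
    rcases Int.emod_two_eq_zero_or_one k with h | h
    · rw [Int.mul_emod, h]
      norm_num
    · have : (k - 1) % 2 = 0 := by omega
      rw [Int.mul_emod, this]
      norm_num
  have h1 : (-2 + 4 * D - D ^ 2) % 8 = 1 := by
    have : -2 + 4 * D - D ^ 2 = 1 - 4 * (k * (k - 1)) := by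
      rw [hk]
      ring
    rw [this]
    omega
  obtain ⟨s, hs⟩ := padic_sq2 h1
  refine ⟨-2, 2 * s, 1, by norm_num, ?_, by push_cast; ring⟩
  push_cast at hs ⊢
  linear_combination -4 * hs

/-- the image over `ℚ_2` -/
theorem ex1_a {D : ℤ} (hD : D % 2 = 1) : imc (4 * D) (2 * D ^ 2) 2 = 4 := by
  have : Fact (2 : ℕ).Prime := ⟨Nat.prime_two⟩
  have hD0 : D ≠ 0 := by
    rintro rfl
    norm_num at hD
  have hB : 2 * D ^ 2 ≠ 0 := mul_ne_zero two_ne_zero (pow_ne_zero 2 hD0)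
  have eC : (4 * D) ^ 2 - 4 * (2 * D ^ 2) = 8 * D ^ 2 := by ring
  have hC : (4 * D) ^ 2 - 4 * (2 * D ^ 2) ≠ 0 := by
    rw [eC]
    exact mul_ne_zero (by norm_num) (pow_ne_zero 2 hD0)
  rw [imc_pos, card_im_of {1, -1, 2, -2}]
  · rfl
  · intro z hz
    simp only [mem_insert, mem_singleton] at hz
    rcases hz with rfl | rfl | rfl | rfl <;> norm_num
  · intro z hz
    simp only [mem_insert, mem_singleton] at hz
    rcases hz with rfl | rfl | rfl | rfl
    · exact Loc_of_sq hB hC (by norm_num) 2 (Or.inl ⟨1, by norm_num⟩)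
    · exact loc_m1 hD
    · exact Loc_of_sq hB hC (by norm_num) 2 (Or.inr ⟨2 * D, by push_cast; ring⟩)
    · exact loc_m2 hD
  · refine rep_p fun t m ht hm hL => ?_
    have hm2 : m % 2 = 1 := by
      push_cast at hm
      omega
    have h1 := orthC hL
    have hDK : (2 * D : ℚ_[2]) ≠ 0 := mul_ne_zero two_ne_zero (by exact_mod_cast hD0)
    have e2 : (((4 * D) ^ 2 - 4 * (2 * D ^ 2) : ℤ) : ℚ_[2]) = 2 * (2 * D : ℚ_[2]) ^ 2 := by
      rw [eC]
      push_cast
      ring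
    rw [e2, splits_comm, splits_sq hDK, splits_comm] at h1
    have h5 := Pool.Agent.W108.BMX.two5 m hm2
    have h6 : m % 8 = 1 ∨ m % 8 = 7 := by
      revert h1
      refine split_t ht m (fun n => Splits ((n : ℤ) : ℚ_[2]) 2 → m % 8 = 1 ∨ m % 8 = 7) ?_ ?_
      · exact h5.1.1
      · exact h5.2.1
    rcases h6 with h6 | h6
    · obtain ⟨s, hs⟩ := padic_sq2 h6
      interval_cases t
      · refine ⟨1, by simp, s, ?_⟩
        push_cast at hs ⊢
        linear_combination hs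
      · refine ⟨2, by simp, 2 * s, ?_⟩
        push_cast at hs ⊢
        linear_combination 4 * hs
    · have h7 : (-m) % 8 = 1 := by omega
      obtain ⟨s, hs⟩ := padic_sq2 h7
      interval_cases t
      · refine ⟨-1, by simp, s, ?_⟩
        push_cast at hs ⊢
        linear_combination hs
      · refine ⟨-2, by simp, 2 * s, ?_⟩
        push_cast at hs ⊢
        linear_combination 4 * hs
  · intro z hz z' hz' h
    refine four_dist z hz z' hz' ?_
    push_cast
    exact h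

/-- the dual image over `ℚ_2` -/
theorem ex1_b {D : ℤ} (hD : D % 2 = 1) :
    imc (-2 * (4 * D)) ((4 * D) ^ 2 - 4 * (2 * D ^ 2)) 2 = 2 := by
  have : Fact (2 : ℕ).Prime := ⟨Nat.prime_two⟩
  have hD0 : D ≠ 0 := by
    rintro rfl
    norm_num at hD
  have eC : (4 * D) ^ 2 - 4 * (2 * D ^ 2) = 8 * D ^ 2 := by ring
  have hC : (4 * D) ^ 2 - 4 * (2 * D ^ 2) ≠ 0 := by
    rw [eC]
    exact mul_ne_zero (by norm_num) (pow_ne_zero 2 hD0)
  have eB : (-2 * (4 * D)) ^ 2 - 4 * ((4 * D) ^ 2 - 4 * (2 * D ^ 2)) = 32 * D ^ 2 := by ring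
  have hB : (-2 * (4 * D)) ^ 2 - 4 * ((4 * D) ^ 2 - 4 * (2 * D ^ 2)) ≠ 0 := by
    rw [eB]
    exact mul_ne_zero (by norm_num) (pow_ne_zero 2 hD0)
  rw [imc_pos, card_im_of {1, 2}]
  · rfl
  · intro z hz
    simp only [mem_insert, mem_singleton] at hz
    rcases hz with rfl | rfl <;> norm_num
  · intro z hz
    simp only [mem_insert, mem_singleton] at hz
    rcases hz with rfl | rfl
    · exact Loc_of_sq hC hB (by norm_num) 2 (Or.inl ⟨1, by norm_num⟩)
    · exact Loc_of_sq hC hB (by norm_num) 2 (Or.inr ⟨4 * D, by push_cast; ring⟩)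
  · refine rep_p fun t m ht hm hL => ?_
    have hm2 : m % 2 = 1 := by
      push_cast at hm
      omega
    have h1 := orthC hL
    have hDK : (4 * D : ℚ_[2]) ≠ 0 := mul_ne_zero (by norm_num) (by exact_mod_cast hD0)
    have e2 : (((-2 * (4 * D)) ^ 2 - 4 * ((4 * D) ^ 2 - 4 * (2 * D ^ 2)) : ℤ) : ℚ_[2]) =
        2 * (4 * D : ℚ_[2]) ^ 2 := by
      rw [eB]
      push_cast
      ring
    rw [e2, splits_comm, splits_sq hDK, splits_comm] at h1
    have h5 := Pool.Agent.W108.BMX.two5 m hm2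
    have h6 : m % 8 = 1 ∨ m % 8 = 7 := by
      revert h1
      refine split_t ht m (fun n => Splits ((n : ℤ) : ℚ_[2]) 2 → m % 8 = 1 ∨ m % 8 = 7) ?_ ?_
      · exact h5.1.1
      · exact h5.2.1
    have h2 : Splits ((((2 : ℕ) : ℤ) ^ t * m : ℤ) : ℚ_[2]) (-1) := by
      have h3 := orth two_ne_zero (loc_m1 hD) hL
      rw [splits_comm] at h3
      have e3 : (((-1 : ℤ)) : ℚ_[2]) = -1 := by norm_num
      rw [e3] at h3
      exact h3
    have h4 := Pool.Agent.W108.BMX.two4 m hm2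
    have h7 : m % 4 = 1 := by
      revert h2
      refine split_t ht m (fun n => Splits ((n : ℤ) : ℚ_[2]) (-1) → m % 4 = 1) ?_ ?_
      · exact h4.1.1
      · exact h4.2.1
    have h8 : m % 8 = 1 := by omega
    obtain ⟨s, hs⟩ := padic_sq2 h8
    interval_cases t
    · refine ⟨1, by simp, s, ?_⟩
      push_cast at hs ⊢
      linear_combination hs
    · refine ⟨2, by simp, 2 * s, ?_⟩
      push_cast at hs ⊢
      linear_combination 4 * hs
  · intro z hz z' hz' h
    have hs : ({1, 2} : Finset ℤ) ⊆ {1, -1, 2, -2} := by decide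
    refine four_dist z (hs hz) z' (hs hz') ?_
    push_cast
    exact h

/-- only positive abscissae -/
theorem card_real_one {A B : ℤ} (hA : A < 0) (hB : 0 < B) (hC : A ^ 2 - 4 * B ≠ 0) :
    Nat.card (im ℝ A B) = 1 := by
  rw [card_im_of {1}]
  · rfl
  · intro z hz
    rw [mem_singleton] at hz
    rw [hz]
    norm_num
  · intro z hz
    rw [mem_singleton] at hz
    rw [hz]
    exact Loc_real hB.ne' hC one_pos
  · refine rep_r (by simp) fun h => ?_
    exfalso
    obtain ⟨x, y, hx, hy⟩ := h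
    have hA' : (A : ℝ) < 0 := by exact_mod_cast hA
    have hB' : (0 : ℝ) < B := by exact_mod_cast hB
    have hx0 : x ≠ 0 := hx.ne
    have h1 : x ^ 3 < 0 := by
      have : 0 < x ^ 2 := by positivity
      nlinarith
    have h2 : (A : ℝ) * x ^ 2 < 0 := mul_neg_of_neg_of_pos hA' (by positivity)
    have h3 : (B : ℝ) * x < 0 := mul_neg_of_pos_of_neg hB' hx
    nlinarith [sq_nonneg y]
  · intro z hz z' hz' _
    rw [mem_singleton] at hz hz'
    rw [hz, hz']

/-- abscissae of both signs -/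
theorem card_real_two {A B : ℤ} (hB : B ≠ 0) (hC : A ^ 2 - 4 * B ≠ 0)
    (h : ∃ x : ℝ, x < 0 ∧ 0 ≤ x ^ 3 + (A : ℝ) * x ^ 2 + (B : ℝ) * x) :
    Nat.card (im ℝ A B) = 2 := by
  obtain ⟨x, hx, hy⟩ := h
  rw [card_im_of {1, -1}]
  · rfl
  · intro z hz
    simp only [mem_insert, mem_singleton] at hz
    rcases hz with rfl | rfl <;> norm_num
  · intro z hz
    simp only [mem_insert, mem_singleton] at hz
    rcases hz with rfl | rfl
    · exact Loc_real hB hC one_pos
    · refine ⟨x, Real.sqrt (x ^ 3 + (A : ℝ) * x ^ 2 + (B : ℝ) * x), Real.sqrt (-x), hx.ne,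
        Real.sq_sqrt hy, ?_⟩
      rw [Real.sq_sqrt (by linarith)]
      push_cast
      ring
  · exact rep_r (by simp) fun _ => by simp
  · intro z hz z' hz' h
    rw [real_sq] at h
    simp only [mem_insert, mem_singleton] at hz hz'
    rcases hz with rfl | rfl <;> rcases hz' with rfl | rfl
    · rfl
    · norm_num at h
    · norm_num at h
    · rfl

theorem ex1_r {D : ℤ} (hD : D < 0) : Nat.card (im ℝ (4 * D) (2 * D ^ 2)) = 1 := by
  have hD0 : D ≠ 0 := hD.ne
  refine card_real_one (by linarith) (by positivity) ?_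
  have e : (4 * D) ^ 2 - 4 * (2 * D ^ 2) = 8 * D ^ 2 := by ring
  rw [e]
  positivity

theorem ex1_s {D : ℤ} (hD : D < 0) :
    Nat.card (im ℝ (-2 * (4 * D)) ((4 * D) ^ 2 - 4 * (2 * D ^ 2))) = 2 := by
  have hD0 : D ≠ 0 := hD.ne
  have e : (4 * D) ^ 2 - 4 * (2 * D ^ 2) = 8 * D ^ 2 := by ring
  have e' : (-2 * (4 * D)) ^ 2 - 4 * (8 * D ^ 2) = 32 * D ^ 2 := by ring
  rw [e]
  refine card_real_two (by positivity) ?_ ?_
  · rw [e']
    positivity
  · have hD' : (D : ℝ) < 0 := by exact_mod_cast hD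
    refine ⟨4 * D, by linarith, ?_⟩
    have hD1 : (D : ℝ) ≠ 0 := hD'.ne
    have h1 : (D : ℝ) ^ 3 < 0 := by
      have : (0 : ℝ) < (D : ℝ) ^ 2 := by positivity
      nlinarith
    push_cast
    nlinarith

/-- **the first example** -/
theorem ex1 {D : ℤ} (hD : D % 2 = 1) (hD0 : D < 0) : tm {2} (4 * D) (2 * D ^ 2) = 1 ∧
    tm {2} (-2 * (4 * D)) ((4 * D) ^ 2 - 4 * (2 * D ^ 2)) = 1 := by
  rw [tm_two rfl (ex1_a hD) (ex1_r hD0), tm_two rfl (ex1_b hD) (ex1_s hD0)]
  norm_num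

end Q44.BN
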