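import Pool.Agent.Q44.BN.Ex1

/-!
# The second example
-/

set_option autoImplicit false

open scoped Classical

namespace Q44.BN

open Finset
open Pool.Agent.W313.BMX (Splits)
open Pool.Agent.W928.BMX (splits_comm splits_sq splits_real)
open Q44.TI (Loc padic_sq padic_sq2 Loc_of_sq Loc_real nz_of)

theorem fact5 : Fact (5 : ℕ).Prime := ⟨by norm_num⟩

attribute [local instance] fact5

/-- the image over `ℚ_5` -/
theorem card5 {A B k : ℤ} (hB : B ≠ 0) (hk : k ≠ 0) (hC : A ^ 2 - 4 * B = 5 * k ^ 2)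
    (hb : IsSquare (5 * B)) : Nat.card (im ℚ_[5] A B) = 2 := by
  have hC0 : A ^ 2 - 4 * B ≠ 0 := by
    rw [hC]
    positivity
  rw [card_im_of {1, 5}]
  · rfl
  · intro z hz
    simp only [mem_insert, mem_singleton] at hz
    rcases hz with rfl | rfl <;> norm_num
  · intro z hz
    simp only [mem_insert, mem_singleton] at hz
    rcases hz with rfl | rfl
    · exact Loc_of_sq hB hC0 (by norm_num) 5 (Or.inl ⟨1, by norm_num⟩)
    · obtain ⟨s, hs⟩ := hb
      refine Loc_of_sq hB hC0 (by norm_num) 5 (Or.inr ⟨s, ?_⟩)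
      exact_mod_cast hs
  · refine rep_p fun t m ht hm hL => ?_
    have h1 := orthC hL
    have hkK : (k : ℚ_[5]) ≠ 0 := by exact_mod_cast hk
    have e2 : ((A ^ 2 - 4 * B : ℤ) : ℚ_[5]) = 5 * (k : ℚ_[5]) ^ 2 := by
      rw [hC]
      push_cast
      ring
    rw [e2, splits_comm, splits_sq hkK] at h1
    have hm0 : m ≠ 0 := by
      rintro rfl
      exact hm (dvd_zero _)
    have h55 : Splits (((5 : ℤ)) : ℚ_[5]) ((5 : ℤ) : ℚ_[5]) :=
      ⟨1, 2, 5, Or.inl one_ne_zero, by norm_num⟩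
    have e5 : (((5 : ℤ)) : ℚ_[5]) = 5 := by norm_num
    have h2 : Splits (5 : ℚ_[5]) (m : ℚ_[5]) := by
      interval_cases t
      · have e3 : ((((5 : ℕ) : ℤ) ^ 0 * m : ℤ) : ℚ_[5]) = (m : ℚ_[5]) := by
          push_cast
          ring
        rw [e3] at h1
        exact h1
      · have e3 : (((5 : ℕ) : ℤ) ^ 1 * m : ℤ) = 5 * m := by
          push_cast
          ring
        rw [e3] at h1
        have h4 := (Pool.Agent.W215.HB.bilo_ 5 (by norm_num) 5 5 m (by norm_num) (by norm_num)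
          hm0).1 (by rw [e5]; exact h1)
        have h6 := h4.1 h55
        rw [e5] at h6
        exact h6
    have hnd1 : ¬ ((5 : ℕ) : ℤ) ∣ 1 := by norm_num
    have h3 := Pool.Agent.W335.BMX.odd3 5 (by norm_num) 1 m hnd1 hm
    have e4 : ((((5 : ℕ) : ℤ) * 1 : ℤ) : ℚ_[5]) = 5 := by norm_num
    rw [e4] at h3
    have h6 := h3.1 h2
    rw [legendreSym.eq_one_iff _ (nz_of hm)] at h6
    obtain ⟨s, hs⟩ := padic_sq (p := 5) (by norm_num) hm h6
    interval_cases t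
    · refine ⟨1, by simp, s, ?_⟩
      push_cast at hs ⊢
      linear_combination hs
    · refine ⟨5, by simp, 5 * s, ?_⟩
      push_cast at hs ⊢
      linear_combination 25 * hs
  · intro z hz z' hz' h
    have n1 : ¬ IsSquare ((5 : ℤ) : ℚ_[5]) := nsq_p (p := 5) (m := 1) (by norm_num)
    have h' : IsSquare (((z * z' : ℤ)) : ℚ_[5]) := by
      push_cast
      exact h
    simp only [mem_insert, mem_singleton] at hz hz'
    rcases hz with rfl | rfl <;> rcases hz' with rfl | rfl <;>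
      first | rfl | exact absurd h' n1

theorem five_dist : ∀ z ∈ ({1, -1, 5, -5} : Finset ℤ), ∀ z' ∈ ({1, -1, 5, -5} : Finset ℤ),
    IsSquare (((z * z' : ℤ)) : ℚ_[2]) → z = z' := by
  intro z hz z' hz' h
  have key : z * z' % 2 = 1 → z * z' % 8 = 1 := fun h1 => sq2 h1 h
  simp only [mem_insert, mem_singleton] at hz hz'
  rcases hz with rfl | rfl | rfl | rfl <;> rcases hz' with rfl | rfl | rfl | rfl <;>
    first | rfl | (exfalso; revert key; decide)

theorem loc2_m1 {k : ℤ} (hk : k % 2 = 1) :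
    Loc ℚ_[2] (5 * (2 * k)) (5 * (2 * k) ^ 2) (-1) := by
  have h4 : k % 4 = 1 ∨ k % 4 = 3 := by omega
  rcases h4 with h | h
  · obtain ⟨j, hj⟩ : ∃ j, k = 4 * j + 1 := ⟨k / 4, by omega⟩
    have h1 : (-4 + 10 * k - 5 * k ^ 2) % 8 = 1 := by
      have : -4 + 10 * k - 5 * k ^ 2 = 1 + 8 * (-10 * j ^ 2) := by
        rw [hj]
        ring
      rw [this]
      omega
    obtain ⟨s, hs⟩ := padic_sq2 h1
    refine ⟨-4, 4 * s, 2, by norm_num, ?_, by push_cast; ring⟩
    push_cast at hs ⊢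
    linear_combination -16 * hs
  · obtain ⟨j, hj⟩ : ∃ j, k = 4 * j + 3 := ⟨k / 4, by omega⟩
    have h1 : (-1 + 10 * k - 20 * k ^ 2) % 8 = 1 := by
      have : -1 + 10 * k - 20 * k ^ 2 = 1 + 8 * (-40 * j ^ 2 - 55 * j - 19) := by
        rw [hj]
        ring
      rw [this]
      omega
    obtain ⟨s, hs⟩ := padic_sq2 h1
    refine ⟨-1, s, 1, by norm_num, ?_, by push_cast; ring⟩
    push_cast at hs ⊢
    linear_combination -hs

/-- the representatives with trivial symbol with `5` are odd -/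
theorem odd_of_five {t : ℕ} {m : ℤ} (ht : t ≤ 1) (hm : m % 2 = 1)
    (h : Splits ((((2 : ℕ) : ℤ) ^ t * m : ℤ) : ℚ_[2]) 5) : t = 0 := by
  interval_cases t
  · rfl
  · exfalso
    have h1 := Pool.Agent.W975.BMX.two3 m 5 hm (by norm_num)
    have e1 : (((2 : ℕ) : ℤ) ^ 1 * m : ℤ) = 2 * m := by
      push_cast
      ring
    have e5 : (((5 : ℤ)) : ℚ_[2]) = 5 := by norm_num
    rw [e1, ← e5, h1] at h
    norm_num at h

/-- the image over `ℚ_2` -/
theorem ex2_a {D : ℤ} (hD : D % 4 = 2) : imc (5 * D) (5 * D ^ 2) 2 = 4 := by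
  have : Fact (2 : ℕ).Prime := ⟨Nat.prime_two⟩
  obtain ⟨k, rfl⟩ : ∃ k, D = 2 * k := ⟨D / 2, by omega⟩
  have hk : k % 2 = 1 := by omega
  have hk0 : k ≠ 0 := by
    rintro rfl
    norm_num at hk
  have hB : 5 * (2 * k) ^ 2 ≠ 0 := by positivity
  have eC : (5 * (2 * k)) ^ 2 - 4 * (5 * (2 * k) ^ 2) = 5 * (2 * k) ^ 2 := by ring
  have hC : (5 * (2 * k)) ^ 2 - 4 * (5 * (2 * k) ^ 2) ≠ 0 := by
    rw [eC]
    positivity
  have l5 : Loc ℚ_[2] (5 * (2 * k)) (5 * (2 * k) ^ 2) 5 :=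
    Loc_of_sq hB hC (by norm_num) 2 (Or.inr ⟨10 * k, by push_cast; ring⟩)
  rw [imc_pos, card_im_of {1, -1, 5, -5}]
  · rfl
  · intro z hz
    simp only [mem_insert, mem_singleton] at hz
    rcases hz with rfl | rfl | rfl | rfl <;> norm_num
  · intro z hz
    simp only [mem_insert, mem_singleton] at hz
    rcases hz with rfl | rfl | rfl | rfl
    · exact Loc_of_sq hB hC (by norm_num) 2 (Or.inl ⟨1, by norm_num⟩)
    · exact loc2_m1 hk
    · exact l5
    · rcases Loc_prod (z := -1) (z' := 5) (by norm_num) (by norm_num) (loc2_m1 hk) l5 with h | h | h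
      · exfalso
        have h' : IsSquare (((-5 : ℤ)) : ℚ_[2]) := by
          obtain ⟨s, hs⟩ := h
          refine ⟨s, ?_⟩
          push_cast at hs ⊢
          linear_combination hs
        have := sq2 (n := -5) (by norm_num) h'
        norm_num at this
      · exfalso
        apply nsq_m1
        obtain ⟨s, hs⟩ := h
        have hkK : (k : ℚ_[2]) ≠ 0 := by exact_mod_cast hk0
        refine ⟨s / (10 * k), ?_⟩
        push_cast at hs ⊢
        field_simp
        linear_combination hs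
      · exact h
  · refine rep_p fun t m ht hm hL => ?_
    have hm2 : m % 2 = 1 := by
      push_cast at hm
      omega
    have h1 := orthC hL
    have hDK : (2 * k : ℚ_[2]) ≠ 0 := mul_ne_zero two_ne_zero (by exact_mod_cast hk0)
    have e2 : (((5 * (2 * k)) ^ 2 - 4 * (5 * (2 * k) ^ 2) : ℤ) : ℚ_[2]) =
        5 * (2 * k : ℚ_[2]) ^ 2 := by
      rw [eC]
      push_cast
      ring
    rw [e2, splits_comm, splits_sq hDK, splits_comm] at h1
    have ht0 := odd_of_five ht hm2 h1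
    subst ht0
    have h8 : m % 8 = 1 ∨ m % 8 = 3 ∨ m % 8 = 5 ∨ m % 8 = 7 := by omega
    have key : ∀ z : ℤ, (m * z) % 8 = 1 → IsSquare (((((2 : ℕ) : ℤ) ^ 0 * m) * z : ℤ) : ℚ_[2]) := by
      intro z hz
      have e3 : (((2 : ℕ) : ℤ) ^ 0 * m) * z = m * z := by ring
      rw [e3]
      exact padic_sq2 hz
    rcases h8 with h | h | h | h
    · exact ⟨1, by simp, key 1 (by omega)⟩
    · exact ⟨-5, by simp, key (-5) (by omega)⟩
    · exact ⟨5, by simp, key 5 (by omega)⟩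
    · exact ⟨-1, by simp, key (-1) (by omega)⟩
  · intro z hz z' hz' h
    refine five_dist z hz z' hz' ?_
    push_cast
    exact h

/-- the dual image over `ℚ_2` -/
theorem ex2_b {D : ℤ} (hD : D % 4 = 2) :
    imc (-2 * (5 * D)) ((5 * D) ^ 2 - 4 * (5 * D ^ 2)) 2 = 2 := by
  have : Fact (2 : ℕ).Prime := ⟨Nat.prime_two⟩
  obtain ⟨k, rfl⟩ : ∃ k, D = 2 * k := ⟨D / 2, by omega⟩
  have hk : k % 2 = 1 := by omega
  have hk0 : k ≠ 0 := by
    rintro rfl
    norm_num at hk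
  have eC : (5 * (2 * k)) ^ 2 - 4 * (5 * (2 * k) ^ 2) = 5 * (2 * k) ^ 2 := by ring
  have hC : (5 * (2 * k)) ^ 2 - 4 * (5 * (2 * k) ^ 2) ≠ 0 := by
    rw [eC]
    positivity
  have eB : (-2 * (5 * (2 * k))) ^ 2 - 4 * ((5 * (2 * k)) ^ 2 - 4 * (5 * (2 * k) ^ 2)) =
      5 * (8 * k) ^ 2 := by ring
  have hB : (-2 * (5 * (2 * k))) ^ 2 - 4 * ((5 * (2 * k)) ^ 2 - 4 * (5 * (2 * k) ^ 2)) ≠ 0 := by
    rw [eB]
    positivity
  rw [imc_pos, card_im_of {1, 5}]
  · rfl
  · intro z hz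
    simp only [mem_insert, mem_singleton] at hz
    rcases hz with rfl | rfl <;> norm_num
  · intro z hz
    simp only [mem_insert, mem_singleton] at hz
    rcases hz with rfl | rfl
    · exact Loc_of_sq hC hB (by norm_num) 2 (Or.inl ⟨1, by norm_num⟩)
    · exact Loc_of_sq hC hB (by norm_num) 2 (Or.inr ⟨10 * k, by push_cast; ring⟩)
  · refine rep_p fun t m ht hm hL => ?_
    have hm2 : m % 2 = 1 := by
      push_cast at hm
      omega
    have h1 := orthC hL
    have hDK : (8 * k : ℚ_[2]) ≠ 0 := mul_ne_zero (by norm_num) (by exact_mod_cast hk0)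
    have e2 : (((-2 * (5 * (2 * k))) ^ 2 - 4 * ((5 * (2 * k)) ^ 2 - 4 * (5 * (2 * k) ^ 2)) : ℤ) :
        ℚ_[2]) = 5 * (8 * k : ℚ_[2]) ^ 2 := by
      rw [eB]
      push_cast
      ring
    rw [e2, splits_comm, splits_sq hDK, splits_comm] at h1
    have ht0 := odd_of_five ht hm2 h1
    subst ht0
    have h2 : Splits ((m : ℤ) : ℚ_[2]) (-1) := by
      have h3 := orth two_ne_zero (loc2_m1 hk) hL
      rw [splits_comm] at h3
      have e3 : (((-1 : ℤ)) : ℚ_[2]) = -1 := by norm_num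
      have e4 : (((2 : ℕ) : ℤ) ^ 0 * m : ℤ) = m := by ring
      rw [e3, e4] at h3
      exact h3
    have h7 := (Pool.Agent.W108.BMX.two4 m hm2).1.1 h2
    have h8 : m % 8 = 1 ∨ m % 8 = 5 := by omega
    have key : ∀ z : ℤ, (m * z) % 8 = 1 → IsSquare (((((2 : ℕ) : ℤ) ^ 0 * m) * z : ℤ) : ℚ_[2]) := by
      intro z hz
      have e3 : (((2 : ℕ) : ℤ) ^ 0 * m) * z = m * z := by ring
      rw [e3]
      exact padic_sq2 hz
    rcases h8 with h | h
    · exact ⟨1, by simp, key 1 (by omega)⟩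
    · exact ⟨5, by simp, key 5 (by omega)⟩
  · intro z hz z' hz' h
    have hs : ({1, 5} : Finset ℤ) ⊆ {1, -1, 5, -5} := by decide
    refine five_dist z (hs hz) z' (hs hz') ?_
    push_cast
    exact h

theorem ex2_c {D : ℤ} (hD : D ≠ 0) : imc (5 * D) (5 * D ^ 2) 5 = 2 := by
  rw [imc_pos]
  exact card5 (k := D) (by positivity) hD (by ring) ⟨5 * D, by ring⟩

theorem ex2_d {D : ℤ} (hD : D ≠ 0) :
    imc (-2 * (5 * D)) ((5 * D) ^ 2 - 4 * (5 * D ^ 2)) 5 = 2 := by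
  have eC : (5 * D) ^ 2 - 4 * (5 * D ^ 2) = 5 * D ^ 2 := by ring
  rw [imc_pos, eC]
  exact card5 (k := 4 * D) (by positivity) (by positivity) (by ring) ⟨5 * D, by ring⟩

theorem ex2_r {D : ℤ} (hD : D < 0) : Nat.card (im ℝ (5 * D) (5 * D ^ 2)) = 1 := by
  have hD0 : D ≠ 0 := hD.ne
  refine card_real_one (by linarith) (by positivity) ?_
  have e : (5 * D) ^ 2 - 4 * (5 * D ^ 2) = 5 * D ^ 2 := by ring
  rw [e]
  positivity

theorem ex2_s {D : ℤ} (hD : D < 0) :
    Nat.card (im ℝ (-2 * (5 * D)) ((5 * D) ^ 2 - 4 * (5 * D ^ 2))) = 2 := by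
  have hD0 : D ≠ 0 := hD.ne
  have e : (5 * D) ^ 2 - 4 * (5 * D ^ 2) = 5 * D ^ 2 := by ring
  have e' : (-2 * (5 * D)) ^ 2 - 4 * (5 * D ^ 2) = 80 * D ^ 2 := by ring
  rw [e]
  refine card_real_two (by positivity) ?_ ?_
  · rw [e']
    positivity
  · have hD' : (D : ℝ) < 0 := by exact_mod_cast hD
    refine ⟨5 * D, by linarith, ?_⟩
    have hD1 : (D : ℝ) ≠ 0 := hD'.ne
    have h1 : (D : ℝ) ^ 3 < 0 := by
      have : (0 : ℝ) < (D : ℝ) ^ 2 := by positivity
      nlinarith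
    push_cast
    nlinarith

/-- **the second example** -/
theorem ex2 {D : ℤ} (hD : D % 4 = 2) (hD0 : D < 0) : tm {2, 5} (5 * D) (5 * D ^ 2) = 1 ∧
    tm {2, 5} (-2 * (5 * D)) ((5 * D) ^ 2 - 4 * (5 * D ^ 2)) = 1 := by
  rw [tm_two_five rfl (ex2_a hD) (ex2_c hD0.ne) (ex2_r hD0),
    tm_two_five rfl (ex2_b hD) (ex2_d hD0.ne) (ex2_s hD0)]
  norm_num

end Q44.BN
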