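import Pool.Agent.Q44.BN.Pub
import Pool.Agent.Q44.BP.Lc
import Pool.Agent.Q121.JQ.LSZb

/-!
# Every curve has balanced local classes
-/

set_option autoImplicit false

open scoped Classical

namespace Q44.BN

open Finset Filter Topology
open Q44.BC (lam)
open Q44.TI (Loc padic_sq padic_sq2 Loc_of_sq Loc_real nz_of)
open Q44.BP (rep_z pm_ne)
open Pool.Agent.W313.BMX (Splits)
open Pool.Agent.Y676.HS (hs BL hs_comm hs_mul' hs_sq bl_padic)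
open Pool.Agent.Q121.JQ (HQ HQ_mk iso_card nd_odd SC_odd SC_two)

section loc

variable {p : ℕ} [hp : Fact p.Prime]

/-- a class is the class of an integer -/
theorem cls_int (c : SQ ℚ_[p]) : ∃ (z : ℤ) (hz : ((z : ℤ) : ℚ_[p]) ≠ 0), z ≠ 0 ∧
    c = QuotientGroup.mk (Units.mk0 _ hz) := by
  obtain ⟨x, rfl⟩ := mk_surj c
  obtain ⟨t, m, c, ht, hm, hc, hx⟩ := rep_z (x : ℚ_[p]) x.ne_zero
  have h0 := pm_ne (p := p) (t := t) hm
  refine ⟨(p : ℤ) ^ t * m, by exact_mod_cast h0, h0, ?_⟩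
  rw [mk_eq, Units.val_mk0, hx]
  exact ⟨(((p : ℤ) ^ t * m : ℤ) : ℚ_[p]) * c, by ring⟩

theorem sq_one (c : SQ ℚ_[p]) : c * c = 1 := Pool.Agent.Q121.JQ.SC_sq c

/-- the local image is a subgroup -/
noncomputable def imS (p : ℕ) [Fact p.Prime] {A B : ℤ} (hB : B ≠ 0) (hC : A ^ 2 - 4 * B ≠ 0) :
    Subgroup (SQ ℚ_[p]) where
  carrier := im ℚ_[p] A B
  one_mem' := by
    have h : Loc ℚ_[p] A B 1 := Loc_of_sq hB hC one_ne_zero p (Or.inl ⟨1, by norm_num⟩)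
    have h1 : ((1 : ℤ) : ℚ_[p]) ≠ 0 := by norm_num
    have h2 := (mem_im h1).2 h
    have e : (QuotientGroup.mk (Units.mk0 ((1 : ℤ) : ℚ_[p]) h1) : SQ ℚ_[p]) = 1 := by
      rw [← QuotientGroup.mk_one, mk_eq, Units.val_mk0, Units.val_one]
      exact ⟨1, by norm_num⟩
    rwa [e] at h2
  mul_mem' := by
    intro c d hc hd
    obtain ⟨z, hz, hz0, rfl⟩ := cls_int c
    obtain ⟨w, hw, hw0, rfl⟩ := cls_int d
    rw [mem_im] at hc hd
    have h := Loc_mul_p hB hC hz0 hw0 p hc hd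
    have hzw : ((z * w : ℤ) : ℚ_[p]) ≠ 0 := by
      push_cast
      exact mul_ne_zero hz hw
    have h1 := (mem_im hzw).2 h
    have e : (QuotientGroup.mk (Units.mk0 ((z * w : ℤ) : ℚ_[p]) hzw) : SQ ℚ_[p]) =
        QuotientGroup.mk (Units.mk0 _ hz) * QuotientGroup.mk (Units.mk0 _ hw) := by
      rw [← QuotientGroup.mk_mul, mk_eq, Units.val_mk0, Units.val_mul, Units.val_mk0, Units.val_mk0]
      exact ⟨(z : ℚ_[p]) * w, by push_cast; ring⟩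
    rwa [e] at h1
  inv_mem' := by
    intro c hc
    have e : c⁻¹ = c := inv_eq_of_mul_eq_one_left (sq_one c)
    rw [e]
    exact hc

theorem hm_orth {A B : ℤ} {c d : SQ ℚ_[p]} (hc : c ∈ im ℚ_[p] A B)
    (hd : d ∈ im ℚ_[p] (-2 * A) (A ^ 2 - 4 * B)) : HQ c d = 1 := by
  obtain ⟨z, hz, hz0, rfl⟩ := cls_int c
  obtain ⟨w, hw, hw0, rfl⟩ := cls_int d
  rw [mem_im] at hc hd
  have h := orth two_ne_zero hc hd
  have e : HQ (QuotientGroup.mk (Units.mk0 ((z : ℤ) : ℚ_[p]) hz) : SQ ℚ_[p])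
      (QuotientGroup.mk (Units.mk0 ((w : ℤ) : ℚ_[p]) hw)) = hs (z : ℚ_[p]) (w : ℚ_[p]) := HQ_mk _ _
  rw [e]
  unfold hs
  rw [if_pos h]

/-- **the orders of the two local images** -/
theorem im_mul_le [Finite (SQ ℚ_[p])]
    (hnd : ∀ u : ℚ_[p], u ≠ 0 → ¬ IsSquare u → ∃ v, v ≠ 0 ∧ ¬ Splits u v)
    {A B : ℤ} (hB : B ≠ 0) (hC : A ^ 2 - 4 * B ≠ 0) :
    Nat.card (im ℚ_[p] A B) * Nat.card (im ℚ_[p] (-2 * A) (A ^ 2 - 4 * B)) ≤
      Nat.card (SQ ℚ_[p]) := by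
  have hC' : (-2 * A) ^ 2 - 4 * (A ^ 2 - 4 * B) ≠ 0 := by
    have e : (-2 * A) ^ 2 - 4 * (A ^ 2 - 4 * B) = 16 * B := by ring
    rw [e]
    exact mul_ne_zero (by norm_num) hB
  have h1 : ∀ x y : SQ ℚ_[p], HQ x y * HQ x y = 1 := fun x y => by
    unfold HQ
    exact hs_sq _ _
  have h2 : ∀ x y z : SQ ℚ_[p], HQ (x * y) z = HQ x z * HQ y z := by
    intro x y z
    obtain ⟨x, rfl⟩ := QuotientGroup.mk_surjective x
    obtain ⟨y, rfl⟩ := QuotientGroup.mk_surjective y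
    obtain ⟨z, rfl⟩ := QuotientGroup.mk_surjective z
    rw [← QuotientGroup.mk_mul, HQ_mk, HQ_mk, HQ_mk, Units.val_mul,
      hs_mul' (bl_padic p) z.ne_zero x.ne_zero y.ne_zero]
  have h3 : ∀ x y : SQ ℚ_[p], HQ x y = HQ y x := fun x y => by
    unfold HQ
    exact hs_comm _ _
  have h4 : ∀ x : SQ ℚ_[p], x ≠ 1 → ∃ y, HQ x y ≠ 1 := by
    intro x hx
    obtain ⟨x, rfl⟩ := QuotientGroup.mk_surjective x
    rw [Ne, Pool.Agent.Q121.JQ.mk_one_iff] at hx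
    obtain ⟨v, hv, h⟩ := hnd x x.ne_zero hx
    refine ⟨QuotientGroup.mk (Units.mk0 v hv), ?_⟩
    rw [HQ_mk, Units.val_mk0]
    unfold hs
    rw [if_neg h]
    decide
  have h5 : ∀ x ∈ (imS p hB hC).prod (imS p hC hC'), ∀ y ∈ (imS p hB hC).prod (imS p hC hC'),
      HQ x.1 y.2 * HQ x.2 y.1 = 1 := by
    rintro x ⟨hx1, hx2⟩ y ⟨hy1, hy2⟩
    rw [h3 x.2 y.1, hm_orth hx1 hy2, hm_orth hy1 hx2, one_mul]
  have h6 := iso_card HQ h1 h2 h3 h4 ((imS p hB hC).prod (imS p hC hC')) h5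
  rw [Nat.card_congr (Subgroup.prodEquiv (imS p hB hC) (imS p hC hC')).toEquiv, Nat.card_prod] at h6
  exact h6

/-- a nontrivial local image has even order -/
theorem im_even {A B : ℤ} (hB : B ≠ 0) (hC : A ^ 2 - 4 * B ≠ 0) {c : SQ ℚ_[p]}
    (hc : c ∈ im ℚ_[p] A B) (h1 : c ≠ 1) : 2 ∣ Nat.card (im ℚ_[p] A B) := by
  have h2 : orderOf (⟨c, hc⟩ : imS p hB hC) = 2 := by
    refine orderOf_eq_prime ?_ ?_
    · rw [pow_two]
      exact Subtype.ext (sq_one c)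
    · intro h
      exact h1 (congrArg Subtype.val h)
  have h3 := orderOf_dvd_natCard (⟨c, hc⟩ : imS p hB hC)
  rw [h2] at h3
  exact h3

/-- the images at the odd primes -/
theorem im_odd (hp2 : p ≠ 2) {A B : ℤ} (hB : B ≠ 0) (hC : A ^ 2 - 4 * B ≠ 0) {c d : SQ ℚ_[p]}
    (hc : c ∈ im ℚ_[p] A B) (h1 : c ≠ 1) (hd : d ∈ im ℚ_[p] (-2 * A) (A ^ 2 - 4 * B))
    (h2 : d ≠ 1) : Nat.card (im ℚ_[p] A B) = 2 := by
  have hC' : (-2 * A) ^ 2 - 4 * (A ^ 2 - 4 * B) ≠ 0 := by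
    have e : (-2 * A) ^ 2 - 4 * (A ^ 2 - 4 * B) = 16 * B := by ring
    rw [e]
    exact mul_ne_zero (by norm_num) hB
  obtain ⟨hf, hcard⟩ := SC_odd (p := p) hp2
  have : Finite (SQ ℚ_[p]) := hf
  have k1 := im_mul_le (nd_odd hp2) hB hC
  have k2 : Nat.card (im ℚ_[p] A B) * Nat.card (im ℚ_[p] (-2 * A) (A ^ 2 - 4 * B)) ≤ 4 :=
    k1.trans hcard
  obtain ⟨u, hu⟩ := im_even hB hC hc h1
  obtain ⟨v, hv⟩ := im_even hC hC' hd h2
  have pu : 0 < Nat.card (im ℚ_[p] A B) := by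
    have : Nonempty (im ℚ_[p] A B) := ⟨⟨c, hc⟩⟩
    exact Nat.card_pos
  have pv : 0 < Nat.card (im ℚ_[p] (-2 * A) (A ^ 2 - 4 * B)) := by
    have : Nonempty (im ℚ_[p] (-2 * A) (A ^ 2 - 4 * B)) := ⟨⟨d, hd⟩⟩
    exact Nat.card_pos
  rw [hu, hv] at k2
  rw [hu] at pu ⊢
  rw [hv] at pv
  have k3 : 1 ≤ v := by omega
  have k4 : 2 * u * 2 ≤ 2 * u * (2 * v) := Nat.mul_le_mul_left _ (by omega)
  omega

/-- the images at the prime two -/
theorem im_two [Fact (2 : ℕ).Prime] {A B : ℤ} (hB : B ≠ 0) (hC : A ^ 2 - 4 * B ≠ 0)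
    {c d : SQ ℚ_[2]} (hc : c ∈ im ℚ_[2] A B) (h1 : c ≠ 1)
    (hd : d ∈ im ℚ_[2] (-2 * A) (A ^ 2 - 4 * B)) (h2 : d ≠ 1) :
    Nat.card (im ℚ_[2] A B) = 2 ∨ Nat.card (im ℚ_[2] A B) = 4 := by
  have hC' : (-2 * A) ^ 2 - 4 * (A ^ 2 - 4 * B) ≠ 0 := by
    have e : (-2 * A) ^ 2 - 4 * (A ^ 2 - 4 * B) = 16 * B := by ring
    rw [e]
    exact mul_ne_zero (by norm_num) hB
  obtain ⟨hf, hcard⟩ := SC_two
  have : Finite (SQ ℚ_[2]) := hf
  have k1 := im_mul_le Pool.Agent.Q121.JQ.nd_two hB hC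
  have k2 : Nat.card (im ℚ_[2] A B) * Nat.card (im ℚ_[2] (-2 * A) (A ^ 2 - 4 * B)) ≤ 8 :=
    k1.trans hcard
  obtain ⟨u, hu⟩ := im_even hB hC hc h1
  obtain ⟨v, hv⟩ := im_even hC hC' hd h2
  have pu : 0 < Nat.card (im ℚ_[2] A B) := by
    have : Nonempty (im ℚ_[2] A B) := ⟨⟨c, hc⟩⟩
    exact Nat.card_pos
  have pv : 0 < Nat.card (im ℚ_[2] (-2 * A) (A ^ 2 - 4 * B)) := by
    have : Nonempty (im ℚ_[2] (-2 * A) (A ^ 2 - 4 * B)) := ⟨⟨d, hd⟩⟩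
    exact Nat.card_pos
  rw [hu, hv] at k2
  rw [hu] at pu ⊢
  rw [hv] at pv
  have k4 : 2 * u * 2 ≤ 2 * u * (2 * v) := Nat.mul_le_mul_left _ (by omega)
  omega

/-! ### the choice of the local class -/

/-- an integral unit which is not a square -/
theorem ex_unit (p : ℕ) [hp : Fact p.Prime] : ∃ e : ℤ, ¬ (p : ℤ) ∣ e ∧
    ¬ IsSquare ((e : ℤ) : ℚ_[p]) := by
  by_cases h2 : p = 2
  · subst h2
    refine ⟨3, by norm_num, fun h => ?_⟩
    have := sq2 (n := 3) (by norm_num) h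
    norm_num at this
  · obtain ⟨e, he, h⟩ := ex_nonres (p := p) h2
    obtain ⟨n, hn⟩ : ∃ n : ℕ, (n : ℤ) = e % p :=
      ⟨(e % p).toNat, Int.toNat_of_nonneg (Int.emod_nonneg _ (by exact_mod_cast hp.out.ne_zero))⟩
    have h3 : ((n : ℤ) : ZMod p) = ((e : ℤ) : ZMod p) := by
      rw [hn]
      exact ZMod.intCast_mod e p
    refine ⟨(n : ℤ), fun hd => he ?_, fun hs => ?_⟩
    · have h4 := (ZMod.intCast_zmod_eq_zero_iff_dvd (n : ℤ) p).2 hd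
      rw [h3] at h4
      exact (ZMod.intCast_zmod_eq_zero_iff_dvd e p).1 h4
    · have h4 := sq_mod_pow (p := p) (n := n) hs 1
      rw [pow_one] at h4
      have h5 : IsSquare ((e : ℤ) : ZMod p) := by
        rw [← h3, Int.cast_natCast]
        exact h4
      rw [← Q44.TI.ch_zero, h] at h5
      exact one_ne_zero h5

theorem ex_two (w : ℚ_[p]) (hw : w ≠ 0) : ∃ u : ℚ_[p], u ≠ 0 ∧ ¬ IsSquare u ∧
    ¬ IsSquare (w * u) := by
  obtain ⟨e, he, hne⟩ := ex_unit p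
  have hp0 : (p : ℚ_[p]) ≠ 0 := by exact_mod_cast hp.out.ne_zero
  have he0 : ((e : ℤ) : ℚ_[p]) ≠ 0 := by
    have : e ≠ 0 := by
      rintro rfl
      exact he (dvd_zero _)
    exact_mod_cast this
  have hn1 : ¬ IsSquare (p : ℚ_[p]) := by
    have h := nsq_p (p := p) (m := 1) (fun h => by
      have := Int.eq_one_of_dvd_one (by positivity) h
      exact hp.out.one_lt.ne' (by exact_mod_cast this))
    simpa using h
  have hn2 : ¬ IsSquare ((p : ℚ_[p]) * e) := by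
    have h := nsq_p (p := p) he
    simpa using h
  by_cases h : IsSquare (w * p)
  · refine ⟨e, he0, hne, fun h' => hn2 ?_⟩
    obtain ⟨s, hs⟩ := h
    obtain ⟨t, ht⟩ := h'
    refine ⟨s * t / w, ?_⟩
    field_simp
    linear_combination (w * e) * hs + s ^ 2 * ht
  · exact ⟨p, hp0, hn1, h⟩

/-- transport of nonsquares -/
theorem nsq_tr {t d x : ℚ_[p]} (hd : d ≠ 0) (h : IsSquare (t * d))
    (hx : ¬ IsSquare (t * x)) : ¬ IsSquare (d * x) := by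
  rintro ⟨s, hs⟩
  obtain ⟨r, hr⟩ := h
  apply hx
  refine ⟨r * s / d, ?_⟩
  field_simp
  linear_combination d * x * hr + r ^ 2 * hs

/-- **the local choice** -/
theorem ex_t (p : ℕ) [hp : Fact p.Prime] {a b : ℤ} (hb : b ≠ 0) (hc : a ^ 2 - 4 * b ≠ 0)
    (hs : IsSquare (b * (a ^ 2 - 4 * b))) : ∃ t : ℚ_[p], t ≠ 0 ∧ ∀ D : ℤ, D ≠ 0 →
      IsSquare (t * D) → (∃ c ∈ im ℚ_[p] (a * D) (b * D ^ 2), c ≠ 1) ∧
        ∃ c ∈ im ℚ_[p] (-2 * (a * D)) ((a * D) ^ 2 - 4 * (b * D ^ 2)), c ≠ 1 := by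
  have hbK : ((b : ℤ) : ℚ_[p]) ≠ 0 := by exact_mod_cast hb
  have hcK : ((a ^ 2 - 4 * b : ℤ) : ℚ_[p]) ≠ 0 := by exact_mod_cast hc
  have e2 : ∀ D : ℤ, (a * D) ^ 2 - 4 * (b * D ^ 2) = (a ^ 2 - 4 * b) * D ^ 2 := fun D => by ring
  obtain ⟨q, hq⟩ := hs
  have hqK : (b : ℚ_[p]) * ((a ^ 2 - 4 * b : ℤ) : ℚ_[p]) = (q : ℚ_[p]) * q := by
    exact_mod_cast congrArg (fun z : ℤ => (z : ℚ_[p])) hq
  -- the class of the product of the roots
  have cls : ∀ {A B : ℤ}, B ≠ 0 → A ^ 2 - 4 * B ≠ 0 → ¬ IsSquare ((B : ℤ) : ℚ_[p]) →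
      ∃ c ∈ im ℚ_[p] A B, c ≠ 1 := by
    intro A B hB hC hn
    have hBK : ((B : ℤ) : ℚ_[p]) ≠ 0 := by exact_mod_cast hB
    have hL : Loc ℚ_[p] A B B := Loc_of_sq hB hC hB p (Or.inr ⟨(B : ℚ_[p]), rfl⟩)
    refine ⟨_, (mem_im hBK).2 hL, fun h => hn ?_⟩
    rw [Pool.Agent.Q121.JQ.mk_one_iff] at h
    exact h
  by_cases hbs : IsSquare ((b : ℤ) : ℚ_[p])
  · -- the points of order two are rational
    obtain ⟨β, hβ⟩ := hbs
    have hβ0 : β ≠ 0 := by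
      rintro rfl
      exact hbK (by rw [hβ, zero_mul])
    obtain ⟨γ, hγ⟩ : ∃ γ : ℚ_[p], ((a ^ 2 - 4 * b : ℤ) : ℚ_[p]) = γ ^ 2 := by
      refine ⟨q / β, ?_⟩
      field_simp
      linear_combination hqK - ((a ^ 2 - 4 * b : ℤ) : ℚ_[p]) * hβ
    have hγ' : (a : ℚ_[p]) ^ 2 - 4 * b = γ ^ 2 := by
      rw [← hγ]
      push_cast
      ring
    have h2 : (2 : ℚ_[p]) ≠ 0 := two_ne_zero
    obtain ⟨x₁, hx₁⟩ : ∃ x₁ : ℚ_[p], x₁ = (-a + γ) / 2 := ⟨_, rfl⟩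
    have r1 : x₁ ^ 2 + a * x₁ + b = 0 := by
      rw [hx₁]
      field_simp
      linear_combination -hγ'
    have n1 : x₁ ≠ 0 := by
      rintro rfl
      apply hbK
      linear_combination r1
    obtain ⟨x₂, hx₂⟩ : ∃ x₂ : ℚ_[p], x₂ = a + 2 * β := ⟨_, rfl⟩
    have r2 : x₂ ^ 2 - 2 * a * x₂ + (a ^ 2 - 4 * b) = 0 := by
      rw [hx₂]
      linear_combination -4 * hβ
    have n2 : x₂ ≠ 0 := by
      rintro rfl
      apply hcK
      push_cast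
      linear_combination r2
    obtain ⟨u, hu0, hu1, hu2⟩ := ex_two (x₁ * x₂) (mul_ne_zero n1 n2)
    refine ⟨x₁ * u, mul_ne_zero n1 hu0, fun D hD ht => ?_⟩
    have hDK : ((D : ℤ) : ℚ_[p]) ≠ 0 := by exact_mod_cast hD
    have m1 : ¬ IsSquare ((D : ℚ_[p]) * x₁) := by
      refine nsq_tr hDK ht fun h => hu1 ?_
      obtain ⟨s, hs⟩ := h
      refine ⟨s / x₁, ?_⟩
      field_simp
      linear_combination hs
    have m2 : ¬ IsSquare ((D : ℚ_[p]) * x₂) := by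
      refine nsq_tr hDK ht fun h => hu2 ?_
      obtain ⟨s, hs⟩ := h
      exact ⟨s, by linear_combination hs⟩
    constructor
    · refine ⟨QuotientGroup.mk (Units.mk0 ((D : ℚ_[p]) * x₁) (mul_ne_zero hDK n1)),
        ⟨_, 0, ?_, rfl⟩, fun h => m1 ?_⟩
      · rw [Units.val_mk0]
        push_cast
        linear_combination -(D : ℚ_[p]) ^ 3 * x₁ * r1
      · rw [Pool.Agent.Q121.JQ.mk_one_iff] at h
        exact h
    · refine ⟨QuotientGroup.mk (Units.mk0 ((D : ℚ_[p]) * x₂) (mul_ne_zero hDK n2)),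
        ⟨_, 0, ?_, rfl⟩, fun h => m2 ?_⟩
      · rw [Units.val_mk0]
        push_cast
        linear_combination -(D : ℚ_[p]) ^ 3 * x₂ * r2
      · rw [Pool.Agent.Q121.JQ.mk_one_iff] at h
        exact h
  · refine ⟨1, one_ne_zero, fun D hD _ => ?_⟩
    have hDK : ((D : ℤ) : ℚ_[p]) ≠ 0 := by exact_mod_cast hD
    have hB : b * D ^ 2 ≠ 0 := mul_ne_zero hb (pow_ne_zero 2 hD)
    have hC : (a * D) ^ 2 - 4 * (b * D ^ 2) ≠ 0 := by
      rw [e2]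
      exact mul_ne_zero hc (pow_ne_zero 2 hD)
    have hC' : (-2 * (a * D)) ^ 2 - 4 * ((a * D) ^ 2 - 4 * (b * D ^ 2)) ≠ 0 := by
      have e : (-2 * (a * D)) ^ 2 - 4 * ((a * D) ^ 2 - 4 * (b * D ^ 2)) = 16 * (b * D ^ 2) := by ring
      rw [e]
      exact mul_ne_zero (by norm_num) hB
    refine ⟨cls hB hC fun h => hbs ?_, cls hC hC' fun h => hbs ?_⟩
    · obtain ⟨s, hs⟩ := h
      refine ⟨s / D, ?_⟩
      push_cast at hs
      field_simp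
      linear_combination hs
    · rw [e2] at h
      obtain ⟨s, hs⟩ := h
      rw [Int.cast_mul, Int.cast_pow] at hs
      have hs0 : s ≠ 0 := by
        rintro rfl
        rw [mul_zero] at hs
        exact mul_ne_zero hcK (pow_ne_zero 2 hDK) hs
      refine ⟨q * D / s, ?_⟩
      field_simp
      linear_combination (D : ℚ_[p]) ^ 2 * hqK - (b : ℚ_[p]) * hs

/-- the local image depends only on the class of the twist -/
theorem im_tw {K : Type} [Field K] {a b D D' : ℤ} (hD : (D : K) ≠ 0) (hD' : (D' : K) ≠ 0)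
    (h : IsSquare ((D : K) * D')) : im K (a * D) (b * D ^ 2) = im K (a * D') (b * D' ^ 2) := by
  have key : ∀ D D' : ℤ, (D : K) ≠ 0 → (D' : K) ≠ 0 → IsSquare ((D : K) * D') →
      im K (a * D) (b * D ^ 2) ⊆ im K (a * D') (b * D' ^ 2) := by
    rintro D D' hD hD' ⟨s, hs⟩ c ⟨x, y, h1, rfl⟩
    have hs0 : s ≠ 0 := by
      rintro rfl
      rw [mul_zero] at hs
      exact mul_ne_zero hD hD' hs
    obtain ⟨k, hk⟩ : ∃ k : K, k = s / D := ⟨_, rfl⟩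
    have hk0 : k ≠ 0 := by
      rw [hk]
      exact div_ne_zero hs0 hD
    have e : (D' : K) = D * k ^ 2 := by
      rw [hk]
      field_simp
      linear_combination hs
    refine ⟨Units.mk0 (k ^ 2 * x) (mul_ne_zero (pow_ne_zero 2 hk0) x.ne_zero), k ^ 3 * y, ?_, ?_⟩
    · rw [Units.val_mk0]
      push_cast at h1 ⊢
      rw [e]
      linear_combination k ^ 6 * h1
    · rw [mk_eq, Units.val_mk0]
      exact ⟨k * x, by ring⟩
  refine Set.Subset.antisymm (key D D' hD hD' h) (key D' D hD' hD ?_)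
  rwa [mul_comm]

end loc

theorem tm_of' {S : Finset ℕ} (h2S : 2 ∈ S) {A B : ℤ} (hp : ∀ p ∈ S, p ≠ 2 → imc A B p = 2)
    (huv : imc A B 2 * Nat.card (im ℝ A B) = 4) : tm S A B = 1 := by
  obtain ⟨u, hu⟩ : ∃ u, u = imc A B 2 := ⟨_, rfl⟩
  obtain ⟨v, hv⟩ : ∃ v, v = Nat.card (im ℝ A B) := ⟨_, rfl⟩
  unfold tm
  rw [← mul_prod_erase S _ h2S, prod_congr rfl fun p hp' =>
    hp p (mem_of_mem_erase hp') (ne_of_mem_erase hp'), prod_const, card_erase_of_mem h2S]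
  rw [← hu, ← hv] at huv ⊢
  have h3 : 1 ≤ S.card := card_pos.2 ⟨2, h2S⟩
  obtain ⟨n, hn⟩ : ∃ n, S.card = n + 1 := ⟨S.card - 1, by omega⟩
  rw [hn, Nat.add_sub_cancel]
  have h4 : u * 2 ^ n * v = 2 ^ (n + 1 + 1) := by
    rw [pow_succ, pow_succ]
    calc u * 2 ^ n * v = (u * v) * 2 ^ n := by ring
      _ = _ := by rw [huv]; ring
  rw [h4]
  push_cast
  exact div_self (by positivity)

namespace Cd

variable (e : Cd)

theorem two_bad : 2 ∈ e.bad := by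
  refine Nat.mem_primeFactors.2 ⟨Nat.prime_two, ?_, Int.natAbs_ne_zero.2 e.N0⟩
  unfold N2
  rw [Int.natAbs_mul]
  exact Dvd.intro _ rfl

theorem pos_bc : 0 < e.b ∧ 0 < e.a ^ 2 - 4 * e.b := by
  have h0 : 0 < e.b * (e.a ^ 2 - 4 * e.b) := by
    obtain ⟨q, hq⟩ := e.hs
    have h1 := mul_ne_zero e.b0 e.hc
    rw [hq] at h1 ⊢
    exact lt_of_le_of_ne (mul_self_nonneg q) (Ne.symm h1)
  rcases lt_or_gt_of_ne e.b0 with h | h
  · exfalso
    have h1 : e.a ^ 2 - 4 * e.b < 0 := by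
      by_contra h2
      have := mul_nonpos_of_nonpos_of_nonneg h.le (not_lt.1 h2)
      linarith
    nlinarith [sq_nonneg e.a]
  · exact ⟨h, (mul_pos_iff_of_pos_left h).1 h0⟩

/-- **every curve has balanced classes** -/
theorem ex_bal : ∃ D₀ : ℤ, Squarefree D₀ ∧ e.tau D₀ = 1 := by
  have h2f : Fact (2 : ℕ).Prime := ⟨Nat.prime_two⟩
  obtain ⟨hb, hcp⟩ := e.pos_bc
  have ha0 : e.a ≠ 0 := by
    intro h
    rw [h] at hcp
    nlinarith
  have hbadp : ∀ p ∈ e.bad, p.Prime := fun p hp => Nat.prime_of_mem_primeFactors hp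
  choose t ht0 ht using fun (p : ℕ) (hp : p.Prime) =>
    @ex_t p ⟨hp⟩ e.a e.b e.b0 e.hc e.hs
  -- the squarefree integers
  have key : ∀ s : Prop, ∃ D : ℤ, Squarefree D ∧ (0 < D ↔ s) ∧
      ∀ (p : ℕ) (hp : p.Prime), p ∈ e.bad → (haveI : Fact p.Prime := ⟨hp⟩;
        IsSquare (t p hp * (D : ℚ_[p]))) := by
    intro s
    obtain ⟨D, h1, h2, h3⟩ := weak hbadp (fun p hp => t p hp.out) (fun p hp => ht0 p hp.out) s
    exact ⟨D, h1, h2, fun p hp hpb => @h3 p ⟨hp⟩ hpb⟩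
  have odd : ∀ D : ℤ, Squarefree D → (∀ (p : ℕ) (hp : p.Prime), p ∈ e.bad →
      (haveI : Fact p.Prime := ⟨hp⟩; IsSquare (t p hp * (D : ℚ_[p])))) →
      (∀ p ∈ e.bad, p ≠ 2 → imc (e.a * D) (e.b * D ^ 2) p = 2) ∧
      (imc (e.a * D) (e.b * D ^ 2) 2 = 2 ∨ imc (e.a * D) (e.b * D ^ 2) 2 = 4) := by
    intro D hD h
    have hD0 := hD.ne_zero
    have hB : e.b * D ^ 2 ≠ 0 := mul_ne_zero e.b0 (pow_ne_zero 2 hD0)
    have hC : (e.a * D) ^ 2 - 4 * (e.b * D ^ 2) ≠ 0 := by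
      have e2 : (e.a * D) ^ 2 - 4 * (e.b * D ^ 2) = (e.a ^ 2 - 4 * e.b) * D ^ 2 := by ring
      rw [e2]
      exact mul_ne_zero e.hc (pow_ne_zero 2 hD0)
    constructor
    · intro p hp hp2
      have hpp := hbadp p hp
      have : Fact p.Prime := ⟨hpp⟩
      obtain ⟨⟨c, hc, hc1⟩, d, hd, hd1⟩ := ht p hpp D hD0 (h p hpp hp)
      rw [imc_pos]
      exact im_odd hp2 hB hC hc hc1 hd hd1
    · obtain ⟨⟨c, hc, hc1⟩, d, hd, hd1⟩ := ht 2 Nat.prime_two D hD0 (h 2 Nat.prime_two e.two_bad)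
      rw [imc_pos]
      exact im_two hB hC hc hc1 hd hd1
  have real : ∀ D : ℤ, D ≠ 0 → (0 < e.a * D → Nat.card (im ℝ (e.a * D) (e.b * D ^ 2)) = 2) ∧
      (e.a * D < 0 → Nat.card (im ℝ (e.a * D) (e.b * D ^ 2)) = 1) := by
    intro D hD
    have hD2 : 0 < D ^ 2 := by positivity
    have hB : 0 < e.b * D ^ 2 := mul_pos hb hD2
    have e2 : (e.a * D) ^ 2 - 4 * (e.b * D ^ 2) = (e.a ^ 2 - 4 * e.b) * D ^ 2 := by ring
    have hC : 0 < (e.a * D) ^ 2 - 4 * (e.b * D ^ 2) := by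
      rw [e2]
      exact mul_pos hcp hD2
    refine ⟨fun h => card_real_two hB.ne' hC.ne' ?_, fun h => card_real_one h hB hC.ne'⟩
    have hA : (0 : ℝ) < ((e.a * D : ℤ) : ℝ) := by exact_mod_cast h
    have hCr : (0 : ℝ) < ((e.a * D : ℤ) : ℝ) ^ 2 - 4 * ((e.b * D ^ 2 : ℤ) : ℝ) := by
      exact_mod_cast hC
    refine ⟨-((e.a * D : ℤ) : ℝ) / 2, by linarith, ?_⟩
    have h1 := mul_pos hA hCr
    nlinarith
  -- the sign
  have tm1 : ∀ D : ℤ, (∀ p ∈ e.bad, p ≠ 2 → imc (e.a * D) (e.b * D ^ 2) p = 2) →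
      imc (e.a * D) (e.b * D ^ 2) 2 * Nat.card (im ℝ (e.a * D) (e.b * D ^ 2)) = 4 →
      e.tau D = 1 := by
    intro D hp huv
    unfold tau
    exact tm_of' e.two_bad hp huv
  obtain ⟨D₁, q1, q2, q3⟩ := key (0 < e.a)
  obtain ⟨D₂, w1, w2, w3⟩ := key (e.a < 0)
  obtain ⟨k1, k2⟩ := odd D₁ q1 q3
  obtain ⟨l1, l2⟩ := odd D₂ w1 w3
  have hD₁ := q1.ne_zero
  have hD₂ := w1.ne_zero
  have hs1 : 0 < e.a * D₁ := by
    rcases lt_or_gt_of_ne ha0 with h | h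
    · have : D₁ < 0 := by
        rcases lt_or_gt_of_ne hD₁ with h' | h'
        · exact h'
        · exact absurd (q2.1 h') (not_lt.2 h.le)
      exact mul_pos_of_neg_of_neg h this
    · exact mul_pos h (q2.2 h)
  have hs2 : e.a * D₂ < 0 := by
    rcases lt_or_gt_of_ne ha0 with h | h
    · exact mul_neg_of_neg_of_pos h (w2.2 h)
    · have : D₂ < 0 := by
        rcases lt_or_gt_of_ne hD₂ with h' | h'
        · exact h'
        · exact absurd (w2.1 h') (not_lt.2 h.le)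
      exact mul_neg_of_pos_of_neg h this
  rcases k2 with k2 | k2
  · exact ⟨D₁, q1, tm1 D₁ k1 (by rw [k2, (real D₁ hD₁).1 hs1])⟩
  · refine ⟨D₂, w1, tm1 D₂ l1 ?_⟩
    have h5 : imc (e.a * D₂) (e.b * D₂ ^ 2) 2 = imc (e.a * D₁) (e.b * D₁ ^ 2) 2 := by
      rw [imc_pos, imc_pos]
      have h6 : IsSquare (((D₂ : ℤ) : ℚ_[2]) * D₁) := by
        obtain ⟨s, hs⟩ := q3 2 Nat.prime_two e.two_bad
        obtain ⟨r, hr⟩ := w3 2 Nat.prime_two e.two_bad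
        have ht2 := ht0 2 Nat.prime_two
        refine ⟨r * s / t 2 Nat.prime_two, ?_⟩
        field_simp
        linear_combination (t 2 Nat.prime_two * (D₂ : ℚ_[2])) * hs + s ^ 2 * hr
      rw [im_tw (by exact_mod_cast hD₂) (by exact_mod_cast hD₁) h6]
    rw [h5, k2, (real D₂ hD₂).2 hs2]

end Cd

end Q44.BN
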