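import Pool.Agent.Q44.BN.Bij
import Pool.Agent.TH838.PS.Quad

/-!
# The system is not degenerate
-/

set_option autoImplicit false

open scoped Classical

namespace Q44.BN

open Finset Module
open Pool.Agent.Y703.CQ (nr)
open Q44.BC (lm)
open Q44.TK (Fm hF hF_pos hF_mul hF_sum hF_eq hF_one Fm_two)
open Q44.BM (vm Fam RC Sys)
open Q44.TI (Loc pd ch ch_zero ch_mul ch_pd nr_ch dvd_pd_iff pd_pos not_dvd_pd nz_of cop_mod jac_mod fd
  SelS Loc_of_sq Loc_real)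

/-- a functional which does not vanish on a subspace -/
theorem card_two {V : Type} [AddCommGroup V] [Module (ZMod 2) V] (W : Submodule (ZMod 2) V)
    (θ : V →ₗ[ZMod 2] ZMod 2) {e : V} (he : e ∈ W) (h1 : θ e = 1) :
    Nat.card W = 2 * Nat.card (W ⊓ LinearMap.ker θ : Submodule (ZMod 2) V) := by
  have k2 : ∀ x : ZMod 2, x + x = 0 := by decide
  have kv : ∀ v : V, v + v = 0 := by
    intro v
    have : v + v = (2 : ZMod 2) • v := (two_smul (ZMod 2) v).symm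
    rw [this]
    have h2 : (2 : ZMod 2) = 0 := by decide
    rw [h2, zero_smul]
  let E : W ≃ ZMod 2 × (W ⊓ LinearMap.ker θ : Submodule (ZMod 2) V) :=
    { toFun := fun w => (θ w, ⟨w + θ w • e, ⟨Submodule.add_mem _ w.2 (Submodule.smul_mem _ _ he), by
        show θ (w + θ w • e) = 0
        rw [map_add, map_smul, h1, smul_eq_mul, mul_one, k2]⟩⟩)
      invFun := fun x => ⟨x.2 + x.1 • e, Submodule.add_mem _ x.2.2.1 (Submodule.smul_mem _ _ he)⟩
      left_inv := by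
        intro w
        apply Subtype.ext
        show (w : V) + θ w • e + θ w • e = w
        rw [add_assoc, kv, add_zero]
      right_inv := by
        rintro ⟨a, y⟩
        have hy : θ (y : V) = 0 := y.2.2
        have h3 : θ ((y : V) + a • e) = a := by
          rw [map_add, map_smul, h1, hy, smul_eq_mul, mul_one, zero_add]
        refine Prod.ext h3 (Subtype.ext ?_)
        show (y : V) + a • e + θ ((y : V) + a • e) • e = y
        rw [h3, add_assoc, kv, add_zero] }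
  rw [Nat.card_congr E, Nat.card_prod]
  congr 1
  rw [Nat.card_eq_fintype_card, ZMod.card]

/-- a prime in a class where a nonsquare has symbol `-1` -/
theorem ex_prime {z : ℤ} (hz : ¬ IsSquare z) (m : ℕ) (hm : m ≠ 0) :
    ∃ p : ℕ, p.Prime ∧ p.Coprime m ∧ ((z : ℤ) : ZMod p) ≠ 0 ∧ ch ((z : ℤ) : ZMod p) = 1 := by
  obtain ⟨p, h1, h2, h3⟩ := Pool.Agent.TH838.PS.one_neg z hz m
  have : Fact p.Prime := ⟨h2⟩
  rw [← jacobiSym.legendreSym.to_jacobiSym] at h3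
  have h4 := (legendreSym.eq_neg_one_iff p).1 h3
  refine ⟨p, h2, (Nat.Prime.coprime_iff_not_dvd h2).2
      (Nat.not_dvd_of_pos_of_lt (Nat.pos_of_ne_zero hm) h1), ?_, if_neg h4⟩
  intro h5
  apply h4
  rw [h5]
  exact ⟨0, by ring⟩

namespace Cu

variable (c : Cu)

/-- two characters -/
theorem two_chr {z : ℤ} (φ : Fm c.m →ₗ[ZMod 2] ZMod 2)
    (hφ : ∀ p : ℕ, p.Prime → p.Coprime c.m → φ (hF c.m p) = ch ((z : ℤ) : ZMod p))
    (hz : ¬ IsSquare z) (hzB : ¬ IsSquare (z * c.B)) : ∃ x : c.FA, φ x ≠ 0 := by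
  by_contra hcon
  push Not at hcon
  have hc : ∀ x : Fm c.m, jc c.m c.B x = 0 → φ x = 0 := fun x hx => hcon ⟨x, hx⟩
  obtain ⟨p, h1, h2, h3, h4⟩ := ex_prime hz c.m c.hm.nz
  obtain ⟨q, k1, k2, k3, k4⟩ := ex_prime hzB c.m c.hm.nz
  have : Fact q.Prime := ⟨k1⟩
  rw [Int.cast_mul] at k3 k4
  have k5 := left_ne_zero_of_mul k3
  have k6 := right_ne_zero_of_mul k3
  rw [ch_mul k5 k6, ← hφ q k1 k2, ← jc_prime c.hm.nz c.hm.dB k1 k2] at k4
  rw [← hφ p h1 h2] at h4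
  have h5 := hc (hF c.m p)
  have k7 := hc (hF c.m q)
  have h6 := hc (hF c.m p + hF c.m q)
  rw [map_add, map_add] at h6
  revert h4 k4 h5 k7 h6
  generalize φ (hF c.m p) = a
  generalize φ (hF c.m q) = b
  generalize jc c.m c.B (hF c.m p) = a'
  generalize jc c.m c.B (hF c.m q) = b'
  revert a b a' b'
  decide

/-- the vector of `B` -/
theorem ex_gB : ∃ g : GG c.T, g.2 = 0 ∧ IsSquare (UU g * c.B) ∧ ∃ t : c.T, g.1 t = 1 := by
  obtain ⟨a, b, hab, ha⟩ := Nat.sq_mul_squarefree c.B.natAbs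
  have hBp := c.Bpos
  have hB : c.B = (b : ℤ) ^ 2 * a := by
    rw [← Int.natAbs_of_nonneg hBp.le, ← hab]
    push_cast
    ring
  have hsup : Sup c.A c.B (a : ℤ) := by
    refine ⟨Int.squarefree_natCast.2 ha, fun p _ hd => ?_⟩
    have h1 : (a : ℤ) ∣ c.B := ⟨(b : ℤ) ^ 2, by rw [hB]; ring⟩
    exact ((hd.trans h1).mul_right _).mul_left _
  obtain ⟨g, hg⟩ := c.ex_UU hsup
  have ha0 : 0 < a := Nat.pos_of_ne_zero ha.ne_zero
  have hg2 : g.2 = 0 := by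
    rw [← UU_pos c.hT, hg]
    exact_mod_cast ha0
  refine ⟨g, hg2, ⟨(a : ℤ) * b, by rw [hg, hB]; ring⟩, ?_⟩
  by_contra hcon
  push Not at hcon
  have h0 : g = 0 := by
    refine Prod.ext (funext fun t => ?_) hg2
    rcases two_cases (g.1 t) with h | h
    · exact h
    · exact absurd h (hcon t)
  rw [h0, UU_zero] at hg
  apply c.hB
  refine ⟨b, ?_⟩
  rw [hB, ← hg]
  ring

/-- the vector of `B` -/
noncomputable def gB : GG c.T := c.ex_gB.choose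
theorem gB2 : c.gB.2 = 0 := c.ex_gB.choose_spec.1
theorem gB_sq : IsSquare (UU c.gB * c.B) := c.ex_gB.choose_spec.2.1
/-- a bad prime which divides `B` to an odd power -/
noncomputable def t0 : c.T := c.ex_gB.choose_spec.2.2.choose
theorem gBt : c.gB.1 c.t0 = 1 := c.ex_gB.choose_spec.2.2.choose_spec

/-- the coordinate -/
noncomputable def th : (GG c.T × c.FA) →ₗ[ZMod 2] ZMod 2 :=
  lm (fun w => w.1.1 c.t0) fun _ _ => rfl

theorem th_apply (w : GG c.T × c.FA) : c.th w = w.1.1 c.t0 := rfl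

/-- the reduced subspace -/
noncomputable def L0 : Submodule (ZMod 2) (GG c.T × c.FA) := c.LL ⊓ LinearMap.ker c.th

theorem mem_L0 {w : GG c.T × c.FA} : w ∈ c.L0 ↔ w ∈ c.LL ∧ w.1.1 c.t0 = 0 := Iff.rfl

theorem gB_mem : (c.gB, 0) ∈ c.LL := by
  have h1 : (1 : ℕ).Coprime c.m := Nat.coprime_one_left _
  rw [c.mem_LL (w := (c.gB, 0)) h1 (by rw [hF_one]; rfl)]
  have hd0 : ((c.d : ℕ) : ℤ) ≠ 0 := by exact_mod_cast c.d0
  obtain ⟨k1, k2⟩ := twist_ne c.B0 c.hC hd0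
  have e : UU (c.gB, (0 : c.FA)).1 * ((1 : ℕ) : ℤ) = UU c.gB := by
    push_cast
    rw [mul_one]
  rw [e]
  obtain ⟨s, hs⟩ := c.gB_sq
  refine ⟨fun p _ _ => Loc_of_sq k1 k2 (UU_ne c.hT _) p (Or.inr ⟨s * c.d, ?_⟩),
    Loc_real k1 k2 ((UU_pos c.hT _).2 c.gB2)⟩
  have h3 : ((UU c.gB * c.B : ℤ) : ℚ_[p]) = ((s * s : ℤ) : ℚ_[p]) := by rw [hs]
  push_cast at h3 ⊢
  linear_combination (c.d : ℚ_[p]) ^ 2 * h3

theorem card_LL : Nat.card c.LL = 2 * Nat.card c.L0 :=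
  card_two c.LL c.th c.gB_mem c.gBt

theorem ch_gB {p : ℕ} (h : Ac c.A c.B p) : ch ((UU c.gB : ℤ) : ZMod p) = 0 := by
  have : Fact p.Prime := ⟨h.pr⟩
  have h1 : ((UU c.gB : ℤ) : ZMod p) ≠ 0 := (c.Sup_UU _).nz h.pr h.nd
  have h2 := c.gB_sq.map (Int.castRingHom (ZMod p))
  have h3 : IsSquare (((UU c.gB : ℤ) : ZMod p) * ((c.B : ℤ) : ZMod p)) := by simpa using h2
  rw [← ch_zero, ch_mul h1 h.B0, ch_zero.2 h.sqB, add_zero] at h3
  exact h3

/-- the coordinate -/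
noncomputable def th' : ((ℕ → ZMod 2) × GG c.T) →ₗ[ZMod 2] ZMod 2 :=
  lm (fun w => w.2.1 c.t0) fun _ _ => rfl

theorem Sel_L0 (S : Finset ℕ) : (c.sy c.L0).Sel S = (c.sy c.LL).Sel S ⊓ LinearMap.ker c.th' := by
  ext w
  rw [Submodule.mem_inf, Sys.mem_Sel, Sys.mem_Sel]
  constructor
  · rintro ⟨h1, h2, h3⟩
    exact ⟨⟨h1, h2, h3.1⟩, h3.2⟩
  · rintro ⟨⟨h1, h2, h3⟩, h4⟩
    exact ⟨h1, h2, h3, h4⟩

theorem gB_Sel (S : Finset ℕ) : ((0 : ℕ → ZMod 2), c.gB) ∈ (c.sy c.LL).Sel S := by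
  refine Sys.mem_Sel.2 ⟨fun p _ => rfl, fun p _ ha => ?_, ?_⟩
  · have h1 : (c.sy c.LL).χ c.gB ((c.sy c.LL).h p) = 0 :=
      (c.chi_hA c.gB ((c.A_iff p).1 ha)).trans (c.ch_gB ((c.A_iff p).1 ha))
    rw [h1]
    simp
  · have h1 : ∑ q ∈ S, (0 : ℕ → ZMod 2) q • (c.sy c.LL).h q = 0 :=
      sum_eq_zero fun q _ => zero_smul _ _
    show (c.gB, ∑ q ∈ S, (0 : ℕ → ZMod 2) q • (c.sy c.LL).h q) ∈ c.LL
    rw [h1]
    exact c.gB_mem

theorem card_Sel2 (S : Finset ℕ) :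
    Nat.card ((c.sy c.LL).Sel S) = 2 * Nat.card ((c.sy c.L0).Sel S) := by
  rw [c.Sel_L0 S]
  exact card_two _ c.th' (c.gB_Sel S) c.gBt

/-- **the order of the Selmer group** -/
theorem ncard_SelS {S : Finset ℕ} (hS : ∀ p ∈ S, c.rc.Φ.P p)
    (hG : hF c.m (∏ p ∈ S, p) = hF c.m c.d) :
    (SelS (c.A * pd S) (c.B * pd S ^ 2)).Finite ∧
      (SelS (c.A * pd S) (c.B * pd S ^ 2)).ncard =
        2 ^ (finrank (ZMod 2) ((c.sy c.L0).Sel S) + 1) := by
  obtain ⟨h1, h2⟩ := c.card_SelS hS hG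
  have hf := c.fin_Sel S c.L0
  refine ⟨h1, ?_⟩
  rw [h2, c.card_Sel2, Module.natCard_eq_pow_finrank (K := ZMod 2), Nat.card_eq_fintype_card,
    ZMod.card, pow_succ, mul_comm]

/-- the residue classes -/
abbrev I : Type := {r : ℕ // r ∈ (range c.m).filter fun r => r.Coprime c.m}

/-- the primes of a residue class -/
def cl (i : c.I) (p : ℕ) : Prop := p.Prime ∧ p % c.m = i

variable {c}

theorem cl_cop {i : c.I} {p : ℕ} (h : c.cl i p) : p.Coprime c.m :=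
  cop_mod.1 (h.2 ▸ (mem_filter.1 i.2).2)

theorem cl_hF {i : c.I} {p : ℕ} (h : c.cl i p) : hF c.m p = hF c.m i := by
  rw [← hF_mod (cl_cop h), h.2]

/-- the residue class of a number -/
def ofN (c : Cu) {n : ℕ} (hn : n.Coprime c.m) : c.I :=
  ⟨n % c.m, mem_filter.2 ⟨mem_range.2 (Nat.mod_lt _ (Nat.pos_of_ne_zero c.hm.nz)), cop_mod.2 hn⟩⟩

theorem cl_ofN {n : ℕ} (hn : n.Coprime c.m) {p : ℕ} (h : c.cl (c.ofN hn) p) :
    hF c.m p = hF c.m n := by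
  rw [cl_hF h]
  exact hF_mod hn

/-- a class where a functional does not vanish -/
theorem ex_cl (x : c.FA) : ∃ i : c.I, ∀ p, c.cl i p → Ac c.A c.B p ∧ c.hA p = x := by
  obtain ⟨n, hn, -, hx⟩ := hF_surj c.hm.nz (x : Fm c.m)
  refine ⟨c.ofN hn, fun p hp => ?_⟩
  have h1 : hF c.m p = x := (cl_ofN hn hp).trans hx
  have h2 : Ac c.A c.B p := by
    rw [c.act_iff hp.1 (cl_cop hp), h1]
    exact x.2
  refine ⟨h2, Subtype.ext ?_⟩
  rw [c.hA_coe h2, h1]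

variable (c)

/-- the functional of a vector -/
noncomputable def ph (g : GG c.T) : Fm c.m →ₗ[ZMod 2] ZMod 2 :=
  lm (fun y => ∑ t : c.T, g.1 t * jc c.m ((t : ℕ) : ℤ) y + g.2 * jc c.m (-1) y) (by
    intro a b
    simp only [map_add, mul_add, sum_add_distrib]
    ring)

theorem chi_ph (g : GG c.T) (x : c.FA) : c.chi g x = c.ph g x := rfl

theorem chi_zero {g : GG c.T} (h : c.chi g = 0) : g = 0 ∨ g = c.gB := by
  by_contra hcon
  obtain ⟨h1, h2⟩ := not_or.1 hcon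
  obtain ⟨x, hx⟩ := c.two_chr (z := UU g) (c.ph g) (fun p hp hpm => (c.ch_UU g hp hpm).symm)
    (fun h3 => h1 (UU_sq_zero c.hT h3)) (fun h3 => h2 (UU_sq_eq c.hT (by
      obtain ⟨s, hs⟩ := h3
      obtain ⟨r, hr⟩ := c.gB_sq
      have hB := c.B0
      have e : (c.B * c.B) * (UU g * UU c.gB) = (s * r) * (s * r) := by
        linear_combination (UU c.gB * c.B) * hs + s * s * hr
      have h4 : c.B ∣ s * r := by
        have : c.B ^ 2 ∣ (s * r) ^ 2 := ⟨UU g * UU c.gB, by linear_combination -e⟩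
        exact (Int.pow_dvd_pow_iff two_ne_zero).1 this
      obtain ⟨q, hq⟩ := h4
      refine ⟨q, ?_⟩
      have h5 : c.B * c.B ≠ 0 := mul_ne_zero hB hB
      apply mul_left_cancel₀ h5
      rw [e, hq]
      ring)))
  apply hx
  rw [← c.chi_ph, h]
  rfl

/-- **the system is not degenerate** -/
theorem good : (c.sy c.L0).Good c.cl := by
  refine ⟨fun p hp => ?_, fun l hl => ?_, fun g e h hχ => ?_, ?_, ?_⟩
  · have hE : p.Prime ∧ p % c.m = 1 := hp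
    show c.hA p = 0
    have hc : p.Coprime c.m := cop_mod.1 (by rw [hE.2]; exact Nat.coprime_one_left _)
    have h1 : hF c.m p = 0 := by rw [← hF_mod hc, hE.2, hF_one]
    have h2 : Ac c.A c.B p := by rw [c.act_iff hE.1 hc, h1, map_zero]
    exact Subtype.ext ((c.hA_coe h2).trans h1)
  · obtain ⟨x, hx⟩ : ∃ x : c.FA, l x ≠ 0 := by
      by_contra h
      push Not at h
      exact hl (LinearMap.ext h)
    obtain ⟨i, hi⟩ := ex_cl x
    refine ⟨i, fun p hp => ?_⟩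
    obtain ⟨h1, h2⟩ := hi p hp
    refine ⟨(c.A_iff p).2 h1, ?_⟩
    show l (c.hA p) ≠ 0
    rw [h2]
    exact hx
  · rcases c.chi_zero hχ with h1 | h1
    · exact h1
    · exfalso
      have h2 : g.1 c.t0 = 0 := h.2
      rw [h1, c.gBt] at h2
      exact one_ne_zero h2
  · obtain ⟨p, h1, h2, h3, h4⟩ := ex_prime c.hB c.m c.hm.nz
    refine ⟨c.ofN h2, fun q hq ha => ?_⟩
    have h5 := (c.act_iff hq.1 (cl_cop hq)).1 ((c.A_iff q).1 ha)
    rw [cl_ofN h2 hq, jc_prime c.hm.nz c.hm.dB h1 h2, h4] at h5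
    exact one_ne_zero h5
  · obtain ⟨x, hx⟩ := c.two_chr (z := -1) (jc c.m (-1))
      (fun p hp hpm => jc_prime c.hm.nz c.hm.dneg hp hpm) (by
        rintro ⟨s, hs⟩
        nlinarith [mul_self_nonneg s]) (by
        rintro ⟨s, hs⟩
        have := c.Bpos
        nlinarith [mul_self_nonneg s])
    obtain ⟨i, hi⟩ := ex_cl x
    refine ⟨i, fun p hp => ?_⟩
    obtain ⟨h1, h2⟩ := hi p hp
    refine ⟨(c.A_iff p).2 h1, ?_⟩
    show jc c.m (-1) (c.hA p) ≠ 0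
    rw [h2]
    exact hx

/-- the label -/
noncomputable def lb (p : ℕ) : Fin c.m × ZMod 2 :=
  (⟨p % c.m, Nat.mod_lt _ (Nat.pos_of_ne_zero c.hm.nz)⟩, fd c.A c.B p)

theorem lb_ok : Q44.BM.Lb (c.sy c.L0) c.cl c.lb (hF c.m) := by
  intro p q hp hq h
  obtain ⟨hp1, hp2⟩ := (c.P_iff p).1 hp
  obtain ⟨hq1, hq2⟩ := (c.P_iff q).1 hq
  have h1 : p % c.m = q % c.m := congrArg (fun t => (t.1 : ℕ)) h
  have h2 : fd c.A c.B p = fd c.A c.B q := congrArg (fun t => t.2) h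
  have h3 : hF c.m p = hF c.m q := by rw [← hF_mod hp2, h1, hF_mod hq2]
  have h4 : Ac c.A c.B p ↔ Ac c.A c.B q := by rw [c.act_iff hp1 hp2, c.act_iff hq1 hq2, h3]
  refine ⟨?_, h2, ?_, fun i => ?_, h3⟩
  · show c.hA p = c.hA q
    by_cases ha : Ac c.A c.B p
    · apply Subtype.ext
      rw [c.hA_coe ha, c.hA_coe (h4.1 ha), h3]
    · unfold hA
      rw [dif_neg ha, dif_neg fun h => ha (h4.2 h)]
  · show (p.Prime ∧ p % c.m = 1) ↔ (q.Prime ∧ q % c.m = 1)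
    rw [h1]
    exact ⟨fun h => ⟨hq1, h.2⟩, fun h => ⟨hp1, h.2⟩⟩
  · unfold cl
    rw [h1]
    exact ⟨fun h => ⟨hq1, h.2⟩, fun h => ⟨hp1, h.2⟩⟩

end Cu

end Q44.BN
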