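import Pool.Agent.Q44.BN.LocM
import Pool.Agent.W351.HB.PF
import Pool.Agent.W215.HB.Bilo
import Pool.Agent.W864.HB.Bilt
import Pool.Agent.W335.BMX.Odd

/-!
# Hilbert symbols and the local images
-/

set_option autoImplicit false

open scoped Classical

namespace Q44.BN

open Finset
open Pool.Agent.W313.BMX (Splits ram diag)
open Pool.Agent.W351.HB.PF (Ev ev_all mem_none mem_some)
open Pool.Agent.W928.BMX (splits_comm splits_sq splits_real)
open Q44.TI (Loc)

section field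

variable {K : Type} [Field K] {A B z z' : ℤ}

theorem Splits_sqr {a b : K} (h : IsSquare a) : Splits a b := by
  obtain ⟨s, rfl⟩ := h
  exact ⟨1, 0, s, Or.inl one_ne_zero, by ring⟩

/-- orthogonality of the local images -/
theorem orth (h2 : (2 : K) ≠ 0) (h : Loc K A B z)
    (h' : Loc K (-2 * A) (A ^ 2 - 4 * B) z') : Splits (z : K) (z' : K) := by
  obtain ⟨x, y, r, hx, hy, hr⟩ := h
  obtain ⟨x', y', r', hx', hy', hr'⟩ := h'
  have hr0 := Loc_ne hx hr
  have hr0' := Loc_ne hx' hr'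
  push_cast at hy'
  have e1 : Splits (z : K) (z' : K) ↔ Splits x x' := by
    rw [hr, hr', splits_sq hr0, splits_comm, ← splits_sq (a := (z' : K)) hr0', splits_comm]
  rw [e1]
  obtain ⟨w, hw⟩ : ∃ w : K, w = 2 * y / x := ⟨_, rfl⟩
  have hw' : w * x = 2 * y := by rw [hw]; field_simp
  obtain ⟨u, hu⟩ : ∃ u : K, u = x' - 2 * x - A := ⟨_, rfl⟩
  -- the identity
  have hw2 : x * w ^ 2 = 4 * (x ^ 2 + A * x + B) := by
    apply mul_left_cancel₀ hx
    linear_combination (w * x + 2 * y) * hw' + 4 * hy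
  have key : y' ^ 2 - 4 * x * x' ^ 2 = x' * (u ^ 2 - x * w ^ 2) := by
    rw [hw2, hu, hy']
    ring
  by_cases hN : u ^ 2 - x * w ^ 2 = 0
  · rw [hN, mul_zero] at key
    refine Splits_sqr ⟨y' / (2 * x'), ?_⟩
    have h3 : 2 * x' ≠ 0 := mul_ne_zero h2 hx'
    field_simp
    linear_combination -key
  · refine ⟨2 * x' * u - y' * w, u ^ 2 - x * w ^ 2, y' * u - 2 * x' * w * x, Or.inr (Or.inl hN), ?_⟩
    linear_combination (u ^ 2 - x * w ^ 2) * key

/-- orthogonality to the discriminant -/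
theorem orthC (h : Loc K A B z) : Splits (z : K) ((A ^ 2 - 4 * B : ℤ) : K) := by
  obtain ⟨x, y, r, hx, hy, hr⟩ := h
  have hr0 := Loc_ne hx hr
  have e1 : Splits (z : K) ((A ^ 2 - 4 * B : ℤ) : K) ↔ Splits x ((A ^ 2 - 4 * B : ℤ) : K) := by
    rw [hr, splits_sq hr0]
  rw [e1]
  refine ⟨2 * y, x, x * (2 * x + A), Or.inr (Or.inl hx), ?_⟩
  push_cast
  linear_combination (-4 * x) * hy

end field

/-- the symbol splits at the prime `p` -/
def Sp (a b : ℤ) (p : ℕ) : Prop := ∀ [Fact p.Prime], Splits (a : ℚ_[p]) (b : ℚ_[p])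

/-- the product formula -/
theorem par {a b : ℤ} (ha : a ≠ 0) (hb : b ≠ 0) (W : Finset ℕ) (hW : ∀ p ∈ W, p.Prime)
    (hr : Splits (a : ℝ) (b : ℝ)) (h : ∀ p : ℕ, p.Prime → p ∉ W → Sp a b p) :
    Even (W.filter fun p => ¬ Sp a b p).card := by
  obtain ⟨h1, h2⟩ := ev_all Pool.Agent.W215.HB.bilo_ Pool.Agent.W864.HBm.bilt_ a b ha hb
  have e : (ram (diag a) b).ncard = (W.filter fun p => ¬ Sp a b p).card := by
    rw [← Set.ncard_coe_finset]
    symm
    refine Set.ncard_congr (fun p hp => some (⟨p, hW p (mem_filter.1 (Finset.mem_coe.1 hp)).1⟩ :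
      Nat.Primes)) ?_ ?_ ?_
    · intro p hp
      have hp' := (mem_filter.1 (Finset.mem_coe.1 hp)).2
      refine (mem_some a b (⟨p, hW p (mem_filter.1 (Finset.mem_coe.1 hp)).1⟩ : Nat.Primes)).2 ?_
      intro h3
      exact hp' h3
    · intro p q hp hq hpq
      have := Option.some.inj hpq
      exact congrArg Subtype.val this
    · intro v hv
      cases v with
      | none => exact absurd hr ((mem_none a b).1 hv)
      | some p =>
        have hv1 := (mem_some a b p).1 hv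
        have h3 : ¬ Sp a b (p : ℕ) := fun h4 => hv1 (@h4 ⟨p.2⟩)
        have h4 : (p : ℕ) ∈ W := by
          by_contra h5
          exact h3 (h p p.2 h5)
        exact ⟨p, Finset.mem_coe.2 (mem_filter.2 ⟨h4, h3⟩), rfl⟩
  rw [← e]
  exact h2

/-- units -/
theorem Sp_unit {a b : ℤ} {p : ℕ} (h2 : p ≠ 2) (ha : ¬ (p : ℤ) ∣ a) (hb : ¬ (p : ℤ) ∣ b) :
    Sp a b p := by
  intro _
  exact Pool.Agent.W335.BMX.odd2 p h2 a b ha hb

theorem Sp_comm {a b : ℤ} {p : ℕ} : Sp a b p ↔ Sp b a p := by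
  constructor
  · intro h _
    exact splits_comm.1 h
  · intro h _
    exact splits_comm.1 h

end Q44.BN
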