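import Pool.Agent.Q44.BN.Vec
import Pool.Agent.Q44.TK.LC

/-!
# The local conditions form a group
-/

set_option autoImplicit false

open scoped Classical

namespace Q44.BN

open Finset
open Q44.TI (Loc Loc_of_sq Loc_real padic_sq padic_sq2)
open Q44.TK (Loc_sc sq_dvd mod_eight)

section field

variable {K : Type} [Field K] {A B z z' : ℤ}

/-- the condition only depends on the square class -/
theorem Loc_cls (_hz : (z : K) ≠ 0) (hz' : (z' : K) ≠ 0) (h : IsSquare ((z : K) * z')) :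
    Loc K A B z → Loc K A B z' := by
  obtain ⟨s, hs⟩ := h
  rintro ⟨x, y, r, h1, h2, h3⟩
  refine ⟨x, y, r * s / z', h1, h2, ?_⟩
  rw [h3]
  field_simp
  linear_combination r ^ 2 * hs

theorem Loc_ne {x : K} {z : ℤ} {r : K} (h1 : x ≠ 0) (h3 : x = (z : K) * r ^ 2) : r ≠ 0 := by
  rintro rfl
  apply h1
  rw [h3]
  ring

/-- the product -/
theorem Loc_prod (hz : (z : K) ≠ 0) (hz' : (z' : K) ≠ 0) (h1 : Loc K A B z) (h2 : Loc K A B z') :
    IsSquare ((z : K) * z') ∨ IsSquare ((z : K) * z' * B) ∨ Loc K A B (z * z') := by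
  obtain ⟨x, y, r, hx, hy, hr⟩ := h1
  obtain ⟨x', y', r', hx', hy', hr'⟩ := h2
  have hr0 := Loc_ne hx hr
  have hr0' := Loc_ne hx' hr'
  by_cases hxx : x = x'
  · left
    refine ⟨z * r / r', ?_⟩
    field_simp
    rw [hr, hr'] at hxx
    linear_combination -hxx
  · have hd : x - x' ≠ 0 := sub_ne_zero.2 hxx
    obtain ⟨l, hl⟩ : ∃ l : K, l = (y - y') / (x - x') := ⟨_, rfl⟩
    have hl' : l * (x - x') = y - y' := by rw [hl]; field_simp
    obtain ⟨v, hv⟩ : ∃ v : K, v = y - l * x := ⟨_, rfl⟩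
    have hy1 : y = l * x + v := by rw [hv]; ring
    have hy2 : y' = l * x' + v := by linear_combination hy1 + hl'
    obtain ⟨x₃, hx₃⟩ : ∃ x₃ : K, x₃ = l ^ 2 - A - x - x' := ⟨_, rfl⟩
    -- the coefficients
    have f1 : x ^ 3 + (A - l ^ 2) * x ^ 2 + (B - 2 * l * v) * x - v ^ 2 = 0 := by
      rw [hy1] at hy
      linear_combination -hy
    have f2 : x' ^ 3 + (A - l ^ 2) * x' ^ 2 + (B - 2 * l * v) * x' - v ^ 2 = 0 := by
      rw [hy2] at hy'
      linear_combination -hy'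
    have g1 : (B - 2 * l * v - (x * x' + (x + x') * x₃)) * x + (x * x' * x₃ - v ^ 2) = 0 := by
      rw [hx₃]
      linear_combination f1
    have g2 : (B - 2 * l * v - (x * x' + (x + x') * x₃)) * x' + (x * x' * x₃ - v ^ 2) = 0 := by
      rw [hx₃]
      linear_combination f2
    have k1 : B - 2 * l * v - (x * x' + (x + x') * x₃) = 0 := by
      apply (mul_eq_zero.1 (_ : (B - 2 * l * v - (x * x' + (x + x') * x₃)) * (x - x') = 0)).resolve_right hd
      linear_combination g1 - g2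
    have k2 : x * x' * x₃ = v ^ 2 := by
      rw [k1] at g1
      linear_combination g1
    by_cases hv0 : v = 0
    · right; left
      rw [hv0] at k1 k2
      have hx30 : x₃ = 0 := by
        have h5 : x * x' ≠ 0 := mul_ne_zero hx hx'
        apply (mul_eq_zero.1 (_ : x * x' * x₃ = 0)).resolve_left h5
        rw [k2]
        ring
      rw [hx30] at k1
      have h6 : (B : K) = x * x' := by linear_combination k1
      refine ⟨z * z' * r * r', ?_⟩
      rw [h6, hr, hr']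
      ring
    · right; right
      refine ⟨x₃, l * x₃ + v, v / (z * z' * r * r'), ?_, ?_, ?_⟩
      · intro h
        rw [h, mul_zero] at k2
        exact hv0 (pow_eq_zero_iff two_ne_zero |>.1 k2.symm)
      · -- the third point
        have : (l * x₃ + v) ^ 2 - (x₃ ^ 3 + (A : K) * x₃ ^ 2 + (B : K) * x₃) =
            -(x₃ ^ 2 * (x₃ - (l ^ 2 - A - x - x'))) - (B - 2 * l * v -
              (x * x' + (x + x') * x₃)) * x₃ + (v ^ 2 - x * x' * x₃) := by ring
        have h7 : x₃ - (l ^ 2 - A - x - x') = 0 := by rw [hx₃]; ring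
        rw [h7, k1, k2] at this
        linear_combination this
      · push_cast
        have h8 : x * x' ≠ 0 := mul_ne_zero hx hx'
        apply mul_left_cancel₀ h8
        rw [k2, hr, hr']
        field_simp

end field

/-- the group law over `ℚ_p` -/
theorem Loc_mul_p {A B z z' : ℤ} (hB : B ≠ 0) (hC : A ^ 2 - 4 * B ≠ 0) (hz : z ≠ 0) (hz' : z' ≠ 0)
    (p : ℕ) [Fact p.Prime] (h1 : Loc ℚ_[p] A B z) (h2 : Loc ℚ_[p] A B z') :
    Loc ℚ_[p] A B (z * z') := by
  have e : ((z * z' : ℤ) : ℚ_[p]) = (z : ℚ_[p]) * z' := by push_cast; ring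
  rcases Loc_prod (by exact_mod_cast hz) (by exact_mod_cast hz') h1 h2 with h | h | h
  · exact Loc_of_sq hB hC (mul_ne_zero hz hz') p (Or.inl (by rw [e]; exact h))
  · exact Loc_of_sq hB hC (mul_ne_zero hz hz') p (Or.inr (by rw [e]; exact h))
  · exact h

/-- the group law over `ℝ` -/
theorem Loc_mul_r {A B z z' : ℤ} (hB : B ≠ 0) (hC : A ^ 2 - 4 * B ≠ 0) (hz : z ≠ 0) (hz' : z' ≠ 0)
    (h1 : Loc ℝ A B z) (h2 : Loc ℝ A B z') : Loc ℝ A B (z * z') := by
  have key : ∀ u v : ℤ, 0 < u → v ≠ 0 → Loc ℝ A B v → Loc ℝ A B (u * v) := by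
    intro u v hu hv h
    have hu' : (0 : ℝ) < u := by exact_mod_cast hu
    refine Loc_cls (by exact_mod_cast hv) (by exact_mod_cast mul_ne_zero hu.ne' hv) ?_ h
    refine ⟨v * Real.sqrt u, ?_⟩
    have h5 := Real.mul_self_sqrt hu'.le
    push_cast
    linear_combination -(v : ℝ) ^ 2 * h5
  by_cases hp : 0 < z
  · exact key z z' hp hz' h2
  · by_cases hp' : 0 < z'
    · rw [mul_comm]
      exact key z' z hp' hz h1
    · have h3 : z < 0 := lt_of_le_of_ne (not_lt.1 hp) hz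
      have h4 : z' < 0 := lt_of_le_of_ne (not_lt.1 hp') hz'
      exact Loc_real hB hC (mul_pos_of_neg_of_neg h3 h4)

theorem twist_ne {A B D : ℤ} (hB : B ≠ 0) (hC : A ^ 2 - 4 * B ≠ 0) (hD : D ≠ 0) :
    B * D ^ 2 ≠ 0 ∧ (A * D) ^ 2 - 4 * (B * D ^ 2) ≠ 0 := by
  refine ⟨mul_ne_zero hB (pow_ne_zero 2 hD), ?_⟩
  have eC : (A * D) ^ 2 - 4 * (B * D ^ 2) = (A ^ 2 - 4 * B) * D ^ 2 := by ring
  rw [eC]
  exact mul_ne_zero hC (pow_ne_zero 2 hD)

/-- the conditions at the bad places form a group -/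
theorem Lb_mul {A B D z z' : ℤ} (hB : B ≠ 0) (hC : A ^ 2 - 4 * B ≠ 0) (hD : D ≠ 0) (hz : z ≠ 0)
    (hz' : z' ≠ 0) (h1 : Lb A B D z) (h2 : Lb A B D z') : Lb A B D (z * z') := by
  obtain ⟨k1, k2⟩ := twist_ne hB hC hD
  exact ⟨fun p _ hp => Loc_mul_p k1 k2 hz hz' p (h1.1 p hp) (h2.1 p hp),
    Loc_mul_r k1 k2 hz hz' h1.2 h2.2⟩

theorem Lb_one {A B D : ℤ} (hB : B ≠ 0) (hC : A ^ 2 - 4 * B ≠ 0) (hD : D ≠ 0) : Lb A B D 1 := by
  obtain ⟨k1, k2⟩ := twist_ne hB hC hD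
  refine ⟨fun p _ hp => Loc_of_sq k1 k2 one_ne_zero p (Or.inl ?_), Loc_real k1 k2 one_pos⟩
  rw [Int.cast_one]
  exact IsSquare.one

/-- the conditions only depend on the classes -/
theorem Lb_cls {A B D D' z z' : ℤ} (hD : D ≠ 0) (hD' : D' ≠ 0) (hz : z ≠ 0) (hz' : z' ≠ 0)
    (hDp : 0 < D * D') (hzp : 0 < z * z')
    (hDs : ∀ (p : ℕ) [Fact p.Prime], (p : ℤ) ∣ N2 A B → IsSquare ((D * D' : ℤ) : ℚ_[p]))
    (hzs : ∀ (p : ℕ) [Fact p.Prime], (p : ℤ) ∣ N2 A B → IsSquare ((z * z' : ℤ) : ℚ_[p]))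
    (h : Lb A B D z) : Lb A B D' z' := by
  have sqr : ∀ n : ℤ, 0 < n → IsSquare ((n : ℤ) : ℝ) := by
    intro n hn
    refine ⟨Real.sqrt n, ?_⟩
    rw [Real.mul_self_sqrt]
    exact_mod_cast hn.le
  refine ⟨fun p _ hp => ?_, ?_⟩
  · have h1 := (Loc_sc (by exact_mod_cast hD) (by exact_mod_cast hD') (hDs p hp)).2 (h.1 p hp)
    have h2 := hzs p hp
    push_cast at h2
    exact Loc_cls (by exact_mod_cast hz) (by exact_mod_cast hz') h2 h1
  · have h1 := (Loc_sc (a := A) (b := B) (by exact_mod_cast hD) (by exact_mod_cast hD')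
      (sqr _ hDp)).2 h.2
    have h2 := sqr _ hzp
    push_cast at h2
    exact Loc_cls (by exact_mod_cast hz) (by exact_mod_cast hz') h2 h1

/-- numbers in the same class modulo `m` -/
theorem sq_of_hF {m n n' : ℕ} (h8 : 8 ∣ m) (hn : n.Coprime m) (hn' : n'.Coprime m)
    (h : Q44.TK.hF m n = Q44.TK.hF m n') (p : ℕ) [hp : Fact p.Prime] (hpm : p ∣ m) :
    IsSquare ((n * n' : ℤ) : ℚ_[p]) := by
  have hs := (Q44.TK.hF_eq hn' hn).1 h
  have hc : (n' * n).Coprime m := Nat.Coprime.mul_left hn' hn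
  have e : ((n : ℤ) * (n' : ℤ) : ℤ) = ((n' * n : ℕ) : ℤ) := by push_cast; ring
  by_cases h2 : p = 2
  · subst h2
    have h8' := mod_eight (odd_of_cop ((by norm_num : 4 ∣ 8).trans h8) hc) (sq_dvd h8 hs)
    rw [e]
    exact padic_sq2 (by omega)
  · rw [e]
    refine padic_sq h2 ?_ ?_
    · intro hd'
      have h3 : p ∣ n' * n := Int.natCast_dvd_natCast.1 hd'
      exact hp.out.one_lt.ne' (Nat.Coprime.eq_one_of_dvd (Nat.Coprime.coprime_dvd_left h3 hc) hpm)
    · have := sq_dvd hpm hs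
      rwa [Int.cast_natCast]

end Q44.BN
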