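import Pool.Agent.Q44.BN.Hil
import Pool.Agent.Q44.BN.Law

/-!
# Reciprocity between the system and the dual Selmer group
-/

set_option autoImplicit false

open scoped Classical

namespace Q44.BN

open Finset
open Pool.Agent.W313.BMX (Splits)
open Pool.Agent.W928.BMX (splits_comm splits_sq splits_real)
open Pool.Agent.Y703.CQ (nr)
open Q44.TK (Fm hF hF_pos hF_mul hF_sum hF_eq hF_one Fm_two)
open Q44.BM (vm Fam RC Sys)
open Q44.TI (Loc SelS pd fd ch nr_ch ch_zero ch_mul ch_pd ch_sq zmod2 zmod2' fd_zero Loc_good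
  Loc_of_sq padic_sq pd_erase pd_sdiff not_dvd_pd dvd_pd_iff pd_pos nz_of)

/-- the row of an active prime -/
noncomputable def rr (A B : ℤ) (S J : Finset ℕ) (u : ℤ) (p : ℕ) : ZMod 2 :=
  if p ∈ J then fd A B p + ch ((u : ℤ) : ZMod p) + ∑ q ∈ S \ J, nr p q
  else ch ((u : ℤ) : ZMod p) + ∑ j ∈ J, nr p j

variable {A B : ℤ}

/-- the local condition at an active prime -/
theorem loc_act (hB : B ≠ 0) (hC : A ^ 2 - 4 * B ≠ 0) {S J : Finset ℕ} (hS : ∀ p ∈ S, p.Prime)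
    (hJ : J ⊆ S) {u : ℤ} {p : ℕ} [hp : Fact p.Prime] (hpS : p ∈ S) (ha : Ac A B p)
    (hu : ¬ (p : ℤ) ∣ u) (hr : rr A B S J u p = 0) :
    Loc ℚ_[p] (A * pd S) (B * pd S ^ 2) (u * pd J) := by
  have hpp := hp.out
  have hpP := Nat.prime_iff_prime_int.1 hpp
  have hD0 := (pd_pos hS).ne'
  have eC : (A * pd S) ^ 2 - 4 * (B * pd S ^ 2) = (A ^ 2 - 4 * B) * pd S ^ 2 := by ring
  have hC0 : (A * pd S) ^ 2 - 4 * (B * pd S ^ 2) ≠ 0 := by
    rw [eC]
    exact mul_ne_zero hC (pow_ne_zero 2 hD0)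
  have hB0 : B * pd S ^ 2 ≠ 0 := mul_ne_zero hB (pow_ne_zero 2 hD0)
  have hJp : ∀ l ∈ J, l.Prime := fun l hl => hS l (hJ hl)
  have hu0 : u ≠ 0 := by
    rintro rfl
    exact hu (dvd_zero _)
  have huz := nz_of hu
  unfold rr at hr
  by_cases hpJ : p ∈ J
  · rw [if_pos hpJ] at hr
    obtain ⟨h1, h2⟩ := D_split hS hpS
    have hJe' : ¬ (p : ℤ) ∣ pd (J.erase p) := not_dvd_pd hpp
      (fun l hl => hJp l (Finset.mem_of_mem_erase hl)) (Finset.notMem_erase p J)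
    refine Loc_root (z' := u * pd (J.erase p)) (D' := pd (S.erase p)) p ha h1 ?_ h2 ?_ ?_
    · rw [pd_erase hpJ]
      ring
    · intro h
      rcases hpP.dvd_or_dvd h with h | h
      · exact hu h
      · exact hJe' h
    · rw [← fd_zero, ← ch_zero, ch_J hS hJ hpJ huz]
      rw [add_assoc] at hr
      exact zmod2' hr
  · rw [if_neg hpJ] at hr
    have hpz : ¬ (p : ℤ) ∣ u * pd J := by
      intro h
      rcases hpP.dvd_or_dvd h with h | h
      · exact hu h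
      · exact not_dvd_pd hpp hJp hpJ h
    have hz0 : u * pd J ≠ 0 := mul_ne_zero hu0 (pd_pos hJp).ne'
    refine Loc_of_sq hB0 hC0 hz0 p (Or.inl (padic_sq ha.two_ne hpz ?_))
    have hJ0 := nz_of (not_dvd_pd hpp hJp hpJ)
    push_cast
    rw [← ch_zero, ch_mul huz hJ0, ch_pd hpp hJp hpJ]
    exact hr

/-- the row after a multiplication by a nonresidue -/
theorem rr_mul {S J : Finset ℕ} {u e : ℤ} {p : ℕ} [Fact p.Prime] (he : ((e : ℤ) : ZMod p) ≠ 0)
    (hu : ((u : ℤ) : ZMod p) ≠ 0) : rr A B S J (e * u) p = ch ((e : ℤ) : ZMod p) +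
      rr A B S J u p := by
  unfold rr
  rw [Int.cast_mul, ch_mul he hu]
  split_ifs
  · ring
  · ring

/-- a nonresidue -/
theorem ex_nonres {p : ℕ} [Fact p.Prime] (h2 : p ≠ 2) : ∃ e : ℤ, ¬ (p : ℤ) ∣ e ∧
    ch ((e : ℤ) : ZMod p) = 1 := by
  obtain ⟨x, hx⟩ := FiniteField.exists_nonsquare (F := ZMod p) (by rw [ZMod.ringChar_zmod_n]; exact h2)
  refine ⟨(x.val : ℤ), ?_, ?_⟩
  · intro h
    apply hx
    have h1 : (((x.val : ℤ)) : ZMod p) = 0 := (ZMod.intCast_zmod_eq_zero_iff_dvd _ _).2 h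
    rw [Int.cast_natCast, ZMod.natCast_val, ZMod.cast_id] at h1
    rw [h1]
    exact ⟨0, by ring⟩
  · unfold ch
    rw [Int.cast_natCast, ZMod.natCast_val, ZMod.cast_id, if_neg hx]

/-- **the symbol at an active prime** -/
theorem sp_act (hB : B ≠ 0) (hC : A ^ 2 - 4 * B ≠ 0) {S J : Finset ℕ} (hS : ∀ p ∈ S, p.Prime)
    (hJ : J ⊆ S) {u : ℤ} {p : ℕ} (hpS : p ∈ S) (ha : Ac A B p) (hu : ¬ (p : ℤ) ∣ u)
    {z' : ℤ} (hz' : Squarefree z')
    (hl : ∀ [Fact p.Prime], Loc ℚ_[p] (-2 * (A * pd S)) ((A * pd S) ^ 2 - 4 * (B * pd S ^ 2)) z')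
    (h0 : ¬ (p : ℤ) ∣ z' → IsSquare ((z' : ℤ) : ZMod p)) :
    ¬ Sp (u * pd J) z' p ↔ rr A B S J u p = 1 ∧ (p : ℤ) ∣ z' := by
  have hpp := ha.pr
  have hf : Fact p.Prime := ⟨hpp⟩
  have hpP := Nat.prime_iff_prime_int.1 hpp
  have hJp : ∀ l ∈ J, l.Prime := fun l hl => hS l (hJ hl)
  have hK2 : (2 : ℚ_[p]) ≠ 0 := two_ne_zero
  have hz0 : z' ≠ 0 := hz'.ne_zero
  have hu0 : u ≠ 0 := by
    rintro rfl
    exact hu (dvd_zero _)
  have hJ0 : pd J ≠ 0 := (pd_pos hJp).ne'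
  constructor
  · intro h
    have hd : (p : ℤ) ∣ z' := by
      by_contra hd
      apply h
      intro _
      rw [splits_comm]
      exact Splits_sqr (padic_sq ha.two_ne hd (h0 hd))
    refine ⟨?_, hd⟩
    by_contra hr
    have hr0 : rr A B S J u p = 0 := (two_cases _).resolve_right hr
    apply h
    intro _
    exact orth hK2 (loc_act hB hC hS hJ hpS ha hu hr0) hl
  · rintro ⟨hr, hd⟩ h
    have h1 := @h hf
    obtain ⟨e, he, hce⟩ := ex_nonres (p := p) ha.two_ne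
    have hez := nz_of he
    have huz := nz_of hu
    have heu : ¬ (p : ℤ) ∣ e * u := by
      intro h
      rcases hpP.dvd_or_dvd h with h | h
      · exact he h
      · exact hu h
    have h2 : rr A B S J (e * u) p = 0 := by
      rw [rr_mul hez huz, hce, hr]
      decide
    have h3 := orth hK2 (loc_act hB hC hS hJ hpS ha heu h2) hl
    have he0 : e ≠ 0 := by
      rintro rfl
      exact he (dvd_zero _)
    have h4 := Pool.Agent.W215.HB.bilo_ p ha.two_ne z' e (u * pd J) hz0 he0 (mul_ne_zero hu0 hJ0)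
    have e1 : e * u * pd J = e * (u * pd J) := by ring
    rw [e1, splits_comm, h4] at h3
    have h5 : Splits (z' : ℚ_[p]) (e : ℚ_[p]) := h3.2 (splits_comm.1 h1)
    obtain ⟨z'', hz''⟩ := hd
    have h6 : ¬ (p : ℤ) ∣ z'' := Pool.Agent.Y814.BSD14.not_dvd_of_sqf hpp hz' hz''
    rw [hz''] at h5
    have h7 := (Pool.Agent.W335.BMX.odd3 p ha.two_ne z'' e h6 he).1 h5
    rw [legendreSym.eq_one_iff _ hez, ← ch_zero, hce] at h7
    exact one_ne_zero h7

theorem N2_dual {p : ℕ} (hp : p.Prime) (h : (p : ℤ) ∣ N2 (-2 * A) (A ^ 2 - 4 * B)) :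
    (p : ℤ) ∣ N2 A B := by
  by_contra h1
  exact dual_nd hp h1 h

namespace Cu

variable (c : Cu)

/-- the row of a vector -/
noncomputable def rw0 (S : Finset ℕ) (w : (ℕ → ZMod 2) × GG c.T) (p : ℕ) : ZMod 2 :=
  ∑ q ∈ S, nr p q * (w.1 q + w.1 p) + fd c.A c.B p * w.1 p + c.chi w.2 (c.hA p)

theorem rw_eq {S J : Finset ℕ} (hJ : ∀ q ∈ J, q ∈ S ∧ Ac c.A c.B q) (g : GG c.T) {p : ℕ}
    (ha : Ac c.A c.B p) : c.rw0 S (ind J, g) p = rr c.A c.B S J (UU g) p := by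
  have hJS : J ⊆ S := fun q hq => (hJ q hq).1
  unfold rw0 rr
  rw [c.chi_hA g ha]
  by_cases hpJ : p ∈ J
  · have h2 : ind J p = 1 := if_pos hpJ
    rw [if_pos hpJ]
    simp only
    rw [h2]
    have h3 : ∑ q ∈ S, nr p q * (ind J q + 1) = ∑ q ∈ S \ J, nr p q := by
      rw [← sum_sdiff hJS]
      have e1 : ∑ q ∈ J, nr p q * (ind J q + 1) = 0 := by
        refine sum_eq_zero fun q hq => ?_
        have : ind J q = 1 := if_pos hq
        rw [this, CharTwo.add_self_eq_zero, mul_zero]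
      have e2 : ∑ q ∈ S \ J, nr p q * (ind J q + 1) = ∑ q ∈ S \ J, nr p q := by
        refine sum_congr rfl fun q hq => ?_
        have : ind J q = 0 := if_neg (mem_sdiff.1 hq).2
        rw [this, zero_add, mul_one]
      rw [e1, e2, add_zero]
    rw [h3]
    ring
  · have h2 : ind J p = 0 := if_neg hpJ
    rw [if_neg hpJ]
    simp only
    rw [h2]
    have h3 : ∑ q ∈ S, nr p q * (ind J q + 0) = ∑ j ∈ J, nr p j := by
      rw [← sum_ind hJS fun q => nr p q]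
      refine sum_congr rfl fun q _ => ?_
      rw [smul_eq_mul]
      ring
    rw [h3]
    ring

/-- the dual Selmer group of the twist -/
def DS (S : Finset ℕ) : Set ℤ :=
  SelS (-2 * (c.A * pd S)) ((c.A * pd S) ^ 2 - 4 * (c.B * pd S ^ 2))

theorem cl_all {S : Finset ℕ} (hS : ∀ p ∈ S, c.rc.Φ.P p) : Cl c.A c.B S := fun p hp => by
  obtain ⟨h1, h2⟩ := (c.P_iff p).1 (hS p hp)
  exact ac_or_pa c.hs h1 ((c.hm.cop_iff h1).1 h2)

/-- the dual Selmer group -/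
theorem dual_nec {S : Finset ℕ} (hS : ∀ p ∈ S, c.rc.Φ.P p) {z' : ℤ} (hz' : z' ∈ c.DS S) :
    ∃ (g' : GG c.T) (J' : Finset ℕ), (∀ q ∈ J', q ∈ S ∧ Ac c.A c.B q) ∧
      (∀ i ∈ S, Ac c.A c.B i → i ∉ J' → ch ((UU g' : ℤ) : ZMod i) + ∑ j ∈ J', nr i j = 0) ∧
      z' = UU g' * pd J' := by
  have hCl := c.cl_all hS
  have hCl' : Cl (-2 * c.A) (c.A ^ 2 - 4 * c.B) S := fun p hp => by
    rcases hCl p hp with h | h
    · exact Or.inl h.dual
    · exact Or.inr h.dual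
  have e1 : -2 * (c.A * pd S) = -2 * c.A * pd S := by ring
  have e2 : (c.A * pd S) ^ 2 - 4 * (c.B * pd S ^ 2) = (c.A ^ 2 - 4 * c.B) * pd S ^ 2 := by ring
  have hC' : (-2 * c.A) ^ 2 - 4 * (c.A ^ 2 - 4 * c.B) ≠ 0 := by
    have e : (-2 * c.A) ^ 2 - 4 * (c.A ^ 2 - 4 * c.B) = 16 * c.B := by ring
    rw [e]
    exact mul_ne_zero (by norm_num) c.B0
  unfold DS at hz'
  rw [e1, e2] at hz'
  obtain ⟨u, J, hu, hJ, hR, -, hz⟩ := nec c.hC hC' hCl' hz'
  have hu' : Sup c.A c.B u := ⟨hu.1, fun p hp h => N2_dual hp (hu.2 p hp h)⟩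
  obtain ⟨g', rfl⟩ := c.ex_UU hu'
  have hJ' : ∀ q ∈ J, q ∈ S ∧ Ac c.A c.B q := by
    intro q hq
    obtain ⟨h1, h2⟩ := hJ q hq
    refine ⟨h1, (hCl q h1).resolve_right fun h3 => ?_⟩
    exact h2.not_pa h3.dual
  exact ⟨g', J, hJ', fun i hi ha hiJ => hR.1 i hi ha.dual hiJ, hz⟩

/-- **reciprocity** -/
theorem parity {S J : Finset ℕ} (hS : ∀ p ∈ S, c.rc.Φ.P p)
    (hJ : ∀ q ∈ J, q ∈ S ∧ Ac c.A c.B q) (g : GG c.T) (hL : Lb c.A c.B (pd S) (UU g * pd J))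
    {z' : ℤ} (hz' : z' ∈ c.DS S) :
    ∑ p ∈ S.filter (Ac c.A c.B), c.rw0 S (ind J, g) p * (if (p : ℤ) ∣ z' then 1 else 0) = 0 := by
  have hCl := c.cl_all hS
  have hSp := hCl.prime
  have hJS : J ⊆ S := fun q hq => (hJ q hq).1
  have hJp : ∀ l ∈ J, l.Prime := fun l hl => hSp l (hJS hl)
  obtain ⟨g', J', hJ', hR', hzz⟩ := c.dual_nec hS hz'
  have hJp' : ∀ l ∈ J', l.Prime := fun l hl => hSp l (hJ' l hl).1
  have hsq : Squarefree z' := hz'.1
  have hsup := c.Sup_UU g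
  have hsup' := c.Sup_UU g'
  have ha0 : UU g * pd J ≠ 0 := mul_ne_zero (UU_ne c.hT g) (pd_pos hJp).ne'
  have hev := par ha0 hsq.ne_zero (S.filter (Ac c.A c.B))
    (fun p hp => (mem_filter.1 hp).2.pr) (orth two_ne_zero hL.2 hz'.2.2) (fun p hp hpW => by
      by_cases hbad : (p : ℤ) ∣ N2 c.A c.B
      · exact orth two_ne_zero (hL.1 p hbad) (hz'.2.1 p)
      · have hpP := Nat.prime_iff_prime_int.1 hp
        refine Sp_unit (nd_two hp hbad) (fun h => ?_) fun h => ?_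
        · rcases hpP.dvd_or_dvd h with h | h
          · exact hbad (hsup.2 p hp h)
          · have h1 := (dvd_pd_iff hp hJp).1 h
            exact hpW (mem_filter.2 (hJ p h1))
        · rw [hzz] at h
          rcases hpP.dvd_or_dvd h with h | h
          · exact hbad (hsup'.2 p hp h)
          · have h1 := (dvd_pd_iff hp hJp').1 h
            exact hpW (mem_filter.2 (hJ' p h1)))
  have key : ∀ p ∈ S.filter (Ac c.A c.B), c.rw0 S (ind J, g) p * (if (p : ℤ) ∣ z' then 1 else 0) =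
      if ¬ Sp (UU g * pd J) z' p then 1 else 0 := by
    intro p hp
    obtain ⟨hpS, ha⟩ := mem_filter.1 hp
    rw [c.rw_eq hJ g ha]
    have h1 := sp_act c.B0 c.hC hSp hJS hpS ha (fun h => ha.nd (hsup.2 p ha.pr h)) hsq
      (fun {_} => hz'.2.1 p) (fun hd => by
        have : Fact p.Prime := ⟨ha.pr⟩
        have hpJ' : p ∉ J' := fun h => hd (by
          rw [hzz]
          exact ((dvd_pd_iff ha.pr hJp').2 h).mul_left _)
        have hJ0 := nz_of (not_dvd_pd ha.pr hJp' hpJ')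
        rw [← ch_zero, hzz, Int.cast_mul, ch_mul (hsup'.nz ha.pr ha.nd) hJ0,
          ch_pd ha.pr hJp' hpJ']
        exact hR' p hpS ha hpJ')
    rcases two_cases (rr c.A c.B S J (UU g) p) with h2 | h2
    · rw [h2, zero_mul, if_neg]
      rw [h1, h2]
      rintro ⟨h3, -⟩
      exact zero_ne_one h3
    · rw [h2, one_mul]
      by_cases hd : (p : ℤ) ∣ z'
      · rw [if_pos hd, if_pos (h1.2 ⟨h2, hd⟩)]
      · rw [if_neg hd, if_neg fun h => hd (h1.1 h).2]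
  rw [sum_congr rfl key, ← sum_filter, sum_const, nsmul_eq_mul, mul_one]
  exact (ZMod.natCast_eq_zero_iff _ _).2 hev.two_dvd

end Cu

end Q44.BN
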