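import Pool.Agent.Q44.BN.Exi

/-!
# The quartics of the descent and the local classes
-/

set_option autoImplicit false

open scoped Classical

namespace Q44.BN

open Finset Filter Topology
open Q44.BC (lam lam_tail)
open Q44.TI (Loc SelS Loc_of_sq Loc_real)

/-- the quartic has a nontrivial solution -/
def Qs (K : Type) [Field K] (a b z : ℤ) : Prop := ∃ N M e : K, (M ≠ 0 ∨ e ≠ 0) ∧
  N ^ 2 = (z : K) * M ^ 4 + (a : K) * M ^ 2 * e ^ 2 + ((b / z : ℤ) : K) * e ^ 4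

/-- the squarefree divisors with everywhere locally solvable quartics -/
def SelQ (a b : ℤ) : Set ℤ := {z | Squarefree z ∧ z ∣ b ∧ Qs ℝ a b z ∧
  ∀ (p : ℕ) [Fact p.Prime], Qs ℚ_[p] a b z}

section field

variable {K : Type} [Field K] {A B z : ℤ}

theorem qs_of_loc (hz : (z : K) ≠ 0) (hd : z ∣ B) (h : Loc K A B z) : Qs K A B z := by
  obtain ⟨c, rfl⟩ := hd
  have hz0 : z ≠ 0 := by
    rintro rfl
    exact hz (by norm_num)
  obtain ⟨x, y, r, hx, hy, hr⟩ := h
  have hr0 : r ≠ 0 := by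
    rintro rfl
    apply hx
    rw [hr]
    ring
  refine ⟨y / (z * r), r, 1, Or.inl hr0, ?_⟩
  rw [Int.mul_ediv_cancel_left c hz0]
  push_cast at hy
  rw [hr] at hy
  field_simp
  linear_combination hy

theorem loc_of_qs (hz : (z : K) ≠ 0) (hd : z ∣ B) (h : Qs K A B z) :
    Loc K A B z ∨ IsSquare (z : K) ∨ IsSquare ((z : K) * B) := by
  obtain ⟨c, rfl⟩ := hd
  have hz0 : z ≠ 0 := by
    rintro rfl
    exact hz (by norm_num)
  obtain ⟨N, M, e, h1, h2⟩ := h
  rw [Int.mul_ediv_cancel_left c hz0] at h2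
  by_cases he : e = 0
  · subst he
    have hM : M ≠ 0 := h1.resolve_right (fun h => h rfl)
    refine Or.inr (Or.inl ⟨N / M ^ 2, ?_⟩)
    field_simp
    linear_combination -h2
  · by_cases hM : M = 0
    · subst hM
      refine Or.inr (Or.inr ⟨z * N / e ^ 2, ?_⟩)
      push_cast
      field_simp
      linear_combination -h2
    · refine Or.inl ⟨z * (M / e) ^ 2, z * M * N / e ^ 3, M / e, ?_, ?_, rfl⟩
      · exact mul_ne_zero hz (pow_ne_zero 2 (div_ne_zero hM he))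
      · push_cast
        field_simp
        linear_combination h2

end field

section padic

variable {p : ℕ} [hp : Fact p.Prime]

/-- the valuation of a sum with a dominating term -/
theorem val_dom {x y : ℚ_[p]} (hx : x ≠ 0) (h : ‖y‖ < ‖x‖) : x + y ≠ 0 ∧
    (x + y).valuation = x.valuation := by
  have h1 : ‖x + y‖ = ‖x‖ := by
    have := Padic.add_eq_max_of_ne (p := p) (q := x) (r := y) h.ne'
    rw [this]
    exact max_eq_left h.le
  have hxy : x + y ≠ 0 := by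
    intro h0
    rw [h0, norm_zero] at h1
    exact hx (norm_eq_zero.1 h1.symm)
  refine ⟨hxy, ?_⟩
  rw [Padic.norm_eq_zpow_neg_valuation hxy, Padic.norm_eq_zpow_neg_valuation hx] at h1
  have hp1 : (1 : ℝ) < p := by exact_mod_cast hp.out.one_lt
  have := zpow_right_injective₀ (by linarith) hp1.ne' h1
  linarith

/-- a prime of `z` divides `B` -/
theorem dvd_of_loc {A B z : ℤ} (hz : Squarefree z) (hpz : (p : ℤ) ∣ z) (h : Loc ℚ_[p] A B z) :
    (p : ℤ) ∣ B := by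
  by_contra hpB
  obtain ⟨x, y, r, hx, hy, hr⟩ := h
  have hr0 : r ≠ 0 := by
    rintro rfl
    apply hx
    rw [hr]
    ring
  have hz0 := hz.ne_zero
  have hzK : (z : ℚ_[p]) ≠ 0 := by exact_mod_cast hz0
  have hp0 : (p : ℤ) ≠ 0 := by exact_mod_cast hp.out.ne_zero
  have hB0 : B ≠ 0 := by
    rintro rfl
    exact hpB (dvd_zero _)
  have hBK : (B : ℚ_[p]) ≠ 0 := by exact_mod_cast hB0
  obtain ⟨m, hm⟩ := hpz
  have hm1 : ¬ (p : ℤ) ∣ m := Pool.Agent.Y814.BSD14.not_dvd_of_sqf hp.out hz hm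
  have hm0 : m ≠ 0 := by
    rintro rfl
    exact hm1 (dvd_zero _)
  have vz : (z : ℚ_[p]).valuation = 1 := by
    rw [Padic.valuation_intCast, hm, padicValInt.mul hp0 hm0, padicValInt_self,
      padicValInt.eq_zero_of_not_dvd hm1]
    rfl
  have vB : (B : ℚ_[p]).valuation = 0 := by
    rw [Padic.valuation_intCast, padicValInt.eq_zero_of_not_dvd hpB]
    rfl
  have vx : x.valuation = 1 + 2 * r.valuation := by
    rw [hr, Padic.valuation_mul hzK (pow_ne_zero 2 hr0), Padic.valuation_pow, vz]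
    norm_num
  have hp1 : (1 : ℝ) < p := by exact_mod_cast hp.out.one_lt
  have nx : ‖x‖ = (p : ℝ) ^ (-x.valuation) := Padic.norm_eq_zpow_neg_valuation hx
  have nA : ‖(A : ℚ_[p])‖ ≤ 1 := Padic.norm_int_le_one A
  have nB : ‖(B : ℚ_[p])‖ = 1 := by
    rw [Padic.norm_eq_zpow_neg_valuation hBK, vB, neg_zero, zpow_zero]
  have key : ∃ w : ℚ_[p], w ≠ 0 ∧ y ^ 2 = x * w ∧ (w.valuation = 0 ∨ w.valuation = 2 * x.valuation) := by
    rcases lt_or_ge 0 x.valuation with h | h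
    · have n1 : ‖x‖ < 1 := by
        rw [nx]
        exact zpow_lt_one_of_neg₀ hp1 (by omega)
      have n2 : ‖x ^ 2 + (A : ℚ_[p]) * x‖ < ‖(B : ℚ_[p])‖ := by
        rw [nB]
        have e : x ^ 2 + (A : ℚ_[p]) * x = (x + A) * x := by ring
        rw [e, norm_mul]
        have n3 : ‖x + (A : ℚ_[p])‖ ≤ 1 :=
          (Padic.nonarchimedean x (A : ℚ_[p])).trans (max_le n1.le nA)
        calc ‖x + (A : ℚ_[p])‖ * ‖x‖ ≤ 1 * ‖x‖ := mul_le_mul_of_nonneg_right n3 (norm_nonneg _)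
          _ < 1 := by linarith
      obtain ⟨h1, h2⟩ := val_dom hBK n2
      refine ⟨_, h1, ?_, Or.inl ?_⟩
      · linear_combination hy
      · rw [h2, vB]
    · have n1 : 1 < ‖x‖ := by
        rw [nx]
        exact one_lt_zpow₀ hp1 (by omega)
      have n2 : ‖(A : ℚ_[p]) * x + B‖ < ‖x ^ 2‖ := by
        have n3 : ‖(A : ℚ_[p]) * x + B‖ ≤ ‖x‖ := by
          refine (Padic.nonarchimedean _ _).trans (max_le ?_ ?_)
          · rw [norm_mul]
            calc ‖(A : ℚ_[p])‖ * ‖x‖ ≤ 1 * ‖x‖ := mul_le_mul_of_nonneg_right nA (norm_nonneg _)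
              _ = ‖x‖ := one_mul _
          · rw [nB]
            exact n1.le
        rw [norm_pow]
        nlinarith
      obtain ⟨h1, h2⟩ := val_dom (pow_ne_zero 2 hx) n2
      refine ⟨_, h1, ?_, Or.inr ?_⟩
      · linear_combination hy
      · rw [h2, Padic.valuation_pow]
        norm_num
  obtain ⟨w, hw, hyw, hv⟩ := key
  have hy0 : y ≠ 0 := by
    rintro rfl
    exact mul_ne_zero hx hw (by rw [← hyw]; ring)
  have h1 := congrArg Padic.valuation hyw
  rw [Padic.valuation_mul hx hw, Padic.valuation_pow] at h1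
  rcases hv with h2 | h2
  · rw [h2] at h1
    push_cast at h1
    omega
  · rw [h2] at h1
    push_cast at h1
    omega

end padic

/-- **the two descriptions of the Selmer group** -/
theorem SelQ_eq {A B : ℤ} (hB : 0 < B) (hC : A ^ 2 - 4 * B ≠ 0) : SelQ A B = SelS A B := by
  ext z
  constructor
  · rintro ⟨h1, h2, h3, h4⟩
    have hz0 := h1.ne_zero
    refine ⟨h1, fun p hp => ?_, ?_⟩
    · rcases loc_of_qs (by exact_mod_cast hz0) h2 (h4 p) with h | h | h
      · exact h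
      · exact Loc_of_sq hB.ne' hC hz0 p (Or.inl h)
      · exact Loc_of_sq hB.ne' hC hz0 p (Or.inr h)
    · have hpos : IsSquare (z : ℝ) ∨ IsSquare ((z : ℝ) * B) → 0 < z := by
        have hzR : (z : ℝ) ≠ 0 := by exact_mod_cast hz0
        have hBR : (0 : ℝ) < B := by exact_mod_cast hB
        rintro (⟨s, hs⟩ | ⟨s, hs⟩)
        · have : (0 : ℝ) < z := lt_of_le_of_ne (by rw [hs]; exact mul_self_nonneg s) hzR.symm
          exact_mod_cast this
        · have h5 : (0 : ℝ) ≤ z * B := by rw [hs]; exact mul_self_nonneg s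
          have h6 : (0 : ℝ) < z := by
            rcases lt_or_gt_of_ne hzR with h7 | h7
            · exact absurd h5 (not_le.2 (mul_neg_of_neg_of_pos h7 hBR))
            · exact h7
          exact_mod_cast h6
      rcases loc_of_qs (by exact_mod_cast hz0) h2 h3 with h | h
      · exact h
      · exact Loc_real hB.ne' hC (hpos h)
  · rintro ⟨h1, h2, h3⟩
    have hz0 := h1.ne_zero
    have hd : z ∣ B := by
      rw [← Int.natAbs_dvd_natAbs]
      rw [← Nat.prod_primeFactors_of_squarefree (Int.squarefree_natAbs.2 h1)]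
      refine Finset.prod_primes_dvd _ (fun p hp => (Nat.prime_of_mem_primeFactors hp).prime)
        fun p hp => ?_
      have hpp := Nat.prime_of_mem_primeFactors hp
      have : Fact p.Prime := ⟨hpp⟩
      rw [← Int.natCast_dvd]
      exact dvd_of_loc h1 (Int.natCast_dvd.2 (Nat.dvd_of_mem_primeFactors hp)) (h2 p)
    exact ⟨h1, hd, qs_of_loc (by exact_mod_cast hz0) hd h3,
      fun p hp => qs_of_loc (by exact_mod_cast hz0) hd (h2 p)⟩

namespace Cd

variable (e : Cd)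

theorem pos_D {D : ℤ} (hD : D ≠ 0) : (0 < e.b * D ^ 2 ∧ (e.a * D) ^ 2 - 4 * (e.b * D ^ 2) ≠ 0) ∧
    0 < (e.a * D) ^ 2 - 4 * (e.b * D ^ 2) ∧
    (-2 * (e.a * D)) ^ 2 - 4 * ((e.a * D) ^ 2 - 4 * (e.b * D ^ 2)) ≠ 0 := by
  obtain ⟨hb, hc⟩ := e.pos_bc
  have hD2 : 0 < D ^ 2 := by positivity
  have e1 : (e.a * D) ^ 2 - 4 * (e.b * D ^ 2) = (e.a ^ 2 - 4 * e.b) * D ^ 2 := by ring
  have e2 : (-2 * (e.a * D)) ^ 2 - 4 * ((e.a * D) ^ 2 - 4 * (e.b * D ^ 2)) =
      16 * (e.b * D ^ 2) := by ring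
  have h1 : 0 < e.b * D ^ 2 := mul_pos hb hD2
  have h2 : 0 < (e.a * D) ^ 2 - 4 * (e.b * D ^ 2) := by
    rw [e1]
    exact mul_pos hc hD2
  refine ⟨⟨h1, h2.ne'⟩, h2, ?_⟩
  rw [e2]
  exact (mul_pos (by norm_num) h1).ne'

theorem nS_eq {D : ℤ} (hD : D ≠ 0) : (SelQ (e.a * D) (e.b * D ^ 2)).ncard = e.nS D := by
  obtain ⟨⟨h1, h2⟩, -, -⟩ := e.pos_D hD
  rw [SelQ_eq h1 h2]
  rfl

theorem nS'_eq {D : ℤ} (hD : D ≠ 0) :
    (SelQ (-2 * (e.a * D)) ((e.a * D) ^ 2 - 4 * (e.b * D ^ 2))).ncard = e.nS' D := by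
  obtain ⟨-, h1, h2⟩ := e.pos_D hD
  rw [SelQ_eq h1 h2]
  rfl

/-- equivalent properties -/
theorem prp_congr {D₀ : ℤ} {P Q : ℤ → Prop} {c : ℝ} (h : ∀ D, Squarefree D → (P D ↔ Q D))
    (hP : e.Prp D₀ P c) : e.Prp D₀ Q c := by
  refine Tendsto.congr (fun X => ?_) hP
  refine congrArg₂ (fun x y : ℕ => (x : ℝ) / (y : ℝ)) ?_ rfl
  congr 1
  ext D
  rw [mem_filter, mem_filter]
  exact and_congr_right fun hD => and_congr_right fun _ => h D (mem_Sq.1 hD).2

/-- **both Selmer groups are as small as possible** -/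
theorem facts_sm {D₀ : ℤ} (h : Squarefree D₀) (ht : e.tau D₀ = 1) :
    e.Prp D₀ (fun D => e.nS D = 2 ∧ e.nS' D = 2) (lam 1 0) := by
  obtain ⟨g, d, h1, h2, rfl⟩ := e.dec h
  rw [← e.t_cu g h2] at ht
  have k : e.Prp (UU g * d) e.SmD (lam 1 0) := e.prp_mk (e.law_sm g h2 h1 ht)
  refine e.prp_congr (fun D hD => ?_) k
  obtain ⟨r, hr⟩ := (e.pow_nS hD).2.2.2
  constructor
  · rintro ⟨k1, k2⟩
    refine ⟨k1, le_antisymm k2 ?_⟩
    rw [hr, pow_succ]
    have := Nat.one_le_two_pow (n := r)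
    omega
  · rintro ⟨k1, k2⟩
    exact ⟨k1, k2.le⟩

/-- **the orders of the Selmer groups of the twists** -/
theorem sel_tail : ∃ C : ℝ, 0 < C ∧ ∀ R : ℕ, ∀ᶠ X : ℕ in atTop,
    (((Sq X).filter fun D => 4 * 4 ^ R < e.nS D * e.nS' D).card : ℝ) ≤
      C ^ (R + 1) / 2 ^ ((R + 1) * R) * ((Sq X).card : ℝ) := by
  -- the constants
  have h1 : ∀ κ : e.KK, ∃ C : ℝ, 0 < C ∧ ∀ R : ℕ,
      |1 - ∑ r ∈ range (R + 1), lam (e.cκ κ).t r| < C ^ (R + 1) / 2 ^ ((R + 1) * R) ∧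
      |1 - ∑ r ∈ range (R + 1), lam (e.cδ κ).t r| < C ^ (R + 1) / 2 ^ ((R + 1) * R) := by
    intro κ
    obtain ⟨C₁, hC₁, hT₁⟩ := lam_tail (e.cκ κ).t_pos.le
    obtain ⟨C₂, hC₂, hT₂⟩ := lam_tail (e.cδ κ).t_pos.le
    have ht₁ := (e.cκ κ).t_pos
    have ht₂ := (e.cδ κ).t_pos
    refine ⟨(C₁ + 1) * (e.cκ κ).t + (C₂ + 1) * (e.cδ κ).t, by positivity, fun R => ?_⟩
    have key : ∀ c t s : ℝ, 0 < c → 0 < t → 0 < s → c * t ^ (R + 1) < ((c + 1) * t + s) ^ (R + 1) := by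
      intro c t s hc ht hs
      have k1 : (c + 1) * t < (c + 1) * t + s := by linarith
      have k2 : ((c + 1) * t) ^ (R + 1) < ((c + 1) * t + s) ^ (R + 1) :=
        pow_lt_pow_left₀ k1 (by positivity) (Nat.succ_ne_zero R)
      have k3 : c * t ^ (R + 1) ≤ ((c + 1) * t) ^ (R + 1) := by
        rw [mul_pow]
        refine mul_le_mul_of_nonneg_right ?_ (by positivity)
        have : (1 : ℝ) ≤ c + 1 := by linarith
        calc c ≤ c + 1 := by linarith
          _ = (c + 1) ^ 1 := (pow_one _).symm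
          _ ≤ (c + 1) ^ (R + 1) := pow_le_pow_right₀ this (by omega)
      exact k3.trans_lt k2
    constructor
    · refine (hT₁ R).trans_lt (div_lt_div_of_pos_right ?_ (by positivity))
      exact key _ _ _ hC₁ ht₁ (by positivity)
    · refine (hT₂ R).trans_lt (div_lt_div_of_pos_right ?_ (by positivity))
      have := key _ _ ((C₁ + 1) * (e.cκ κ).t) hC₂ ht₂ (by positivity)
      rw [add_comm ((C₂ + 1) * (e.cδ κ).t)] at this
      exact this
  choose c hc hT using h1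
  have hne : Nonempty e.KK := ⟨0⟩
  set C₀ : ℝ := ∑ κ, c κ with hC₀
  have hC₀p : 0 < C₀ := sum_pos (fun κ _ => hc κ) univ_nonempty
  have hle : ∀ κ, c κ ≤ C₀ := fun κ => single_le_sum (fun κ _ => (hc κ).le) (mem_univ κ)
  refine ⟨2 * C₀, by positivity, fun R => ?_⟩
  have hcls : ∀ X, (Sq X).card = ∑ κ : e.KK,
      ((Sq X).filter fun D => Same e.a e.b (e.rep κ) D).card := by
    intro X
    refine Eq.trans ?_ ((e.sum_cls X fun _ => True).trans ?_)
    · exact (congrArg Finset.card (filt_true _ fun _ => trivial)).symm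
    exact sum_congr rfl fun κ _ => cardS (fun D => ⟨fun h => h.1, fun h => ⟨h, trivial⟩⟩) _
  have h3 : ∀ (c' : e.KK → Cu) (n : ℤ → ℕ) (_ : ∀ (κ : e.KK) (r : ℕ),
      Tendsto (fun X : ℕ => (((Sq X).filter fun D => Same e.a e.b (e.rep κ) D ∧
        n D = 2 ^ (r + 1)).card : ℝ) /
      (((Sq X).filter fun D => Same e.a e.b (e.rep κ) D).card : ℝ)) atTop
      (𝓝 (lam (c' κ).t r))) (_ : ∀ κ, |1 - ∑ r ∈ range (R + 1), lam (c' κ).t r| <
        c κ ^ (R + 1) / 2 ^ ((R + 1) * R)), ∀ᶠ X : ℕ in atTop,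
      (((Sq X).filter (BigN n R)).card : ℝ) ≤
        C₀ ^ (R + 1) / 2 ^ ((R + 1) * R) * ((Sq X).card : ℝ) := by
    intro c' n hlaw htl
    refine tail_all Sq (fun κ D => Same e.a e.b (e.rep κ) D) (BigN n R) hcls
      (fun X => e.sum_cls X (BigN n R)) fun κ => ?_
    refine tail_lim (hlaw κ) R ((htl κ).trans_le ?_)
    exact div_le_div_of_nonneg_right (pow_le_pow_left₀ (hc κ).le (hle κ) _) (by positivity)
  filter_upwards [h3 e.cκ e.nS e.lawκ fun κ => (hT κ R).1, h3 e.cδ e.nS' e.lawκ' fun κ => (hT κ R).2]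
    with X hX hX'
  have h4 : (Sq X).filter (fun D => 4 * 4 ^ R < e.nS D * e.nS' D) ⊆
      ((Sq X).filter (BigN e.nS R)) ∪ ((Sq X).filter (BigN e.nS' R)) := by
    intro D hD
    rw [mem_filter] at hD
    rw [mem_union, mem_filter, mem_filter]
    by_contra hcon
    have hsq := (mem_Sq.1 hD.1).2
    have h5 : (∃ r ≤ R, e.nS D = 2 ^ (r + 1)) ∧ ∃ r ≤ R, e.nS' D = 2 ^ (r + 1) := by
      constructor
      · by_contra h6
        exact hcon (Or.inl ⟨hD.1, fun r hr hn => h6 ⟨r, hr, hn⟩⟩)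
      · by_contra h6
        exact hcon (Or.inr ⟨hD.1, fun r hr hn => h6 ⟨r, hr, hn⟩⟩)
    obtain ⟨⟨r, hr, h6⟩, r', hr', h7⟩ := h5
    have h9 : 2 ^ (r + 1) * 2 ^ (r' + 1) ≤ 4 * 4 ^ R := by
      have e1 : 4 * 4 ^ R = 2 ^ (R + 1) * 2 ^ (R + 1) := by
        have : (4 : ℕ) = 2 * 2 := rfl
        rw [this, mul_pow, pow_succ]
        ring
      rw [e1]
      exact Nat.mul_le_mul (Nat.pow_le_pow_right (by norm_num) (by omega))
        (Nat.pow_le_pow_right (by norm_num) (by omega))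
    have h8 := hD.2
    rw [h6, h7] at h8
    omega
  have h5 : (((Sq X).filter fun D => 4 * 4 ^ R < e.nS D * e.nS' D).card : ℝ) ≤
      (((Sq X).filter (BigN e.nS R)).card : ℝ) + (((Sq X).filter (BigN e.nS' R)).card : ℝ) := by
    exact_mod_cast (card_le_card h4).trans (card_union_le _ _)
  have h6 : 2 * (C₀ ^ (R + 1) / 2 ^ ((R + 1) * R)) ≤ (2 * C₀) ^ (R + 1) / 2 ^ ((R + 1) * R) := by
    rw [mul_pow, mul_div_assoc]
    refine mul_le_mul_of_nonneg_right ?_ (by positivity)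
    calc (2 : ℝ) = 2 ^ 1 := (pow_one _).symm
      _ ≤ 2 ^ (R + 1) := pow_le_pow_right₀ (by norm_num) (by omega)
  have h7 := mul_le_mul_of_nonneg_right h6 (Nat.cast_nonneg (α := ℝ) (Sq X).card)
  linarith

/-- **a positive proportion of the twists** -/
theorem pos_sm {D₀ : ℤ} (hD : Squarefree D₀) (ht : e.tau D₀ = 1) : ∃ η : ℝ, 0 < η ∧
    ∀ᶠ X : ℕ in atTop, η * (X : ℝ) ≤
      (((Sq X).filter fun D => e.nS D = 2 ∧ e.nS' D = 2).card : ℝ) := by
  have h1 := e.facts_sm hD ht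
  obtain ⟨η, X₀, hη, hX₀⟩ := e.density hD
  have hl : 0 < lam 1 0 := by
    have := lam_one.1
    linarith
  refine ⟨lam 1 0 / 2 * η, by positivity, ?_⟩
  filter_upwards [h1.eventually (lt_mem_nhds (half_lt_self hl)), eventually_ge_atTop X₀,
    eventually_ge_atTop 1] with X hX hX0 hX1
  have h2 := hX₀ X hX0
  have hX1' : (1 : ℝ) ≤ X := by exact_mod_cast hX1
  have hN : (0 : ℝ) < (((Sq X).filter fun D => Same e.a e.b D₀ D).card : ℝ) := by
    refine lt_of_lt_of_le ?_ h2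
    positivity
  rw [lt_div_iff₀ hN] at hX
  have h3 : (((Sq X).filter fun D => Same e.a e.b D₀ D ∧ (e.nS D = 2 ∧ e.nS' D = 2)).card : ℝ) ≤
      (((Sq X).filter fun D => e.nS D = 2 ∧ e.nS' D = 2).card : ℝ) := by
    refine Nat.cast_le.2 (card_le_card fun D hD => ?_)
    rw [mem_filter] at hD ⊢
    exact ⟨hD.1, hD.2.2⟩
  calc lam 1 0 / 2 * η * (X : ℝ) = lam 1 0 / 2 * (η * X) := by ring
    _ ≤ lam 1 0 / 2 * (((Sq X).filter fun D => Same e.a e.b D₀ D).card : ℝ) :=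
        mul_le_mul_of_nonneg_left h2 (by positivity)
    _ ≤ _ := hX.le.trans (le_trans (le_of_eq (congrArg Nat.cast (cardS (fun D => Iff.rfl) _))) h3)

end Cd

end Q44.BN
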