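import Pool.Agent.Q44.BN.Act

/-!
# The isogeny Selmer groups of the twists by integers prime to the bad primes
-/

set_option autoImplicit false

open scoped Classical

namespace Q44.BN

open Finset
open Pool.Agent.Y700 (PC)
open Pool.Agent.Y814.BSD14 Pool.Agent.Y809.BSD14
open Pool.Agent.Y703.CQ (nr)
open Q44.TI (Loc SelS pd fd ch nr_ch ch_zero ch_mul ch_pd ch_sq zmod2 zmod2' fd_zero Loc_good Loc_of_sq
  Loc_real PC_of_Loc padic_sq sq_mul_of pd_erase pd_sdiff not_dvd_pd dvd_pd_iff pd_pos nz_of sqf_prod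
  Loc_mul_sq pd_real)

/-- the bad number -/
def N2 (A B : ℤ) : ℤ := 2 * (B * (A ^ 2 - 4 * B))

/-- the primes of the set are active or passive -/
def Cl (A B : ℤ) (S : Finset ℕ) : Prop := ∀ p ∈ S, Ac A B p ∨ Pa A B p

/-- the rows of the active primes -/
def Row (A B : ℤ) (S J : Finset ℕ) (u : ℤ) : Prop :=
  (∀ i ∈ S, Ac A B i → i ∉ J → ch ((u : ℤ) : ZMod i) + ∑ j ∈ J, nr i j = 0) ∧
    ∀ i ∈ J, fd A B i + ch ((u : ℤ) : ZMod i) + ∑ q ∈ S \ J, nr i q = 0

/-- the conditions at the bad places -/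
def Lb (A B D z : ℤ) : Prop :=
  (∀ (p : ℕ) [Fact p.Prime], (p : ℤ) ∣ N2 A B → Loc ℚ_[p] (A * D) (B * D ^ 2) z) ∧
    Loc ℝ (A * D) (B * D ^ 2) z

/-- supported on the bad primes -/
def Sup (A B u : ℤ) : Prop :=
  Squarefree u ∧ ∀ p : ℕ, p.Prime → (p : ℤ) ∣ u → (p : ℤ) ∣ N2 A B

variable {A B : ℤ}

theorem Cl.prime {S : Finset ℕ} (h : Cl A B S) : ∀ p ∈ S, p.Prime := fun p hp => by
  rcases h p hp with h | h
  · exact h.pr
  · exact h.pr

theorem Cl.nd {S : Finset ℕ} (h : Cl A B S) : ∀ p ∈ S, ¬ (p : ℤ) ∣ N2 A B := fun p hp => by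
  rcases h p hp with h | h
  · exact h.nd
  · exact h.nd

theorem Sup.nz {u : ℤ} (h : Sup A B u) {p : ℕ} (hp : p.Prime) (hd : ¬ (p : ℤ) ∣ N2 A B) :
    ((u : ℤ) : ZMod p) ≠ 0 := nz_of fun h' => hd (h.2 p hp h')

/-- the decomposition of `D` at a prime of `S` -/
theorem D_split {S : Finset ℕ} (hS : ∀ p ∈ S, p.Prime) {p : ℕ}
    (hp : p ∈ S) : pd S = p * pd (S.erase p) ∧ ¬ (p : ℤ) ∣ pd (S.erase p) :=
  ⟨pd_erase hp, not_dvd_pd (hS p hp) (fun l hl => hS l (Finset.mem_of_mem_erase hl))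
    (Finset.notMem_erase p S)⟩

/-- the product at a prime of `J` -/
theorem ch_J {S J : Finset ℕ} (hS : ∀ l ∈ S, l.Prime) (hJS : J ⊆ S) {p : ℕ} (hp : p ∈ J) {u : ℤ}
    (hu : ((u : ℤ) : ZMod p) ≠ 0) :
    ch (((pd (S.erase p) * (u * pd (J.erase p)) : ℤ)) : ZMod p) =
      ch ((u : ℤ) : ZMod p) + ∑ q ∈ S \ J, nr p q := by
  have hpp := hS p (hJS hp)
  have f : Fact p.Prime := ⟨hpp⟩
  have hJe : ((pd (J.erase p) : ℤ) : ZMod p) ≠ 0 := nz_of (not_dvd_pd hpp
      (fun l hl => hS l (hJS (Finset.mem_of_mem_erase hl))) (Finset.notMem_erase p J))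
  have hpSJ : p ∉ S \ J := fun h => (Finset.mem_sdiff.1 h).2 hp
  have hSJp : ∀ l ∈ S \ J, l.Prime := fun l hl => hS l (Finset.mem_sdiff.1 hl).1
  have hSJ0 := nz_of (not_dvd_pd hpp hSJp hpSJ)
  have e2 : pd (S.erase p) = pd (J.erase p) * pd (S \ J) := by
    have hp0 : (p : ℤ) ≠ 0 := by exact_mod_cast hpp.ne_zero
    apply mul_left_cancel₀ hp0
    rw [← pd_erase (hJS hp), pd_sdiff hJS, pd_erase hp]
    ring
  rw [← ch_pd hpp hSJp hpSJ, ← ch_mul hu hSJ0]
  have e3 : ((pd (S.erase p) * (u * pd (J.erase p)) : ℤ) : ZMod p) =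
      (pd (J.erase p) : ZMod p) ^ 2 * (((u : ℤ) : ZMod p) * ((pd (S \ J) : ℤ) : ZMod p)) := by
    rw [e2]
    push_cast
    ring
  rw [e3, ch_sq (IsSquare.sq _) (pow_ne_zero 2 hJe) (mul_ne_zero hu hSJ0)]

/-- **necessary conditions** -/
theorem nec (hB : B ≠ 0) (hC : A ^ 2 - 4 * B ≠ 0) {S : Finset ℕ} (hS : Cl A B S) {z : ℤ}
    (hz : z ∈ SelS (A * pd S) (B * pd S ^ 2)) :
    ∃ u J, Sup A B u ∧ (∀ q ∈ J, q ∈ S ∧ Ac A B q) ∧ Row A B S J u ∧ Lb A B (pd S) (u * pd J) ∧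
      z = u * pd J := by
  obtain ⟨hsq, hloc, hreal⟩ := hz
  have hSp := hS.prime
  have hD0 := (pd_pos hSp).ne'
  have eC : (A * pd S) ^ 2 - 4 * (B * pd S ^ 2) = (A ^ 2 - 4 * B) * pd S ^ 2 := by ring
  have hC0 : (A * pd S) ^ 2 - 4 * (B * pd S ^ 2) ≠ 0 := by
    rw [eC]
    exact mul_ne_zero hC (pow_ne_zero 2 hD0)
  have hPC : ∀ (p : ℕ) [Fact p.Prime], PC (A * pd S) (B * pd S ^ 2) p z := fun p _ =>
    PC_of_Loc hC0 p (hloc p)
  -- the form of the condition at a prime of `S`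
  have hform : ∀ p ∈ S, ∀ [Fact p.Prime], ∀ D' : ℤ, pd S = p * D' →
      PC (p * (A * D')) (p ^ 2 * (B * D' ^ 2)) p z := by
    intro p hp _ D' hD'
    have h1 := hPC p
    rw [hD'] at h1
    have e1 : A * ((p : ℤ) * D') = p * (A * D') := by ring
    have e2 : B * ((p : ℤ) * D') ^ 2 = p ^ 2 * (B * D' ^ 2) := by ring
    rw [e1, e2] at h1
    exact h1
  -- the primes dividing `z`
  have hpr : ∀ q : ℕ, q.Prime → (q : ℤ) ∣ z → (q : ℤ) ∣ N2 A B ∨ (q ∈ S ∧ Ac A B q) := by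
    intro q hq hqz
    by_contra hcon
    push Not at hcon
    have : Fact q.Prime := ⟨hq⟩
    have hqP : Prime (q : ℤ) := Nat.prime_iff_prime_int.1 hq
    have hqB : ¬ (q : ℤ) ∣ B := nd_B hcon.1
    by_cases hqS : q ∈ S
    · obtain ⟨h1, h2⟩ := D_split hSp hqS
      have hnB : ¬ (q : ℤ) ∣ B * pd (S.erase q) ^ 2 := by
        intro h0
        rcases hqP.dvd_or_dvd h0 with h3 | h3
        · exact hqB h3
        · exact h2 (hqP.dvd_of_dvd_pow h3)
      obtain ⟨r, hr, -, -⟩ := root_of_PC hsq hqz hnB (hform q hqS _ h1)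
      have hDz := nz_of h2
      have hpas : Pa A B q := (hS q hqS).resolve_left (hcon.2 hqS)
      apply hpas.nsC
      refine ⟨(2 * r + A * pd (S.erase q)) / pd (S.erase q), ?_⟩
      rw [div_mul_div_comm, eq_div_iff (mul_ne_zero hDz hDz)]
      push_cast at hr ⊢
      linear_combination -4 * hr
    · refine not_dvd_of_PC hsq ?_ (hPC q) hqz
      intro h0
      rcases hqP.dvd_or_dvd h0 with h0 | h0
      · exact hqB h0
      · exact not_dvd_pd hq hSp hqS (hqP.dvd_of_dvd_pow h0)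
  -- the decomposition
  set J := S.filter (fun p : ℕ => Ac A B p ∧ (p : ℤ) ∣ z) with hJdef
  have hJm : ∀ p, p ∈ J ↔ p ∈ S ∧ Ac A B p ∧ (p : ℤ) ∣ z := fun p => Finset.mem_filter
  have hJS : J ⊆ S := Finset.filter_subset _ _
  have hJa : ∀ q ∈ J, Ac A B q := fun q hq => ((hJm q).1 hq).2.1
  have hJp : ∀ q ∈ J, q.Prime := fun q hq => (hJa q hq).pr
  have hdvd : pd J ∣ z := by
    unfold pd
    rw [Int.natCast_dvd]
    refine Finset.prod_primes_dvd _ (fun q hq => (hJp q hq).prime) fun q hq => ?_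
    exact Int.natCast_dvd.1 ((hJm q).1 hq).2.2
  obtain ⟨u, hu'⟩ := hdvd
  have hu : z = u * pd J := by rw [hu', mul_comm]
  have hu0 : u ≠ 0 := by
    rintro rfl
    rw [zero_mul] at hu
    exact hsq.ne_zero hu
  have hsup : Sup A B u := by
    refine ⟨hsq.squarefree_of_dvd (Dvd.intro _ hu.symm), fun q hq hqu => ?_⟩
    have hqz : (q : ℤ) ∣ z := by
      rw [hu]
      exact hqu.mul_right _
    rcases hpr q hq hqz with h1 | h1
    · exact h1
    · exfalso
      have hqJ : q ∈ J := (hJm q).2 ⟨h1.1, h1.2, hqz⟩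
      have h2 : z = q * (pd (J.erase q) * u) := by
        rw [hu, pd_erase hqJ]
        ring
      exact not_dvd_of_sqf hq hsq h2 (hqu.mul_left _)
  refine ⟨u, J, hsup, fun q hq => ⟨hJS hq, hJa q hq⟩, ⟨?_, ?_⟩, ?_, hu⟩
  · intro p hpS hact hpJ
    have f : Fact p.Prime := ⟨hact.pr⟩
    have hpz : ¬ (p : ℤ) ∣ z := fun h0 => hpJ ((hJm p).2 ⟨hpS, hact, h0⟩)
    obtain ⟨h1, h2⟩ := D_split hSp hpS
    have h3 : PC (A * (p * pd (S.erase p))) (B * (p * pd (S.erase p)) ^ 2) p z := by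
      rw [← h1]
      exact hPC p
    have h4 := sq_of_PC hpz h2 hact.nB hact.sqB h3
    have hu1 := hsup.nz hact.pr hact.nd
    have hJ0 := nz_of (not_dvd_pd hact.pr hJp hpJ)
    rw [← ch_pd hact.pr hJp hpJ, ← ch_mul hu1 hJ0, ch_zero]
    rw [hu] at h4
    push_cast at h4
    exact h4
  · intro p hp
    have hact := hJa p hp
    have hpS := hJS hp
    have hpp := hact.pr
    have f : Fact p.Prime := ⟨hpp⟩
    obtain ⟨h1, h2⟩ := D_split hSp hpS
    have hDz := nz_of h2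
    have hnB : ¬ (p : ℤ) ∣ B * pd (S.erase p) ^ 2 := by
      intro h0
      rcases (Nat.prime_iff_prime_int.1 hpp).dvd_or_dvd h0 with h3 | h3
      · exact hact.nB h3
      · exact h2 ((Nat.prime_iff_prime_int.1 hpp).dvd_of_dvd_pow h3)
    obtain ⟨z', hz'⟩ := ((hJm p).1 hp).2.2
    obtain ⟨r, hr, hr0, hrz⟩ := root_of_PC hsq ⟨z', hz'⟩ hnB (hform p hpS _ h1)
    have hrz' := hrz z' hz'
    have hz'0 := nz_of (not_dvd_of_sqf hpp hsq hz')
    -- the root of the polynomial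
    have hρ : (r / pd (S.erase p)) ^ 2 + (A : ZMod p) * (r / pd (S.erase p)) + (B : ZMod p) = 0 := by
      push_cast at hr
      field_simp
      linear_combination hr
    have hfd := fd_root hact hρ
    have e1 : z' = u * pd (J.erase p) := by
      have hp0 : (p : ℤ) ≠ 0 := by exact_mod_cast hpp.ne_zero
      apply mul_left_cancel₀ hp0
      rw [← hz', hu, pd_erase hp]
      ring
    have hu1 := hsup.nz hpp hact.nd
    have hch := ch_J hSp hJS hp hu1
    rw [← e1] at hch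
    have hDz'0 : ((pd (S.erase p) * z' : ℤ) : ZMod p) ≠ 0 := by
      push_cast
      exact mul_ne_zero hDz hz'0
    -- the class of `r`
    have e4 : r * (z' : ZMod p) = (r / pd (S.erase p)) * ((pd (S.erase p) * z' : ℤ) : ZMod p) := by
      push_cast
      field_simp
    have hq0 : r / (pd (S.erase p) : ZMod p) ≠ 0 := div_ne_zero hr0 hDz
    rw [e4, ← ch_zero, ch_mul hq0 hDz'0, hch, ← hfd, ← add_assoc] at hrz'
    exact hrz'
  · rw [← hu]
    exact ⟨fun p _ _ => hloc p, hreal⟩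

/-- **sufficient conditions** -/
theorem suf (hB : B ≠ 0) (hC : A ^ 2 - 4 * B ≠ 0) {S : Finset ℕ} (hS : Cl A B S) {u : ℤ}
    (hu : Sup A B u) {J : Finset ℕ} (hJ : ∀ q ∈ J, q ∈ S ∧ Ac A B q) (hR : Row A B S J u)
    (hL : Lb A B (pd S) (u * pd J)) :
    u * pd J ∈ SelS (A * pd S) (B * pd S ^ 2) := by
  have hsq := hu.1
  obtain ⟨hJ1, hJ2⟩ := hR
  have hSp := hS.prime
  have hD0 := (pd_pos hSp).ne'
  have eC : (A * pd S) ^ 2 - 4 * (B * pd S ^ 2) = (A ^ 2 - 4 * B) * pd S ^ 2 := by ring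
  have hC0 : (A * pd S) ^ 2 - 4 * (B * pd S ^ 2) ≠ 0 := by
    rw [eC]
    exact mul_ne_zero hC (pow_ne_zero 2 hD0)
  have hB0 : B * pd S ^ 2 ≠ 0 := mul_ne_zero hB (pow_ne_zero 2 hD0)
  have hJS : J ⊆ S := fun q hq => (hJ q hq).1
  have hJa : ∀ q ∈ J, Ac A B q := fun q hq => (hJ q hq).2
  have hJp : ∀ q ∈ J, q.Prime := fun q hq => (hJa q hq).pr
  have hu0 : u ≠ 0 := hsq.ne_zero
  have hpd0 : pd J ≠ 0 := (pd_pos hJp).ne'
  refine ⟨?_, fun p hp => ?_, hL.2⟩
  · -- squarefree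
    rw [← Int.squarefree_natAbs, Int.natAbs_mul]
    have e : (pd J).natAbs = ∏ q ∈ J, q := by unfold pd; rw [Int.natAbs_natCast]
    rw [e]
    refine (Nat.squarefree_mul ?_).2 ⟨Int.squarefree_natAbs.2 hsq, sqf_prod hJp⟩
    refine Nat.Coprime.prod_right fun q hq => ?_
    rw [Nat.coprime_comm, (hJp q hq).coprime_iff_not_dvd]
    intro h
    exact (hJa q hq).nd (hu.2 q (hJp q hq) (Int.natCast_dvd.2 h))
  · by_cases hbad : (p : ℤ) ∣ N2 A B
    · exact hL.1 p hbad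
    have hpp := hp.out
    have hpP := Nat.prime_iff_prime_int.1 hpp
    have hp2 : p ≠ 2 := nd_two hpp hbad
    have hpB : ¬ (p : ℤ) ∣ B := nd_B hbad
    have hpC : ¬ (p : ℤ) ∣ A ^ 2 - 4 * B := nd_C hbad
    have hpu : ¬ (p : ℤ) ∣ u := fun h => hbad (hu.2 p hpp h)
    by_cases hpJ : p ∈ J
    · have hact := hJa p hpJ
      have hpS := hJS hpJ
      obtain ⟨h1, h2⟩ := D_split hSp hpS
      have hJe' : ¬ (p : ℤ) ∣ pd (J.erase p) := not_dvd_pd hpp
        (fun l hl => hJp l (Finset.mem_of_mem_erase hl)) (Finset.notMem_erase p J)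
      refine Loc_root (z' := u * pd (J.erase p)) (D' := pd (S.erase p)) p hact h1 ?_ h2 ?_ ?_
      · rw [pd_erase hpJ]
        ring
      · intro h
        rcases hpP.dvd_or_dvd h with h | h
        · exact hpu h
        · exact hJe' h
      · rw [← fd_zero, ← ch_zero, ch_J hSp hJS hpJ (hu.nz hpp hbad)]
        have h3 := hJ2 p hpJ
        rw [add_assoc] at h3
        exact zmod2' h3
    · have hpz : ¬ (p : ℤ) ∣ u * pd J := by
        intro h
        rcases hpP.dvd_or_dvd h with h | h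
        · exact hpu h
        · exact not_dvd_pd hpp hJp hpJ h
      have hz0 : u * pd J ≠ 0 := mul_ne_zero hu0 hpd0
      by_cases hpS : p ∈ S
      · rcases hS p hpS with hact | hpas
        · refine Loc_of_sq hB0 hC0 hz0 p (Or.inl (padic_sq hp2 hpz ?_))
          have hJ0 := nz_of (not_dvd_pd hpp hJp hpJ)
          push_cast
          rw [← ch_zero, ch_mul (hu.nz hpp hbad) hJ0, ch_pd hpp hJp hpJ]
          exact hJ1 p hpS hact hpJ
        · by_cases hs : IsSquare ((u * pd J : ℤ) : ZMod p)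
          · exact Loc_of_sq hB0 hC0 hz0 p (Or.inl (padic_sq hp2 hpz hs))
          · refine Loc_of_sq hB0 hC0 hz0 p (Or.inr ?_)
            have h1 : IsSquare (((u * pd J) * B : ℤ) : ZMod p) := by
              rw [Int.cast_mul]
              exact sq_mul_of hs hpas.nsB
            have h3 : ¬ (p : ℤ) ∣ (u * pd J) * B := by
              intro h
              rcases hpP.dvd_or_dvd h with h | h
              · exact hpz h
              · exact hpB h
            obtain ⟨r, hr⟩ := padic_sq hp2 h3 h1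
            refine ⟨r * pd S, ?_⟩
            push_cast at hr ⊢
            linear_combination (pd S : ℚ_[p]) ^ 2 * hr
      · refine Loc_good p hp2 hpB hpC ?_ hpz
        exact not_dvd_pd hpp hSp hpS

/-- the decomposition is unique -/
theorem uniq {u u' : ℤ} {J J' : Finset ℕ} (hu : Sup A B u) (hu' : Sup A B u')
    (hJ : ∀ q ∈ J, Ac A B q) (hJ' : ∀ q ∈ J', Ac A B q) (h : u * pd J = u' * pd J') :
    u = u' ∧ J = J' := by
  have key : ∀ (v : ℤ) (K : Finset ℕ), Sup A B v → (∀ q ∈ K, Ac A B q) → ∀ p, Ac A B p →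
      ((p : ℤ) ∣ v * pd K ↔ p ∈ K) := by
    intro v K hv hK p hp
    have hKp : ∀ l ∈ K, l.Prime := fun l hl => (hK l hl).pr
    constructor
    · intro h1
      rcases (Nat.prime_iff_prime_int.1 hp.pr).dvd_or_dvd h1 with h2 | h2
      · exact absurd (hv.2 p hp.pr h2) hp.nd
      · exact (dvd_pd_iff hp.pr hKp).1 h2
    · intro h1
      exact ((dvd_pd_iff hp.pr hKp).2 h1).mul_left _
  have hJJ : J = J' := by
    ext p
    constructor
    · intro hp
      rw [← key u' J' hu' hJ' p (hJ p hp), ← h]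
      exact (key u J hu hJ p (hJ p hp)).2 hp
    · intro hp
      rw [← key u J hu hJ p (hJ' p hp), h]
      exact (key u' J' hu' hJ' p (hJ' p hp)).2 hp
  subst hJJ
  have h0 : pd J ≠ 0 := (pd_pos fun l hl => (hJ l hl).pr).ne'
  exact ⟨mul_right_cancel₀ h0 h, rfl⟩

end Q44.BN
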