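import Pool.Agent.Q44.BN.Hil
import Pool.Agent.W310.BMX.Rep

/-!
# Integers in given local square classes
-/

set_option autoImplicit false

open scoped Classical

namespace Q44.BN

open Finset
open Q44.TI (padic_sq padic_sq2)

theorem sq_near {p : ℕ} [hp : Fact p.Prime] {m : ℤ} (hm : ¬ (p : ℤ) ∣ m) {t : ℕ} (ht : t ≤ 1)
    (j : ℤ) : IsSquare ((((p : ℤ) ^ t * m) * ((p : ℤ) ^ t * m + (p : ℤ) ^ 4 * j) : ℤ) : ℚ_[p]) := by
  obtain ⟨k, hk⟩ : ∃ k : ℤ, (p : ℤ) ^ 4 * j = (p : ℤ) ^ t * ((p : ℤ) ^ 3 * k) := by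
    interval_cases t
    · exact ⟨p * j, by ring⟩
    · exact ⟨j, by ring⟩
  have e : ((p : ℤ) ^ t * m) * ((p : ℤ) ^ t * m + (p : ℤ) ^ 4 * j) =
      ((p : ℤ) ^ t) ^ 2 * (m * (m + (p : ℤ) ^ 3 * k)) := by
    rw [hk]
    ring
  rw [e, Int.cast_mul, Int.cast_pow]
  refine (IsSquare.sq _).mul ?_
  by_cases h2 : p = 2
  · subst h2
    apply padic_sq2
    have h3 : m % 2 = 1 := by
      push_cast at hm
      omega
    have h4 : m * m % 8 = 1 := by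
      have h5 : m % 8 = 1 ∨ m % 8 = 3 ∨ m % 8 = 5 ∨ m % 8 = 7 := by omega
      rcases h5 with h | h | h | h <;> rw [Int.mul_emod, h] <;> norm_num
    have e2 : m * (m + ((2 : ℕ) : ℤ) ^ 3 * k) = m * m + 8 * (m * k) := by
      push_cast
      ring
    rw [e2]
    omega
  · have hpP := Nat.prime_iff_prime_int.1 hp.out
    have h3 : (p : ℤ) ∣ (p : ℤ) ^ 3 * k := ⟨(p : ℤ) ^ 2 * k, by ring⟩
    refine padic_sq h2 (fun h => ?_) ?_
    · rcases hpP.dvd_or_dvd h with h | h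
      · exact hm h
      · exact hm ((dvd_add_left h3).1 h)
    · have h4 : (((p : ℤ) ^ 3 * k : ℤ) : ZMod p) = 0 := (ZMod.intCast_zmod_eq_zero_iff_dvd _ _).2 h3
      rw [Int.cast_mul, Int.cast_add, h4, add_zero]
      exact ⟨_, rfl⟩

/-- **weak approximation for square classes** -/
theorem weak {T : Finset ℕ} (hT : ∀ p ∈ T, p.Prime) (x : ∀ (p : ℕ) [Fact p.Prime], ℚ_[p])
    (hx : ∀ (p : ℕ) [Fact p.Prime], x p ≠ 0) (s : Prop) : ∃ D : ℤ, Squarefree D ∧ (0 < D ↔ s) ∧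
    ∀ (p : ℕ) [Fact p.Prime], p ∈ T → IsSquare (x p * (D : ℚ_[p])) := by
  have h4 := fun (p : ℕ) (hp : p.Prime) => @Pool.Agent.W310.BMX.odd4 p ⟨hp⟩ (@x p ⟨hp⟩) (@hx p ⟨hp⟩)
  choose t m c h using h4
  set a : ℕ → ℕ := fun p => if hp : p.Prime then
    (((p : ℤ) ^ t p hp * m p hp) % (p : ℤ) ^ 4).toNat else 0 with ha
  obtain ⟨k, hk⟩ := Nat.chineseRemainderOfFinset a (fun p => p ^ 4) T
    (fun p hp => pow_ne_zero 4 (hT p hp).ne_zero) (by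
      intro p hp q hq hpq
      exact Nat.Coprime.pow 4 4 ((Nat.coprime_primes (hT p hp) (hT q hq)).2 hpq))
  obtain ⟨M, hM⟩ : ∃ M : ℕ, M = ∏ p ∈ T, p ^ 4 := ⟨_, rfl⟩
  have hM0 : 0 < M := by
    rw [hM]
    exact prod_pos fun p hp => pow_pos (hT p hp).pos 4
  obtain ⟨D₀, hD₀, hs, hD₀M⟩ : ∃ D₀ : ℤ, D₀ ≠ 0 ∧ (0 < D₀ ↔ s) ∧ (M : ℤ) ∣ D₀ - k := by
    by_cases hs : s
    · refine ⟨k + M, by omega, ⟨fun _ => hs, fun _ => by omega⟩, ⟨1, by ring⟩⟩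
    · have h1 : (k : ℤ) - M * (k + 1) < 0 := by
        have h2 : (1 : ℤ) ≤ M := by exact_mod_cast hM0
        have h3 : (0 : ℤ) ≤ k := by positivity
        nlinarith
      exact ⟨k - M * (k + 1), h1.ne, ⟨fun h => absurd h (not_lt.2 h1.le), fun h => absurd h hs⟩,
        ⟨-(k + 1), by ring⟩⟩
  obtain ⟨D, e, hD, he, rfl⟩ := Pool.Agent.W351.HB.PF.exists_sqf D₀ hD₀
  refine ⟨D, hD, ?_, fun p hp hpT => ?_⟩
  · rw [← hs]
    have : 0 < e ^ 2 := by positivity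
    exact ⟨fun h => mul_pos h this, fun h => (mul_pos_iff_of_pos_right this).1 h⟩
  · obtain ⟨h1, h2, h3, h5⟩ := h p hp.out
    have hk1 := hk p hpT
    have e1 : a p = (((p : ℤ) ^ t p hp.out * m p hp.out) % (p : ℤ) ^ 4).toNat := dif_pos hp.out
    have h6 : ((p : ℤ) ^ 4) ∣ (k : ℤ) - (p : ℤ) ^ t p hp.out * m p hp.out := by
      have h7 : (k : ℤ) ≡ (a p : ℤ) [ZMOD ((p ^ 4 : ℕ) : ℤ)] := Int.natCast_modEq_iff.2 hk1
      have hp4 : (0 : ℤ) < (p : ℤ) ^ 4 := by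
        have := hp.out.pos
        positivity
      rw [e1, Int.toNat_of_nonneg (Int.emod_nonneg _ hp4.ne')] at h7
      push_cast at h7
      have h8 := (h7.trans (Int.mod_modEq _ _)).symm.dvd
      exact h8
    have h7 : ((p : ℤ) ^ 4) ∣ D * e ^ 2 - (p : ℤ) ^ t p hp.out * m p hp.out := by
      have h8 : ((p : ℤ) ^ 4) ∣ (M : ℤ) := by
        rw [hM]
        have : p ^ 4 ∣ ∏ p ∈ T, p ^ 4 := dvd_prod_of_mem (fun p => p ^ 4) hpT
        exact_mod_cast this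
      have h9 := dvd_add (h8.trans hD₀M) h6
      have e2 : D * e ^ 2 - k + (k - (p : ℤ) ^ t p hp.out * m p hp.out) =
        D * e ^ 2 - (p : ℤ) ^ t p hp.out * m p hp.out := by ring
      rwa [e2] at h9
    obtain ⟨j, hj⟩ := h7
    have h8 := sq_near (p := p) h2 h1 j
    rw [← hj] at h8
    have e3 : (p : ℤ) ^ t p hp.out * m p hp.out + (D * e ^ 2 - (p : ℤ) ^ t p hp.out * m p hp.out) =
      D * e ^ 2 := by ring
    rw [e3] at h8
    obtain ⟨r, hr⟩ := h8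
    have he0 : (e : ℚ_[p]) ≠ 0 := by exact_mod_cast he
    refine ⟨r * c p hp.out / e, ?_⟩
    rw [h5]
    push_cast at hr ⊢
    field_simp
    linear_combination hr

end Q44.BN
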