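import Pool.Agent.Q44.BN.Par

/-!
# If the Selmer group is as small as possible then so is the dual Selmer group
-/

set_option autoImplicit false

open scoped Classical

namespace Q44.BN

open Finset Module
open Pool.Agent.Y703.CQ (nr)
open Q44.BC (lm lm_apply)
open Q44.TK (Fm hF hF_pos hF_mul hF_sum hF_eq hF_one Fm_two)
open Q44.BM (vm Fam RC Sys)
open Q44.TI (Loc SelS pd fd ch nr_ch ch_zero ch_mul ch_pd pd_erase pd_sdiff not_dvd_pd dvd_pd_iff
  pd_pos nz_of)

/-- linear algebra -/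
theorem la_surj {V W Y : Type} [AddCommGroup V] [Module (ZMod 2) V] [AddCommGroup W]
    [Module (ZMod 2) W] [AddCommGroup Y] [Module (ZMod 2) Y] [Module.Finite (ZMod 2) V]
    [Module.Finite (ZMod 2) W] [Module.Finite (ZMod 2) Y] (Ψ : V →ₗ[ZMod 2] W)
    (hΨ : Function.Surjective Ψ) (R : V →ₗ[ZMod 2] Y) (L : Submodule (ZMod 2) W)
    (hf : finrank (ZMod 2) V + finrank (ZMod 2) L = finrank (ZMod 2) Y + finrank (ZMod 2) W)
    (h0 : ∀ v, Ψ v ∈ L → R v = 0 → v = 0) (y : Y) : ∃ v, Ψ v ∈ L ∧ R v = y := by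
  have e1 := LinearMap.finrank_range_add_finrank_ker (L.mkQ ∘ₗ Ψ)
  have e2 : LinearMap.range (L.mkQ ∘ₗ Ψ) = ⊤ := by
    rw [LinearMap.range_eq_top]
    exact (Submodule.mkQ_surjective L).comp hΨ
  have e3 : LinearMap.ker (L.mkQ ∘ₗ Ψ) = L.comap Ψ := by
    rw [LinearMap.ker_comp, Submodule.ker_mkQ]
  rw [e2, finrank_top, e3] at e1
  have e4 := Submodule.finrank_quotient_add_finrank L
  have e5 : finrank (ZMod 2) (L.comap Ψ) = finrank (ZMod 2) Y := by omega
  let R' : (L.comap Ψ) →ₗ[ZMod 2] Y := R.domRestrict (L.comap Ψ)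
  have hinj : Function.Injective R' := by
    rw [injective_iff_map_eq_zero]
    intro v hv
    exact Subtype.ext (h0 v v.2 hv)
  obtain ⟨v, hv⟩ := (LinearMap.injective_iff_surjective_of_finrank_eq_finrank e5).1 hinj y
  exact ⟨v, v.2, hv⟩

/-- the extension by zero -/
noncomputable def ext {W : Finset ℕ} (x : W → ZMod 2) (q : ℕ) : ZMod 2 :=
  if h : q ∈ W then x ⟨q, h⟩ else 0

theorem ext_coe {W : Finset ℕ} (x : W → ZMod 2) (q : W) : ext x q = x q := by
  unfold ext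
  rw [dif_pos q.2]

theorem ext_out {W : Finset ℕ} (x : W → ZMod 2) {q : ℕ} (h : q ∉ W) : ext x q = 0 := dif_neg h

theorem ext_add {W : Finset ℕ} (x y : W → ZMod 2) (q : ℕ) : ext (x + y) q = ext x q + ext y q := by
  unfold ext
  split_ifs
  · rfl
  · rw [add_zero]

theorem ext_sum {M : Type} [AddCommGroup M] [Module (ZMod 2) M] {S W : Finset ℕ} (hW : W ⊆ S)
    (x : W → ZMod 2) (t : ℕ → M) : ∑ q ∈ S, ext x q • t q = ∑ q : W, x q • t q := by
  have h1 : ∑ q ∈ W, ext x q • t q = ∑ q ∈ S, ext x q • t q := by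
    refine sum_subset hW fun q _ hq => ?_
    rw [ext_out x hq, zero_smul]
  rw [← h1, ← sum_coe_sort]
  exact sum_congr rfl fun q _ => by rw [ext_coe]

namespace Cu

variable (c : Cu)

/-- the set contains a prime of every residue class -/
def Full (S : Finset ℕ) : Prop := ∀ i : c.I, ∃ p ∈ S, c.cl i p

theorem rw0_add (S : Finset ℕ) (v w : (ℕ → ZMod 2) × GG c.T) (p : ℕ) :
    c.rw0 S (v + w) p = c.rw0 S v p + c.rw0 S w p := by
  unfold rw0
  have e : ∑ q ∈ S, nr p q * ((v + w).1 q + (v + w).1 p) =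
      ∑ q ∈ S, nr p q * (v.1 q + v.1 p) + ∑ q ∈ S, nr p q * (w.1 q + w.1 p) := by
    rw [← sum_add_distrib]
    refine sum_congr rfl fun q _ => ?_
    simp only [Prod.fst_add, Pi.add_apply]
    ring
  rw [e]
  simp only [Prod.fst_add, Prod.snd_add, Pi.add_apply, map_add, LinearMap.add_apply]
  ring

/-- the active primes of the set -/
noncomputable def AcS (S : Finset ℕ) : Finset ℕ := S.filter (Ac c.A c.B)

theorem mem_AcS {S : Finset ℕ} {p : ℕ} : p ∈ c.AcS S ↔ p ∈ S ∧ Ac c.A c.B p := mem_filter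

/-- the unknowns -/
abbrev VV (S : Finset ℕ) : Type := (c.AcS S → ZMod 2) × GG c.T

/-- the first map -/
noncomputable def Psi (S : Finset ℕ) : c.VV S →ₗ[ZMod 2] GG c.T × c.FA :=
  lm (fun v => (v.2, ∑ q : c.AcS S, v.1 q • c.hA q)) fun v w => by
    refine Prod.ext rfl ?_
    show ∑ q : c.AcS S, (v + w).1 q • c.hA q = _ + _
    rw [← sum_add_distrib]
    exact sum_congr rfl fun q _ => add_smul _ _ _

/-- the rows -/
noncomputable def Rw (S : Finset ℕ) : c.VV S →ₗ[ZMod 2] (c.AcS S → ZMod 2) :=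
  lm (fun v p => c.rw0 S (ext v.1, v.2) p) fun v w => by
    funext p
    show c.rw0 S (ext (v + w).1, (v + w).2) p = c.rw0 S (ext v.1, v.2) p + c.rw0 S (ext w.1, w.2) p
    rw [← c.rw0_add]
    congr 1
    exact Prod.ext (funext fun q => ext_add _ _ q) rfl

theorem Psi_surj {S : Finset ℕ} (hF : c.Full S) : Function.Surjective (c.Psi S) := by
  rintro ⟨g, y⟩
  obtain ⟨i, hi⟩ := ex_cl y
  obtain ⟨p, hp, hcl⟩ := hF i
  obtain ⟨h1, h2⟩ := hi p hcl
  have hpA : p ∈ c.AcS S := c.mem_AcS.2 ⟨hp, h1⟩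
  refine ⟨(Pi.single ⟨p, hpA⟩ 1, g), ?_⟩
  refine Prod.ext rfl ?_
  show ∑ q : c.AcS S, (Pi.single ⟨p, hpA⟩ 1 : c.AcS S → ZMod 2) q • c.hA q = y
  rw [sum_eq_single ⟨p, hpA⟩]
  · rw [Pi.single_eq_same, one_smul, h2]
  · intro q _ hq
    rw [Pi.single_eq_of_ne hq, zero_smul]
  · intro h
    exact absurd (mem_univ _) h

/-- the condition at the bad places -/
theorem Psi_mem {S : Finset ℕ} {v : c.VV S} :
    c.Psi S v = (v.2, ∑ q ∈ S, ext v.1 q • c.hA q) := by
  refine Prod.ext rfl ?_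
  exact (ext_sum (filter_subset _ _) v.1 _).symm

/-- the vectors with all conditions -/
theorem VV_Sel {S : Finset ℕ} {v : c.VV S} (h1 : c.Psi S v ∈ c.L0) (h2 : c.Rw S v = 0) :
    ((ext v.1, v.2) : (ℕ → ZMod 2) × GG c.T) ∈ (c.sy c.L0).Sel S := by
  refine Sys.mem_Sel.2 ⟨fun p hp => ext_out _ fun h => hp ?_, fun p hp ha => ?_, ?_⟩
  · obtain ⟨h3, h4⟩ := c.mem_AcS.1 h
    exact ⟨h3, (c.A_iff p).2 h4⟩
  · exact congrFun h2 ⟨p, c.mem_AcS.2 ⟨hp, (c.A_iff p).1 ha⟩⟩
  · rw [c.Psi_mem] at h1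
    exact h1

theorem fr_pi {W : Finset ℕ} : finrank (ZMod 2) (W → ZMod 2) = W.card := by
  rw [Module.finrank_fintype_fun_eq_card, Fintype.card_coe]

/-- **the rows take all values** -/
theorem rows_surj {S : Finset ℕ} (hF : c.Full S) (ht : c.t = 1) (h0 : c.Dr 0 S)
    (y : c.AcS S → ZMod 2) : ∃ v : c.VV S, c.Psi S v ∈ c.L0 ∧ c.Rw S v = y := by
  have := c.finFA
  have hfin := c.fin_Sel S c.L0
  have hFA : Module.Finite (ZMod 2) c.FA := Module.Finite.of_finite
  refine la_surj (c.Psi S) (c.Psi_surj hF) (c.Rw S) c.L0 ?_ ?_ y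
  · have h1 : Nat.card c.L0 = Nat.card c.FA := by
      unfold Cu.t at ht
      have h2 : (Nat.card c.FA : ℝ) ≠ 0 := by
        have : 0 < Nat.card c.FA := Nat.card_pos
        exact_mod_cast this.ne'
      rw [div_eq_one_iff_eq h2] at ht
      exact_mod_cast ht
    rw [Module.natCard_eq_pow_finrank (K := ZMod 2), Module.natCard_eq_pow_finrank (K := ZMod 2)
      (V := c.FA), Nat.card_eq_fintype_card, ZMod.card] at h1
    have h3 := Nat.pow_right_injective (le_refl 2) h1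
    have h4 : finrank (ZMod 2) c.L0 = finrank (ZMod 2) c.FA := h3
    have e1 : finrank (ZMod 2) (c.VV S) =
        finrank (ZMod 2) (c.AcS S → ZMod 2) + finrank (ZMod 2) (GG c.T) := Module.finrank_prod
    have e2 : finrank (ZMod 2) (GG c.T × c.FA) =
        finrank (ZMod 2) (GG c.T) + finrank (ZMod 2) c.FA := Module.finrank_prod
    rw [h4, e1, e2]
    omega
  · intro v h1 h2
    have h3 := c.VV_Sel h1 h2
    have h4 : Nat.card ((c.sy c.L0).Sel S) = 1 := by
      rw [Module.natCard_eq_pow_finrank (K := ZMod 2)]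
      unfold Dr at h0
      rw [h0, pow_zero]
    have h5 : Subsingleton ((c.sy c.L0).Sel S) := (Nat.card_eq_one_iff_unique.1 h4).1
    have h6 : (⟨_, h3⟩ : (c.sy c.L0).Sel S) = 0 := Subsingleton.elim _ _
    have h7 : ((ext v.1, v.2) : (ℕ → ZMod 2) × GG c.T) = 0 := congrArg Subtype.val h6
    refine Prod.ext (funext fun q => ?_) (Prod.mk.inj h7).2
    rw [← ext_coe v.1 q]
    exact congrFun (Prod.mk.inj h7).1 q

/-- **the dual Selmer group is as small as possible** -/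
theorem dual_small {S : Finset ℕ} (hS : ∀ p ∈ S, c.rc.Φ.P p)
    (hG : hF c.m (∏ p ∈ S, p) = hF c.m c.d) (hFu : c.Full S) (ht : c.t = 1) (h0 : c.Dr 0 S) :
    c.DS S ⊆ {1, UU c.gB} := by
  intro z' hz'
  -- no active prime divides `z'`
  have hnd : ∀ p ∈ c.AcS S, ¬ (p : ℤ) ∣ z' := by
    intro p hp hd
    obtain ⟨v, hv1, hv2⟩ := c.rows_surj hFu ht h0 (Pi.single ⟨p, hp⟩ 1)
    have hx : ∀ q, q ∉ S → ext v.1 q = 0 := fun q hq => ext_out _ fun h => hq (c.mem_AcS.1 h).1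
    have hind := ind_filter hx
    have hJ : ∀ q ∈ S.filter (fun p => ext v.1 p ≠ 0), q ∈ S ∧ Ac c.A c.B q := by
      intro q hq
      obtain ⟨h1, h2⟩ := mem_filter.1 hq
      by_contra h3
      exact h2 (ext_out _ fun h => h3 (c.mem_AcS.1 h))
    have hL : (v.2, ∑ q ∈ S, ind (S.filter fun p => ext v.1 p ≠ 0) q • c.hA q) ∈ c.LL := by
      rw [hind]
      have := hv1.1
      rw [c.Psi_mem] at this
      exact this
    have h1 := c.parity hS hJ v.2 ((c.cls_iff hS hG hJ v.2).1 hL) hz'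
    rw [hind] at h1
    have h2 : ∑ q ∈ S.filter (Ac c.A c.B), c.rw0 S (ext v.1, v.2) q *
        (if (q : ℤ) ∣ z' then 1 else 0) = ∑ q : c.AcS S, (c.Rw S v) q *
        (if ((q : ℕ) : ℤ) ∣ z' then 1 else 0) :=
      (sum_coe_sort (c.AcS S) fun q => c.rw0 S (ext v.1, v.2) q *
        (if (q : ℤ) ∣ z' then 1 else 0)).symm
    rw [h2, hv2, sum_eq_single ⟨p, hp⟩] at h1
    · rw [Pi.single_eq_same, one_mul, if_pos hd] at h1
      exact one_ne_zero h1
    · intro q _ hq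
      rw [Pi.single_eq_of_ne hq, zero_mul]
    · intro h
      exact absurd (mem_univ _) h
  obtain ⟨g', J', hJ', hR', hz⟩ := c.dual_nec hS hz'
  have hCl := c.cl_all hS
  have hJp' : ∀ l ∈ J', l.Prime := fun l hl => hCl.prime l (hJ' l hl).1
  have hJe : J' = ∅ := by
    rw [Finset.eq_empty_iff_forall_notMem]
    intro p hp
    refine hnd p (c.mem_AcS.2 (hJ' p hp)) ?_
    rw [hz]
    exact ((dvd_pd_iff (hJp' p hp) hJp').2 hp).mul_left _
  subst hJe
  have hz1 : z' = UU g' := by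
    rw [hz]
    unfold pd
    simp
  have hχ : c.chi g' = 0 := by
    refine LinearMap.ext fun x => ?_
    obtain ⟨i, hi⟩ := ex_cl x
    obtain ⟨p, hp, hcl⟩ := hFu i
    obtain ⟨h1, h2⟩ := hi p hcl
    have h3 := hR' p hp h1 (notMem_empty p)
    rw [sum_empty, add_zero, ← c.chi_hA g' h1, h2] at h3
    exact h3
  rcases c.chi_zero hχ with h | h
  · left
    rw [hz1, h, UU_zero]
  · right
    rw [hz1, h]
    rfl

end Cu

end Q44.BN
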